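import Mathlib

/-!
# Differentials of a transcendence basis
-/

open scoped TensorProduct

set_option linter.unusedSectionVars false

namespace Pool.Agent.KS6_77

/-- In characteristic zero, the differentials of a transcendence basis form a basis. -/
theorem exists_kaehler_basis {K L ι : Type*} [Field K] [CharZero K] [Field L] [Algebra K L]
    {x : ι → L} (hx : IsTranscendenceBasis K x) :
    ∃ B : Module.Basis ι L Ω[L⁄K], ∀ i, B i = KaehlerDifferential.D K L (x i) := by
  classical
  have : Algebra.IsAlgebraic (Algebra.adjoin K (Set.range x)) L := hx.isAlgebraic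
  let R₀ : Subalgebra K L := Algebra.adjoin K (Set.range x)
  have : FaithfulSMul R₀ L := inferInstance
  let _ : Algebra (FractionRing R₀) L := FractionRing.liftAlgebra R₀ L
  have : IsScalarTower R₀ (FractionRing R₀) L := FractionRing.isScalarTower_liftAlgebra R₀ L
  have h1 : Algebra.FormallyEtale R₀ (FractionRing R₀) :=
    Algebra.FormallyEtale.of_isLocalization (nonZeroDivisors R₀)
  have : Algebra.IsAlgebraic (FractionRing R₀) L := Algebra.IsAlgebraic.extendScalars
    (R := R₀) (S := FractionRing R₀) (A := L) (IsFractionRing.injective R₀ (FractionRing R₀))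
  have : CharZero (FractionRing R₀) := charZero_of_injective_algebraMap
    (R := K) (FaithfulSMul.algebraMap_injective K _)
  have : Algebra.IsSeparable (FractionRing R₀) L := inferInstance
  have h2 : Algebra.FormallyEtale (FractionRing R₀) L := Algebra.FormallyEtale.of_isSeparable _ L
  have h3 : Algebra.FormallyEtale R₀ L := .comp R₀ (FractionRing R₀) L
  let P := MvPolynomial ι K
  let e : P ≃ₐ[K] R₀ := hx.1.aevalEquiv
  let _ : Algebra P R₀ := e.toRingHom.toAlgebra
  have h4 : Algebra.FormallyEtale P R₀ :=
    Algebra.FormallyEtale.of_equiv (AlgEquiv.ofBijective (Algebra.ofId P R₀) e.bijective)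
  let _ : Algebra P L := (MvPolynomial.aeval x).toRingHom.toAlgebra
  have : IsScalarTower P R₀ L := IsScalarTower.of_algebraMap_eq fun p =>
    (hx.1.algebraMap_aevalEquiv p).symm
  have : IsScalarTower K P L := IsScalarTower.of_algebraMap_eq fun c =>
    (MvPolynomial.aeval_C x c).symm
  have h5 : Algebra.FormallyEtale P L := .comp P R₀ L
  let B := ((KaehlerDifferential.mvPolynomialBasis K ι).baseChange L).map
    (KaehlerDifferential.tensorKaehlerEquivOfFormallyEtale K P L)
  refine ⟨B, fun i => ?_⟩
  simp only [B, Module.Basis.map_apply, Module.Basis.baseChange_apply,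
    KaehlerDifferential.mvPolynomialBasis_apply]
  rw [← LinearEquiv.eq_symm_apply]
  have h6 : x i = algebraMap P L (MvPolynomial.X i) := (MvPolynomial.aeval_X x i).symm
  rw [h6, KaehlerDifferential.tensorKaehlerEquivOfFormallyEtale_symm_D_algebraMap]

end Pool.Agent.KS6_77
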