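import Mathlib

/-!
# Evaluation of tensor differentials along derivations
-/

open scoped TensorProduct

set_option linter.unusedSectionVars false

namespace Pool.Agent.KS6_77

variable {K : Type*} {M : Type*} (L : Type*) {L' : Type*} {E : Type*}
  [Field K] [Field L] [Field L'] [Field M] [Field E]
  [Algebra K L] [Algebra K M] [Algebra L M] [IsScalarTower K L M]

/-- The linear map on differentials given by a derivation. -/
noncomputable def evOne (D : Derivation K M M) : Ω[L⁄K] →ₗ[L] M :=
  (D.compAlgebraMap L).liftKaehlerDifferential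

lemma evOne_D (D : Derivation K M M) (x : L) :
    evOne L D (KaehlerDifferential.D K L x) = D (algebraMap L M x) := by
  simp [evOne]

/-- The value of a tensor differential on a sequence of derivations. -/
noncomputable def evForm {m : ℕ} (D : Fin m → Derivation K M M) :
    (⨂[L] _ : Fin m, Ω[L⁄K]) →ₗ[L] M :=
  PiTensorProduct.lift ((MultilinearMap.mkPiAlgebra L (Fin m) M).compLinearMap
    fun j => evOne L (D j))

lemma evForm_tprod {m : ℕ} (D : Fin m → Derivation K M M) (x : Fin m → Ω[L⁄K]) :
    evForm L D (PiTensorProduct.tprod L x) = ∏ j, evOne L (D j) (x j) := by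
  simp [evForm]

variable [Algebra L L'] [Algebra M E] [Algebra L E] [IsScalarTower L M E]

/-- The value of a tensor differential with coefficients in a cover. -/
noncomputable def evCover (s : L' →ₐ[L] E) {m : ℕ} (D : Fin m → Derivation K M M) :
    L' ⊗[L] (⨂[L] _ : Fin m, Ω[L⁄K]) →ₗ[L] E :=
  (LinearMap.mul' L E).comp (TensorProduct.map s.toLinearMap
    ((IsScalarTower.toAlgHom L M E).toLinearMap.comp (evForm L D)))

lemma evCover_tmul (s : L' →ₐ[L] E) {m : ℕ} (D : Fin m → Derivation K M M) (b : L')
    (x : ⨂[L] _ : Fin m, Ω[L⁄K]) :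
    evCover L s D (b ⊗ₜ x) = s b * algebraMap M E (evForm L D x) := by
  simp [evCover]

lemma evCover_smul (s : L' →ₐ[L] E) {m : ℕ} (D : Fin m → Derivation K M M) (b : L')
    (x : L' ⊗[L] (⨂[L] _ : Fin m, Ω[L⁄K])) :
    evCover L s D (b • x) = s b * evCover L s D x := by
  induction x with
  | zero => simp
  | tmul a y => rw [TensorProduct.smul_tmul', evCover_tmul, evCover_tmul, smul_eq_mul, map_mul,
      mul_assoc]
  | add x y hx hy => rw [smul_add, map_add, map_add, hx, hy, mul_add]

variable {L}

/-- A linearly independent finite family of vectors has a dual family. -/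
lemma exists_dual {ι κ : Type*} [Fintype ι] [Fintype κ] [DecidableEq κ] (v : κ → ι → M)
    (hv : LinearIndependent M v) :
    ∃ c : κ → ι → M, ∀ k k', ∑ i, c k i * v k' i = if k = k' then 1 else 0 := by
  classical
  obtain ⟨g, hg⟩ := (Fintype.linearCombination M v).exists_leftInverse_of_injective
    (LinearMap.ker_eq_bot.mpr (by
      exact LinearIndependent.fintypeLinearCombination_injective hv))
  refine ⟨fun k i => g (Pi.single i 1) k, fun k k' => ?_⟩
  have h1 : g (v k') = Pi.single k' 1 := by
    have := LinearMap.congr_fun hg (Pi.single k' 1)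
    simpa [Fintype.linearCombination_apply_single] using this
  have h2 : v k' = ∑ i, v k' i • (Pi.single i 1 : ι → M) := by
    funext i
    simp [Finset.sum_apply, Pi.single_apply]
  have h3 : g (v k') k = ∑ i, g (Pi.single i 1) k * v k' i := by
    conv_lhs => rw [h2]
    rw [map_sum, Finset.sum_apply]
    refine Finset.sum_congr rfl fun i _ => ?_
    rw [map_smul, Pi.smul_apply, smul_eq_mul, mul_comm]
  rw [← h3, h1, Pi.single_apply]

/-- If differentials that are independent evaluate to independent vectors, the evaluations of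
tensor differentials are injective. -/
theorem evCover_injective {ι : Type*} [Fintype ι] (D : ι → Derivation K M M)
    {κ : Type*} [Fintype κ] (B : Module.Basis κ L Ω[L⁄K])
    (hB : LinearIndependent M (fun (k : κ) (i : ι) => evOne L (D i) (B k)))
    (s : L' →ₐ[L] E) {m : ℕ} (x : L' ⊗[L] (⨂[L] _ : Fin m, Ω[L⁄K]))
    (hx : ∀ I : Fin m → ι, evCover L s (fun j => D (I j)) x = 0) : x = 0 := by
  classical
  let Bt : Module.Basis (Fin m → κ) L (⨂[L] _ : Fin m, Ω[L⁄K]) := Basis.piTensorProduct fun _ => B
  let BB := Bt.baseChange L'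
  have hxe : x = ∑ p, BB.repr x p ⊗ₜ[L] Bt p := by
    conv_lhs => rw [← BB.sum_repr x]
    refine Finset.sum_congr rfl fun p _ => ?_
    rw [Module.Basis.baseChange_apply, TensorProduct.smul_tmul', smul_eq_mul, mul_one]
  obtain ⟨c, hc⟩ := exists_dual _ hB
  have hev : ∀ I : Fin m → ι, evCover L s (fun j => D (I j)) x =
      ∑ p, s (BB.repr x p) * algebraMap M E (∏ j, evOne L (D (I j)) (B (p j))) := by
    intro I
    conv_lhs => rw [hxe]
    rw [map_sum]
    refine Finset.sum_congr rfl fun p _ => ?_
    rw [evCover_tmul, Basis.piTensorProduct_apply, evForm_tprod]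
  have hz : ∀ q : Fin m → κ, s (BB.repr x q) = 0 := by
    intro q
    have h1 : ∑ I : Fin m → ι, algebraMap M E (∏ j, c (q j) (I j)) *
        evCover L s (fun j => D (I j)) x = 0 :=
      Finset.sum_eq_zero fun I _ => by rw [hx I, mul_zero]
    have h2 : ∑ I : Fin m → ι, algebraMap M E (∏ j, c (q j) (I j)) *
        evCover L s (fun j => D (I j)) x =
        ∑ p, s (BB.repr x p) * algebraMap M E
          (∏ j, ∑ i, c (q j) i * evOne L (D i) (B (p j))) := by
      simp only [hev, Finset.mul_sum]
      rw [Finset.sum_comm]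
      refine Finset.sum_congr rfl fun p _ => ?_
      rw [Finset.prod_univ_sum, map_sum, Finset.mul_sum, Fintype.piFinset_univ]
      refine Finset.sum_congr rfl fun I _ => ?_
      rw [Finset.prod_mul_distrib, map_mul]
      ring
    rw [h2] at h1
    rw [Finset.sum_eq_single q] at h1
    · simpa [hc] using h1
    · intro p _ hp
      obtain ⟨j, hj⟩ := Function.ne_iff.mp hp
      rw [Finset.prod_eq_zero (Finset.mem_univ j), map_zero, mul_zero]
      rw [hc, if_neg (Ne.symm hj)]
    · simp
  rw [← BB.repr.map_eq_zero_iff]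
  ext q
  exact (map_eq_zero s).mp (hz q)

end Pool.Agent.KS6_77
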