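import Pool.Agent.KS6_77.LinAlg
import Pool.Agent.KS6_77.Forms

/-!
# Independence over a larger field
-/

set_option linter.unusedSectionVars false

namespace Pool.Agent.KS6_77

/-- Vectors over a smaller field that are independent over it are independent. -/
lemma indep_of_ratio {K E : Type*} [Field K] [Field E] [Algebra K E] {J : Type*} [Fintype J]
    {n : Type*} [Fintype n] (y : n → J → K) (hy : LinearIndependent K y) (a : n → E)
    (ha : ∀ j, ∑ t, a t * algebraMap K E (y t j) = 0) (t : n) : a t = 0 := by
  classical
  obtain ⟨c, hc⟩ := exists_dual y hy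
  have h1 : ∑ j, algebraMap K E (c t j) * ∑ t', a t' * algebraMap K E (y t' j) = 0 :=
    Finset.sum_eq_zero fun j _ => by rw [ha j, mul_zero]
  have h2 : ∑ j, algebraMap K E (c t j) * ∑ t', a t' * algebraMap K E (y t' j) =
      ∑ t', a t' * algebraMap K E (∑ j, c t j * y t' j) := by
    simp only [Finset.mul_sum, map_sum, map_mul]
    rw [Finset.sum_comm]
    exact Finset.sum_congr rfl fun _ _ => Finset.sum_congr rfl fun _ _ => by ring
  rw [h2] at h1
  simpa [hc] using h1

variable {K L' E V : Type*} [Field K] [IsAlgClosed K] [Field L'] [Field E] [Algebra K L']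
  [Algebra K E] [AddCommGroup V] [Module K V] [Module L' V] [IsScalarTower K L' V]
  {S J : Type*} [Fintype S] [Fintype J]

theorem abs_indep [Nonempty S] (e : S → L' →+* E) (φ : S → V →ₗ[K] (J → E))
    (hφ : ∀ s a x j, φ s (a • x) j = e s a * φ s x j) (U : Submodule K V)
    (hinj : ∀ s, ∀ x ∈ U, φ s x = 0 → x = 0)
    (hprod : ∀ x ∈ U, ∀ l : J → K, ∃ y : K, ∏ s, pair l (φ s x) = algebraMap K E y)
    {τ : Type*} (w : τ → U) (hw : LinearIndependent K w) :
    LinearIndependent L' (fun t => (w t : V)) := by
  classical
  rw [linearIndependent_iff_finset_linearIndependent]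
  intro T
  have hw' : LinearIndependent K (fun k : T => w k.1) := hw.comp _ Subtype.val_injective
  rw [Fintype.linearIndependent_iff]
  intro a ha k
  obtain ⟨s⟩ : Nonempty S := inferInstance
  obtain ⟨c, hc0, hc⟩ := proportional (fun s => (φ s).comp U.subtype)
    (fun s => (injective_iff_map_eq_zero _).mpr fun x hx => Subtype.ext (hinj s x.1 x.2 hx))
    (fun u l => hprod u.1 u.2 l) s
  choose x hx using hc
  have hx' : LinearIndependent K (fun k : T => x (w k.1)) := by
    rw [Fintype.linearIndependent_iff] at hw' ⊢
    intro g hg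
    refine hw' g (Subtype.ext (hinj s _ (Submodule.coe_mem _) ?_))
    funext I
    have h1 := congrFun hg I
    rw [Finset.sum_apply] at h1
    have h2 : ∀ k : T, φ s (g k • (w k.1 : V)) I = algebraMap K E (g k * x (w k.1) I) * c := by
      intro k
      have := hx (w k.1) I
      rw [map_smul, Pi.smul_apply, Algebra.smul_def, map_mul, mul_assoc, ← this]
      rfl
    rw [Submodule.coe_sum, map_sum, Finset.sum_apply]
    simp only [Submodule.coe_smul, h2, ← Finset.sum_mul, ← map_sum]
    have h3 : ∑ k : T, g k * x (w k.1) I = 0 := by simpa using h1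
    rw [h3, map_zero, zero_mul]
    rfl
  have h4 := indep_of_ratio _ hx' (fun k => e s (a k)) (fun I => by
    have h5 := congrFun (congrArg (φ s) ha) I
    rw [map_sum, map_zero, Finset.sum_apply] at h5
    have h6 : ∀ k : T, φ s (a k • ((fun t : τ => (w t : V)) ∘ Subtype.val) k) I
        = e s (a k) * algebraMap K E (x (w k.1) I) * c := by
      intro k
      rw [hφ, mul_assoc]
      congr 1
      exact hx (w k.1) I
    have h7 : (∑ k : T, e s (a k) * algebraMap K E (x (w k.1) I)) * c = 0 := by
      rw [Finset.sum_mul, ← Pi.zero_apply (M := fun _ => E) I, ← h5]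
      exact Finset.sum_congr rfl fun k _ => (h6 k).symm
    exact (mul_eq_zero.mp h7).resolve_right hc0) k
  exact (map_eq_zero (e s)).mp h4

theorem abs_dim (φ : S → V →ₗ[K] (J → E)) (U : Submodule K V)
    (hinj : ∀ s, ∀ x ∈ U, φ s x = 0 → x = 0)
    (hprod : ∀ x ∈ U, ∀ l : J → K, ∃ y : K, ∏ s, pair l (φ s x) = algebraMap K E y)
    (J' : Set J)
    (hvan : ∀ x ∈ U, ∀ l : J → K, (∀ j ∉ J', l j = 0) → ∏ s, pair l (φ s x) = 0) :
    Module.Finite K U ∧ Module.finrank K U ≤ Nat.card {j // j ∉ J'} := by
  classical
  obtain ⟨s, hs⟩ := exists_vanish (K := K) J' (fun s => (φ s).comp U.subtype)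
    (fun u l hl => hvan u.1 u.2 l hl)
  obtain ⟨c, hc0, hc⟩ := proportional (fun s => (φ s).comp U.subtype)
    (fun s => (injective_iff_map_eq_zero _).mpr fun x hx => Subtype.ext (hinj s x.1 x.2 hx))
    (fun u l => hprod u.1 u.2 l) s
  choose x hx using hc
  let ψ : U →ₗ[K] ({j // j ∉ J'} → K) :=
    { toFun := fun u j => x u j
      map_add' := fun u u' => by
        funext j
        apply FaithfulSMul.algebraMap_injective K E
        apply mul_right_cancel₀ hc0
        rw [Pi.add_apply, ← hx, map_add, map_add, add_mul, ← hx, ← hx]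
        rfl
      map_smul' := fun a u => by
        funext j
        apply FaithfulSMul.algebraMap_injective K E
        apply mul_right_cancel₀ hc0
        rw [RingHom.id_apply, Pi.smul_apply, ← hx, map_smul, Pi.smul_apply, smul_eq_mul, map_mul,
          mul_assoc, ← hx, Algebra.smul_def] }
  have hψ : Function.Injective ψ := by
    rw [injective_iff_map_eq_zero]
    intro u hu
    refine Subtype.ext (hinj s u.1 u.2 (funext fun j => ?_))
    by_cases hj : j ∈ J'
    · exact hs u j hj
    · have h1 : x u j = 0 := congrFun hu ⟨j, hj⟩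
      have h2 := hx u j
      rw [h1, map_zero, zero_mul] at h2
      exact h2
  refine ⟨Module.Finite.of_injective ψ hψ, ?_⟩
  have := LinearMap.finrank_le_finrank_of_injective hψ
  rwa [Module.finrank_fintype_fun_eq_card, ← Nat.card_eq_fintype_card] at this

theorem abs_finrank {K L' V : Type*} [Field K] [Field L'] [AddCommGroup V] [Module K V]
    [Module L' V] (U : Submodule K V) (hfin : Module.Finite K U) {β : Type*} [Fintype β]
    (B : Module.Basis β L' V)
    (hind : ∀ (n : ℕ) (w : Fin n → U), LinearIndependent K w →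
      LinearIndependent L' (fun t => (w t : V))) :
    Module.finrank K U ≤ Fintype.card β := by
  let w := Module.finBasis K U
  have h1 := hind _ w w.linearIndependent
  have hfin : Module.Finite L' V := Module.Finite.of_basis B
  have h2 := h1.fintype_card_le_finrank
  rw [Module.finrank_eq_card_basis B] at h2
  simpa using h2

end Pool.Agent.KS6_77
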