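import Pool.Agent.KS6_77.Key2
import Pool.Agent.KS6_77.Abs
import Pool.Agent.KS6_77.TrBasis

/-!
# Independence of regular tensor differentials
-/

open scoped NNReal TensorProduct

set_option linter.unusedSectionVars false

namespace Pool.Agent.KS6_77

universe u v w

/-- A transcendence basis of the function field, with the basis of differentials. -/
lemma exists_basis {K M L ι : Type*} [Field K] [CharZero K] [Field M] [Algebra K M] [Field L]
    [Algebra K L] [Algebra L M] [IsScalarTower K L M] [Algebra.EssFiniteType K L]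
    (D : ι → Derivation K M M)
    (hs : ∀ (n : ℕ) (f : Fin n → L), AlgebraicIndependent K f →
      LinearIndependent M fun (k : Fin n) (i : ι) => D i (algebraMap L M (f k))) :
    ∃ (n : ℕ) (B : Module.Basis (Fin n) L Ω[L⁄K]), Algebra.trdeg K L = n ∧
      LinearIndependent M (fun (k : Fin n) (i : ι) => evOne L (D i) (B k)) := by
  obtain ⟨s, hs', -⟩ := exists_isTranscendenceBasis_and_isSeparable_of_perfectField K L
  let e : Fin s.card ≃ s := (Fintype.equivFinOfCardEq (by simp)).symm
  have hs2 : IsTranscendenceBasis K (fun k : Fin s.card => ((e k : s) : L)) :=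
    (isTranscendenceBasis_equiv e).mpr hs'
  obtain ⟨B, hB⟩ := exists_kaehler_basis hs2
  refine ⟨s.card, B, ?_, ?_⟩
  · have := hs'.cardinalMk_eq_trdeg
    rw [← this]
    simp
  · have := hs s.card _ hs2.1
    convert this using 3 with k i
    rw [hB, evOne_D]

lemma card_bound {ι : Type*} [Fintype ι] {v : Set ι} {m : ℕ} :
    Nat.card {I : Fin m → ι // I ∉ {I : Fin m → ι | ∃ j, I j ∈ v}} = Nat.card ↥vᶜ ^ m := by
  classical
  have : Nat.card (Fin m → ↥vᶜ) = Nat.card ↥vᶜ ^ m := by
    rw [Nat.card_fun, Nat.card_fin]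
  rw [← this]
  refine Nat.card_congr
    { toFun := fun I j => ⟨I.1 j, fun hj => I.2 ⟨j, hj⟩⟩
      invFun := fun f => ⟨fun j => (f j).1, fun ⟨j, hj⟩ => (f j).2 hj⟩
      left_inv := fun I => rfl
      right_inv := fun f => rfl }

variable {K : Type u} [NontriviallyNormedField K] [IsUltrametricDist K] [CompleteSpace K]
  [CharZero K] [IsAlgClosed K]
  {ι : Type v} [Fintype ι] {v : Set ι} {J : Type w} [Fintype J] {h : J → Lau K ι}
  {M : Type*} [Field M] [Algebra K M] [Algebra (Lau K ι) M] [IsScalarTower K (Lau K ι) M]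
  [IsFractionRing (Lau K ι) M]
  {L : Type*} [Field L] [Algebra K L] [Algebra L M] [IsScalarTower K L M]
  [Algebra.EssFiniteType K L]
  {L' : Type*} [Field L'] [Algebra K L'] [Algebra L L'] [IsScalarTower K L L']
  [FiniteDimensional L L'] {m : ℕ}

/-- Regular tensor differentials that are independent over `K` are independent over the function
field of the cover, and form a space of bounded dimension. -/
theorem main_theorem (hA : ∀ j, h j ∈ An K v) (D : ι → Derivation K M M)
    (hD : ∀ i (f : Lau K ι), D i (algebraMap (Lau K ι) M f) = algebraMap (Lau K ι) M (dLau v i f))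
    (hB : Big v h)
    (hn : ∀ i, h i ≠ 0 → ∀ x : L, IsIntegral (chart M L h i) x → x ∈ chart M L h i)
    (hs : ∀ (n : ℕ) (f : Fin n → L), AlgebraicIndependent K f →
      LinearIndependent M fun (k : Fin n) (i : ι) => D i (algebraMap L M (f k)))
    (U : Submodule K (L' ⊗[L] (⨂[L] _ : Fin m, Ω[L⁄K])))
    (hU : ∀ x ∈ U, ∀ i, h i ≠ 0 → Rep (chart M L h i) x) :
    (∀ {τ : Type*} (w : τ → U), LinearIndependent K w →
      LinearIndependent L' (fun t => (w t : L' ⊗[L] (⨂[L] _ : Fin m, Ω[L⁄K])))) ∧
    Module.Finite K U ∧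
    Module.finrank K U ≤ Nat.card ↥vᶜ ^ m ∧
    Module.finrank K U ≤ Cardinal.toNat (Algebra.trdeg K L) ^ m := by
  obtain ⟨n, B, hn', hB'⟩ := exists_basis (K := K) (M := M) (L := L) D hs
  have hinj : ∀ s : L' →ₐ[L] AlgebraicClosure M, ∀ x ∈ U, phi D m s x = 0 → x = 0 :=
    fun s x _ hx => evCover_injective D B hB' s x fun I => congrFun hx I
  have hprod : ∀ x ∈ U, ∀ l : (Fin m → ι) → K, ∃ y : K,
      ∏ s : L' →ₐ[L] AlgebraicClosure M, pair l (phi D m s x) =
        algebraMap K (AlgebraicClosure M) y :=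
    fun x hx l => (key D hA hD hB hn x (hU x hx) l).imp fun y hy => hy.1
  have hind : ∀ {τ : Type _} (w : τ → U), LinearIndependent K w →
      LinearIndependent L' (fun t => (w t : L' ⊗[L] (⨂[L] _ : Fin m, Ω[L⁄K]))) := by
    intro τ w hw
    have hne : Nonempty (L' →ₐ[L] AlgebraicClosure M) := ⟨IsAlgClosed.lift⟩
    exact abs_indep (S := L' →ₐ[L] AlgebraicClosure M)
      (fun s => (s : L' →+* AlgebraicClosure M)) (fun s => phi D m s)
      (fun s a x j => phi_smul D s a x j) U hinj hprod w hw
  have hdim := abs_dim (S := L' →ₐ[L] AlgebraicClosure M)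
    (fun s => phi D m s) U hinj hprod
    {I : Fin m → ι | ∃ j, I j ∈ v}
    (fun x hx l hl => by
      obtain ⟨y, hy, hy0⟩ := key (E := AlgebraicClosure M) D hA hD hB hn x (hU x hx) l
      rw [hy, hy0 fun I hI => hl I (fun ⟨j, hj⟩ => hI j hj), map_zero])
  rw [card_bound] at hdim
  refine ⟨hind, hdim.1, hdim.2, ?_⟩
  let Bt : Module.Basis (Fin m → Fin n) L (⨂[L] _ : Fin m, Ω[L⁄K]) :=
    Basis.piTensorProduct fun _ => B
  have h2 := abs_finrank U hdim.1 (Bt.baseChange L') (fun k w hw => by
    have hne : Nonempty (L' →ₐ[L] AlgebraicClosure M) := ⟨IsAlgClosed.lift⟩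
    exact abs_indep (S := L' →ₐ[L] AlgebraicClosure M)
      (fun s => (s : L' →+* AlgebraicClosure M)) (fun s => phi D m s)
      (fun s a x j => phi_smul D s a x j) U hinj hprod w hw)
  rw [hn', Cardinal.toNat_natCast]
  simpa using h2

end Pool.Agent.KS6_77
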