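import Pool.Agent.KS6_77.Gen
import Pool.Agent.KS6_77.Main

/-!
# Independence of regular tensor differentials along a map
-/

open scoped NNReal TensorProduct

set_option linter.unusedSectionVars false

namespace Pool.Agent.KS6_77

universe u v w

/-- A transcendence basis of the function field, with the basis of differentials. -/
lemma exists_pure_basis {K L : Type*} [Field K] [CharZero K] [Field L]
    [Algebra K L] [Algebra.EssFiniteType K L] :
    ∃ (n : ℕ) (B : Module.Basis (Fin n) L Ω[L⁄K]) (f : Fin n → L),
      ∀ k, B k = KaehlerDifferential.D K L (f k) := by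
  obtain ⟨s, hs', -⟩ := exists_isTranscendenceBasis_and_isSeparable_of_perfectField K L
  let e : Fin s.card ≃ s := (Fintype.equivFinOfCardEq (by simp)).symm
  have hs2 : IsTranscendenceBasis K (fun k : Fin s.card => ((e k : s) : L)) :=
    (isTranscendenceBasis_equiv e).mpr hs'
  obtain ⟨B, hB⟩ := exists_kaehler_basis hs2
  exact ⟨s.card, B, _, hB⟩

/-- Tensor differentials are sums of pure ones. -/
lemma exists_pure_sum {K L L' : Type*} [Field K] [CharZero K] [Field L]
    [Algebra K L] [Algebra.EssFiniteType K L] [Field L'] [Algebra L L'] {m : ℕ}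
    (x : L' ⊗[L] (⨂[L] _ : Fin m, Ω[L⁄K])) :
    ∃ (n : ℕ) (b : Fin n → L') (f : Fin n → Fin m → L), x = ∑ t, pureT K (b t) (f t) := by
  classical
  obtain ⟨n, B, f0, hBf⟩ := exists_pure_basis (K := K) (L := L)
  let Bt : Module.Basis (Fin m → Fin n) L (⨂[L] _ : Fin m, Ω[L⁄K]) :=
    Basis.piTensorProduct fun _ => B
  let BB := Bt.baseChange L'
  let e : Fin (Fintype.card (Fin m → Fin n)) ≃ (Fin m → Fin n) := (Fintype.equivFin _).symm
  refine ⟨Fintype.card (Fin m → Fin n), fun t => BB.repr x (e t), fun t j => f0 (e t j), ?_⟩
  have hxe : x = ∑ p, BB.repr x p ⊗ₜ[L] Bt p := by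
    conv_lhs => rw [← BB.sum_repr x]
    refine Finset.sum_congr rfl fun p _ => ?_
    rw [Module.Basis.baseChange_apply, TensorProduct.smul_tmul', smul_eq_mul, mul_one]
  conv_lhs => rw [hxe, ← e.sum_comp]
  refine Finset.sum_congr rfl fun t _ => ?_
  unfold pureT
  rw [Basis.piTensorProduct_apply]
  simp only [hBf]

variable {K : Type u} [NontriviallyNormedField K] [IsUltrametricDist K] [CompleteSpace K]
  [IsAlgClosed K]
  {ι : Type v} [Fintype ι] {v : Set ι} {J : Type w} [Fintype J] {h : J → Lau K ι}
  {M : Type*} [Field M] [Algebra K M] [Algebra (Lau K ι) M] [IsScalarTower K (Lau K ι) M]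
  [IsFractionRing (Lau K ι) M]
  {L : Type*} [Field L] [Algebra K L] [Algebra L M] [IsScalarTower K L M]
  {L' : Type*} [Field L'] [Algebra K L'] [Algebra L L'] [IsScalarTower K L L'] {m : ℕ}
  {E : Type*} [Field E] [Algebra M E] [Algebra K E] [IsScalarTower K M E]
  [Algebra L E] [IsScalarTower L M E]

/-- Regular tensor differentials which are independent over `K` along the map are independent
over the function field of the cover along the map, and their number is bounded. -/
theorem along (hA : ∀ j, h j ∈ An K v) (D : ι → Derivation K M M)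
    (hD : ∀ i (f : Lau K ι), D i (algebraMap (Lau K ι) M f) = algebraMap (Lau K ι) M (dLau v i f))
    (hB : BigInt v M h hA) (s : L' →ₐ[L] E) {n : ℕ}
    (w : Fin n → L' ⊗[L] (⨂[L] _ : Fin m, Ω[L⁄K]))
    (hw : ∀ t, ∀ i, h i ≠ 0 → Rep (chart M L h i) (w t))
    (hK : ∀ a : Fin n → K, phi D m s (∑ t, a t • w t) = 0 → a = 0) :
    (∀ a : Fin n → L', phi D m s (∑ t, a t • w t) = 0 → a = 0) ∧
      n ≤ Nat.card ↥vᶜ ^ m ∧
      n ≤ Module.finrank M (Submodule.span M {g : ι → M | ∃ x : L, g = fun k =>
        D k (algebraMap L M x)}) ^ m := by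
  classical
  choose y hy hy0 using fun t => fun I => value_gen (E := E) D hA hD hB (w t) (hw t) s I
  have hinjK : Function.Injective (algebraMap K E) := FaithfulSMul.algebraMap_injective K E
  have hyK : LinearIndependent K y := by
    rw [Fintype.linearIndependent_iff]
    intro a ha
    refine congrFun (hK a ?_)
    funext I
    rw [map_sum, Finset.sum_apply]
    have h1 := congrFun ha I
    rw [Finset.sum_apply] at h1
    have h2 : ∀ t, phi D m s (a t • w t) I = algebraMap K E ((a t • y t) I) := by
      intro t
      rw [map_smul, Pi.smul_apply, Pi.smul_apply, hy t I, smul_eq_mul, map_mul, Algebra.smul_def]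
    simp only [h2]
    rw [← map_sum, h1, Pi.zero_apply, map_zero]
    rfl
  refine ⟨fun a ha => ?_, ?_, ?_⟩
  · funext t
    have h3 := indep_of_ratio y hyK (fun t => s (a t)) (fun I => by
      have h4 := congrFun ha I
      rw [map_sum, Finset.sum_apply] at h4
      have h5 : ∀ t, phi D m s (a t • w t) I = s (a t) * algebraMap K E (y t I) := by
        intro t
        rw [phi_smul, hy t I]
      simp only [h5] at h4
      exact h4) t
    exact (map_eq_zero s).mp h3
  · let J' : Set (Fin m → ι) := {I | ∃ j, I j ∈ v}
    let ψ : (Fin n → K) →ₗ[K] ({I // I ∉ J'} → K) :=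
      (LinearMap.funLeft K K Subtype.val).comp (Fintype.linearCombination K y)
    have hψ : Function.Injective ψ := by
      rw [injective_iff_map_eq_zero]
      intro a ha
      rw [Fintype.linearIndependent_iff] at hyK
      refine funext fun t => hyK a (funext fun I => ?_) t
      by_cases hI : I ∈ J'
      · rw [Finset.sum_apply]
        refine Finset.sum_eq_zero fun t _ => ?_
        rw [Pi.smul_apply, hy0 t I hI, smul_zero]
      · exact congrFun ha ⟨I, hI⟩
    have h6 := LinearMap.finrank_le_finrank_of_injective hψ
    rw [Module.finrank_fintype_fun_eq_card, Module.finrank_fintype_fun_eq_card,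
      Fintype.card_fin, ← Nat.card_eq_fintype_card] at h6
    rw [← card_bound (m := m)]
    exact h6
  · -- the bound by the rank
    let W := Submodule.span M {g : ι → M | ∃ x : L, g = fun k => D k (algebraMap L M x)}
    let g := Module.finBasis M W
    let r := Module.finrank M W
    let G : (Fin m → Fin r) → (Fin m → ι) → E := fun A I =>
      algebraMap M E (∏ k, (g (A k) : ι → M) (I k))
    let V := Submodule.span E (Set.range G)
    have hpure : ∀ (b : L') (f : Fin m → L), phi D m s (pureT K b f) ∈ V := by
      intro b f
      have hg : ∀ k, ∃ c : Fin r → M, ∀ i, D i (algebraMap L M (f k)) =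
          ∑ a, c a * (g a : ι → M) i := by
        intro k
        have h7 : (fun i => D i (algebraMap L M (f k))) ∈ W :=
          Submodule.subset_span ⟨f k, rfl⟩
        refine ⟨fun a => g.repr ⟨_, h7⟩ a, fun i => ?_⟩
        have h8 := congrArg (fun z : W => (z : ι → M) i) (g.sum_repr ⟨_, h7⟩)
        simp only [Submodule.coe_sum, Finset.sum_apply, Submodule.coe_smul, Pi.smul_apply,
          smul_eq_mul] at h8
        exact h8.symm
      choose c hc using hg
      have h9 : phi D m s (pureT K b f) =
          ∑ A : Fin m → Fin r, (s b * algebraMap M E (∏ k, c k (A k))) • G A := by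
        funext I
        rw [phi_apply]
        unfold pureT
        rw [evCover_tmul, evForm_tprod, Finset.sum_apply]
        simp only [evOne_D, hc, Pi.smul_apply, smul_eq_mul, G]
        rw [Finset.prod_univ_sum, Fintype.piFinset_univ, map_sum, Finset.mul_sum]
        refine Finset.sum_congr rfl fun A _ => ?_
        rw [Finset.prod_mul_distrib, map_mul]
        ring
      rw [h9]
      exact Submodule.sum_mem _ fun A _ => V.smul_mem _ (Submodule.subset_span ⟨A, rfl⟩)
    obtain ⟨i₀, hi₀⟩ := hB.1
    have hyV : ∀ t, (fun I => algebraMap K E (y t I)) ∈ V := by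
      intro t
      obtain ⟨k, b, f, -, -, hx⟩ := hw t i₀ hi₀
      have h10 : (fun I => algebraMap K E (y t I)) = phi D m s (w t) := by
        funext I
        exact (hy t I).symm
      rw [h10, hx, map_sum]
      exact Submodule.sum_mem _ fun t _ => hpure _ _
    have hyE : LinearIndependent E (fun t => (⟨_, hyV t⟩ : V)) := by
      rw [Fintype.linearIndependent_iff]
      intro a ha t
      refine indep_of_ratio y hyK a (fun I => ?_) t
      have h11 := congrArg (fun z : V => (z : (Fin m → ι) → E) I) ha
      simpa [Submodule.coe_sum, Finset.sum_apply] using h11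
    have h12 := hyE.fintype_card_le_finrank
    rw [Fintype.card_fin] at h12
    refine h12.trans ?_
    refine (finrank_range_le_card (R := E) G).trans ?_
    rw [Fintype.card_fun, Fintype.card_fin, Fintype.card_fin]

end Pool.Agent.KS6_77
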