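import Pool.Agent.KS6_77.Gauss

/-!
# Analytic functions on products of copies of the additive and the multiplicative group
-/

open Filter Topology
open scoped NNReal

set_option linter.unusedSectionVars false

namespace Pool.Agent.KS6_77

universe u v

variable {K : Type u} [NontriviallyNormedField K] {ι : Type v} [Fintype ι]
variable [IsUltrametricDist K] [CompleteSpace K]

noncomputable instance : Nontrivial (Lau K ι) := ⟨⟨0, 1, fun h => by
  have := congrArg (fun f : Lau K ι => f.coeff 0) h
  simp [Lau.one_def, Lau.coeff_mono] at this⟩⟩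

instance : NoZeroDivisors (Lau K ι) where
  eq_zero_or_eq_zero_of_mul_eq_zero {f g} h := by
    have h1 := gauss_mul (1 : ι → ℝ≥0ˣ) f g
    rw [h, gauss_zero] at h1
    rcases mul_eq_zero.mp h1.symm with h2 | h2
    · exact Or.inl (gauss_eq_zero h2)
    · exact Or.inr (gauss_eq_zero h2)

instance : IsDomain (Lau K ι) := NoZeroDivisors.to_isDomain _

lemma gauss_one (r : ι → ℝ≥0ˣ) : gauss r (1 : Lau K ι) = 1 := by
  rw [Lau.one_def, gauss_mono, wt_zero]
  simp

/-- The Gauss norm as a valuation. -/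
noncomputable def gaussVal (K : Type u) [NontriviallyNormedField K] [IsUltrametricDist K]
    [CompleteSpace K] {ι : Type v} [Fintype ι] (r : ι → ℝ≥0ˣ) : Valuation (Lau K ι) ℝ≥0 where
  toFun := gauss r
  map_zero' := gauss_zero r
  map_one' := gauss_one r
  map_mul' := gauss_mul r
  map_add_le_max' := gauss_add r

@[simp] lemma gaussVal_apply (r : ι → ℝ≥0ˣ) (f : Lau K ι) : gaussVal K r f = gauss r f := rfl

lemma norm_int_le (n : ℤ) : ‖(n : K)‖ ≤ 1 := IsUltrametricDist.norm_intCast_le_one K n

/-- The invariant derivation `z i ∂ / ∂ z i`. -/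
noncomputable def theta (K : Type u) [NontriviallyNormedField K] [IsUltrametricDist K]
    [CompleteSpace K] {ι : Type v} [Fintype ι] (i : ι) : Derivation K (Lau K ι) (Lau K ι) :=
  Derivation.mk'
    { toFun := fun f => ⟨fun ν => (ν i : K) * f.coeff ν, fun R => by
        refine Summable.of_norm_bounded ((f.conv' R).norm) fun ν => ?_
        rw [norm_mul, norm_norm, norm_mul, norm_mul, norm_norm]
        gcongr
        calc ‖(ν i : K)‖ * ‖f.coeff ν‖ ≤ 1 * ‖f.coeff ν‖ := by
              gcongr; exact norm_int_le _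
          _ = _ := one_mul _⟩
      map_add' := fun f g => by
        ext ν
        change (ν i : K) * (f + g).coeff ν = (ν i : K) * f.coeff ν + (ν i : K) * g.coeff ν
        rw [Lau.coeff_add, mul_add]
      map_smul' := fun c f => by
        ext ν
        change (ν i : K) * (c • f).coeff ν = (c • (_ : Lau K ι)).coeff ν
        rw [Lau.coeff_smul, Lau.coeff_smul]
        change (ν i : K) * (c * f.coeff ν) = c * ((ν i : K) * f.coeff ν)
        ring }
    (fun f g => by
      ext ν
      change (ν i : K) * (f * g).coeff ν = (f * _ + g * _ : Lau K ι).coeff ν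
      rw [Lau.coeff_add, mul_comm g _]
      simp only [Lau.coeff_mul]
      change _ = ∑' μ, f.coeff μ * (((ν - μ) i : ℤ) * g.coeff (ν - μ) : K) +
        ∑' μ, ((μ i : ℤ) * f.coeff μ : K) * g.coeff (ν - μ)
      rw [← Summable.tsum_add, ← tsum_mul_left]
      · refine tsum_congr fun μ => ?_
        rw [Pi.sub_apply, Int.cast_sub]
        ring
      · have h := f.summable_mul g ν
        refine Summable.of_norm_bounded (f.conv'.norm.mul_right (∑' μ, ‖g.coeff μ‖)) fun μ => ?_
        rw [norm_mul, norm_mul]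
        gcongr
        calc ‖(((ν - μ) i : ℤ) : K)‖ * ‖g.coeff (ν - μ)‖ ≤ 1 * ‖g.coeff (ν - μ)‖ := by
              gcongr; exact norm_int_le _
          _ ≤ _ := by
              rw [one_mul]
              exact g.conv'.norm.le_tsum _ fun _ _ => norm_nonneg _
      · refine Summable.of_norm_bounded (f.conv'.norm.mul_right (∑' μ, ‖g.coeff μ‖)) fun μ => ?_
        rw [norm_mul, norm_mul]
        gcongr
        · calc ‖((μ i : ℤ) : K)‖ * ‖f.coeff μ‖ ≤ 1 * ‖f.coeff μ‖ := by
                gcongr; exact norm_int_le _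
            _ = _ := one_mul _
        · exact g.conv'.norm.le_tsum _ fun _ _ => norm_nonneg _)

lemma theta_coeff (i : ι) (f : Lau K ι) (ν : ι → ℤ) :
    (theta K i f).coeff ν = (ν i : K) * f.coeff ν := rfl

lemma gauss_theta (r : ι → ℝ≥0ˣ) (i : ι) (f : Lau K ι) : gauss r (theta K i f) ≤ gauss r f := by
  refine gauss_le fun ν => ?_
  refine le_trans ?_ (term_le_gauss r f ν)
  unfold term
  rw [theta_coeff, nnnorm_mul]
  gcongr
  calc ‖(ν i : K)‖₊ * ‖f.coeff ν‖₊ ≤ 1 * ‖f.coeff ν‖₊ := by
        gcongr; exact norm_int_le _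
    _ = _ := one_mul _

variable (K) in
/-- The analytic functions on the product, over `i : ι`, of the analytic spaces of the additive
group, for `i ∈ v`, and of the multiplicative group, for `i ∉ v`: the everywhere convergent Laurent
series in `z i`, in which only nonnegative powers of the `z i`, `i ∈ v`, occur. -/
noncomputable def An (v : Set ι) : Subalgebra K (Lau K ι) where
  carrier := {f | ∀ ν, (∃ i ∈ v, ν i < 0) → f.coeff ν = 0}
  mul_mem' := by
    rintro f g hf hg ν ⟨i, hi, hν⟩
    rw [Lau.coeff_mul]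
    refine (tsum_congr fun μ => ?_).trans tsum_zero
    by_cases hμ : μ i < 0
    · rw [hf μ ⟨i, hi, hμ⟩, zero_mul]
    · rw [hg (ν - μ) ⟨i, hi, by rw [Pi.sub_apply]; omega⟩, mul_zero]
  add_mem' := by
    rintro f g hf hg ν h
    rw [Lau.coeff_add, hf ν h, hg ν h, add_zero]
  algebraMap_mem' := by
    rintro c ν ⟨i, hi, hν⟩
    rw [Lau.algebraMap_eq, Lau.coeff_mono, if_neg]
    rintro rfl
    simp at hν

lemma mem_An {v : Set ι} {f : Lau K ι} :
    f ∈ An K v ↔ ∀ ν, (∃ i ∈ v, ν i < 0) → f.coeff ν = 0 := Iff.rfl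

open Classical in
/-- The invariant derivations of the additive and of the multiplicative groups: `∂ / ∂ z i` for
`i ∈ v` and `z i ∂ / ∂ z i` for `i ∉ v`. -/
noncomputable def dLau (v : Set ι) (i : ι) : Derivation K (Lau K ι) (Lau K ι) :=
  if i ∈ v then (Lau.mono (-Pi.single i 1) 1 : Lau K ι) • theta K i else theta K i

lemma dLau_mem {v : Set ι} {i : ι} (hi : i ∈ v) (f : Lau K ι) :
    dLau v i f = Lau.mono (-open Classical in Pi.single i 1) 1 * theta K i f := by
  unfold dLau
  rw [if_pos hi]
  rfl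

lemma dLau_not_mem {v : Set ι} {i : ι} (hi : i ∉ v) (f : Lau K ι) :
    dLau v i f = theta K i f := by
  unfold dLau
  rw [if_neg hi]

lemma dLau_An {v : Set ι} (i : ι) {f : Lau K ι} (hf : f ∈ An K v) : dLau v i f ∈ An K v := by
  classical
  intro ν ⟨j, hj, hν⟩
  by_cases hi : i ∈ v
  · rw [dLau_mem hi, Lau.mono_mul, one_mul, theta_coeff]
    by_cases h : ν i + 1 = 0
    · simp [h]
    · rw [hf, mul_zero]
      by_cases hij : j = i
      · subst hij
        exact ⟨j, hj, by simp; omega⟩
      · exact ⟨j, hj, by simp [Pi.single_eq_of_ne hij, hν]⟩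
  · rw [dLau_not_mem hi, theta_coeff, hf ν ⟨j, hj, hν⟩, mul_zero]

/-- The size of the derivation `dLau v i` at the polyradius `r`. -/
noncomputable def siz (v : Set ι) (r : ι → ℝ≥0ˣ) (i : ι) : ℝ≥0 :=
  open Classical in if i ∈ v then ((r i)⁻¹ : ℝ≥0ˣ) else 1

lemma gauss_dLau (v : Set ι) (r : ι → ℝ≥0ˣ) (i : ι) (f : Lau K ι) :
    gauss r (dLau v i f) ≤ siz v r i * gauss r f := by
  classical
  unfold siz
  split_ifs with hi
  · rw [dLau_mem hi, gauss_mul, gauss_mono]
    have : wt r (-Pi.single i 1) = (((r i)⁻¹ : ℝ≥0ˣ) : ℝ≥0) := by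
      unfold wt
      congr 1
      rw [Finset.prod_eq_single i]
      · simp
      · intro j _ hj
        simp [Pi.single_eq_of_ne hj]
      · simp
    rw [this]
    simp only [nnnorm_one, one_mul]
    gcongr
    exact gauss_theta r i f
  · rw [dLau_not_mem hi, one_mul]
    exact gauss_theta r i f

/-- **Liouville's theorem.** A bounded analytic function is constant. -/
lemma liouville {v : Set ι} {f : Lau K ι} (hf : f ∈ An K v) {C : ℝ≥0}
    (h : ∀ r : ι → ℝ≥0ˣ, (∀ i ∈ v, 1 ≤ (r i : ℝ≥0)) → gauss r f ≤ C) :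
    ∃ c : K, f = algebraMap K _ c := by
  classical
  refine ⟨f.coeff 0, Lau.ext fun ν => ?_⟩
  rw [Lau.algebraMap_eq, Lau.coeff_mono]
  split_ifs with hν
  · rw [hν]
  by_contra h0
  obtain ⟨i, hi⟩ : ∃ i, ν i ≠ 0 := by
    by_contra hall
    push Not at hall
    exact hν (funext hall)
  have hpos : 0 < ‖f.coeff ν‖₊ := pos_iff_ne_zero.mpr (by simpa using h0)
  -- the radius
  have key : ∀ t : ℝ≥0ˣ, 1 ≤ (t : ℝ≥0) → ‖f.coeff ν‖₊ * t ≤ C := by
    intro t ht
    let r : ι → ℝ≥0ˣ := fun j => if j = i then (if 0 < ν i then t else t⁻¹) else 1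
    have hr : ∀ j ∈ v, 1 ≤ (r j : ℝ≥0) := by
      intro j hj
      by_cases hji : j = i
      · subst hji
        have hp : 0 < ν j := by
          rcases lt_trichotomy (ν j) 0 with h1 | h1 | h1
          · exact absurd (hf ν ⟨j, hj, h1⟩) h0
          · exact absurd h1 hi
          · exact h1
        simpa [r, hp] using ht
      · simp [r, hji]
    have h1 := (term_le_gauss r f ν).trans (h r hr)
    refine le_trans ?_ h1
    unfold term
    gcongr
    have hw : wt r ν = (t : ℝ≥0) ^ (ν i).natAbs := by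
      unfold wt
      rw [Units.coe_prod, Finset.prod_eq_single i]
      · by_cases hp : 0 < ν i
        · simp only [r, if_true, hp]
          conv_lhs => rw [← Int.natAbs_of_nonneg hp.le]
          rw [zpow_natCast, Units.val_pow_eq_pow_val]
        · simp only [r, if_true, hp, if_false]
          have h2 : ν i = -((ν i).natAbs : ℤ) := by omega
          conv_lhs => rw [h2]
          rw [zpow_neg, zpow_natCast, inv_pow, inv_inv, Units.val_pow_eq_pow_val]
      · intro j _ hj
        simp [r, hj]
      · simp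
    rw [hw]
    exact le_self_pow₀ ht (by omega)
  -- contradiction
  have hc : (0 : ℝ≥0) < max 1 (C / ‖f.coeff ν‖₊ + 1) := lt_max_of_lt_left one_pos
  have := key (Units.mk0 _ hc.ne') (by simp)
  rw [Units.val_mk0] at this
  have h3 : ‖f.coeff ν‖₊ * (C / ‖f.coeff ν‖₊ + 1) ≤ C :=
    le_trans (by gcongr; exact le_max_right _ _) this
  rw [mul_add, mul_div_cancel₀ _ hpos.ne', mul_one] at h3
  exact absurd h3 (not_le.mpr (lt_add_of_pos_right _ hpos))

lemma gauss_algebraMap (r : ι → ℝ≥0ˣ) (c : K) :
    gauss r (algebraMap K (Lau K ι) c) = ‖c‖₊ := by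
  rw [Lau.algebraMap_eq, gauss_mono, wt_zero, mul_one]

end Pool.Agent.KS6_77
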