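import Pool.Agent.KS6_77.Key2

/-!
# The values of regular tensor differentials are constant
-/

open scoped NNReal TensorProduct

set_option linter.unusedSectionVars false

namespace Pool.Agent.KS6_77

universe u v w

variable {K : Type u} [NontriviallyNormedField K] [IsUltrametricDist K] [CompleteSpace K]
  [CharZero K]
  {ι : Type v} [Fintype ι] {v : Set ι} {J : Type w} {h : J → Lau K ι}
  {M : Type*} [Field M] [Algebra K M] [Algebra (Lau K ι) M] [IsScalarTower K (Lau K ι) M]
  [IsFractionRing (Lau K ι) M]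
  {L : Type*} [Field L] [Algebra K L] [Algebra L M] [IsScalarTower K L M]
  {L' : Type*} [Field L'] [Algebra K L'] [Algebra L L'] [IsScalarTower K L L']
  [FiniteDimensional L L'] {m : ℕ}
  (D : ι → Derivation K M M)
  {E : Type*} [Field E] [Algebra M E] [Algebra K E] [IsScalarTower K M E]
  [Algebra L E] [IsScalarTower L M E] [IsAlgClosed E]

/-- The polynomial with the given values as roots. -/
noncomputable def rootPoly {S : Type*} [Fintype S] (a : S → E) : Polynomial E :=
  ∏ s, (Polynomial.X - Polynomial.C (a s))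

lemma rootPoly_eval {S : Type*} [Fintype S] (a : S → E) (x : E) :
    (rootPoly a).eval x = ∏ s, (x - a s) := by
  simp [rootPoly, Polynomial.eval_prod]

theorem key_coeff (hA : ∀ j, h j ∈ An K v)
    (hD : ∀ i (f : Lau K ι), D i (algebraMap (Lau K ι) M f) = algebraMap (Lau K ι) M (dLau v i f))
    (i : J) (hi : h i ≠ 0)
    (hn : ∀ x : L, IsIntegral (chart M L h i) x → x ∈ chart M L h i)
    (x : L' ⊗[L] (⨂[L] _ : Fin m, Ω[L⁄K])) (hx : Rep (chart M L h i) x) (l : (Fin m → ι) → K)
    (k₀ : ℕ) :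
    ∃ p ∈ polar v M ⟨h i, hA i⟩, ∃ C : ℝ≥0,
      algebraMap M E p = (rootPoly fun s : L' →ₐ[L] E => pair l (phi D m s x)).coeff k₀ ∧
      ∀ r : ι → ℝ≥0ˣ, (∀ j, gauss r (h j) ≤ gauss r (h i)) →
        ∀ σ : ℝ≥0, (∀ I, l I ≠ 0 → ∏ j, siz v r (I j) ≤ σ) →
        merVal K M r p ≤ C * σ ^ (Fintype.card (L' →ₐ[L] E) - k₀) := by
  classical
  obtain ⟨n, b, f, hb, hf, hxe⟩ := hx
  have : Infinite K := inferInstance
  have : CharZero L := charZero_of_injective_algebraMap (FaithfulSMul.algebraMap_injective K L)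
  have : IsScalarTower K L E := IsScalarTower.of_algebraMap_eq fun c => by
    rw [IsScalarTower.algebraMap_apply K M E, IsScalarTower.algebraMap_apply K L M,
      ← IsScalarTower.algebraMap_apply L M E]
  let b' : Option (Fin n) → L' := fun o => o.elim 1 b
  obtain ⟨F, c, hc, hF, hQ⟩ := norm_form (E := E) (chart M L h i) hn b' (by
    rintro (_ | t)
    · exact isIntegral_one
    · exact hb t)
  let Δ : Fin n → M := fun t => delta D l (f t)
  choose B hB using fun t => delta_bdd D hD i (f t) (hf t) l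
  choose C hC using fun k : (Option (Fin n) →₀ ℕ) => chart_bdd i (c k) (hc k)
  have h1 : ∀ s : L' →ₐ[L] E, pair l (phi D m s x) =
      ∑ t, s (b t) * algebraMap M E (Δ t) := by
    intro s
    have h2 : phi D m s x = ∑ t, phi D m s (pureT K (b t) (f t)) := by
      rw [hxe, map_sum]
    have h3 : pair l (phi D m s x) = ∑ t, pair l (phi D m s (pureT K (b t) (f t))) := by
      rw [h2]
      unfold pair
      simp only [Finset.sum_apply, Finset.mul_sum]
      rw [Finset.sum_comm]
    rw [h3]
    exact Finset.sum_congr rfl fun t _ => pair_phi_pure D s l (b t) _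
  let Fk := F.filter fun k => k none = k₀
  let term : (Option (Fin n) →₀ ℕ) → M := fun k =>
    algebraMap L M (c k) * ∏ t, (-Δ t) ^ k (some t)
  have hPQ : (rootPoly fun s : L' →ₐ[L] E => pair l (phi D m s x)) =
      ∑ k ∈ F, Polynomial.C (algebraMap M E (term k)) * Polynomial.X ^ (k none) := by
    refine Polynomial.funext fun z => ?_
    rw [rootPoly_eval, Polynomial.eval_finsetSum]
    have h4 := hQ (fun o => o.elim z fun t => algebraMap M E (-Δ t))
    simp only [Fintype.sum_option, Fintype.prod_option, b', Option.elim_none, Option.elim_some,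
      map_one, one_mul] at h4
    calc ∏ s : L' →ₐ[L] E, (z - pair l (phi D m s x))
        = ∏ s : L' →ₐ[L] E, (z + ∑ t, s (b t) * algebraMap M E (-Δ t)) := by
          refine Finset.prod_congr rfl fun s _ => ?_
          rw [h1 s, sub_eq_add_neg, ← Finset.sum_neg_distrib]
          congr 1
          exact Finset.sum_congr rfl fun t _ => by rw [map_neg, mul_neg]
      _ = _ := h4
      _ = _ := by
          refine Finset.sum_congr rfl fun k _ => ?_
          rw [Polynomial.eval_mul, Polynomial.eval_C, Polynomial.eval_pow, Polynomial.eval_X]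
          simp only [term]
          rw [map_mul, map_prod, ← IsScalarTower.algebraMap_apply]
          simp only [map_pow]
          ring
  refine ⟨∑ k ∈ Fk, term k, ?_, ∑ k ∈ Fk, C k * ∏ t, B t ^ k (some t), ?_, ?_⟩
  · refine sum_mem fun k _ => mul_mem (chart_polar hA i hi _ (hc k)) (prod_mem fun t _ =>
      pow_mem (neg_mem ?_) _)
    exact delta_polar D hA hD i hi (f t) (hf t) l
  · rw [hPQ, Polynomial.finsetSum_coeff, map_sum]
    simp only [Polynomial.coeff_C_mul, Polynomial.coeff_X_pow]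
    rw [Finset.sum_filter]
    refine Finset.sum_congr rfl fun k _ => ?_
    by_cases hk : k none = k₀
    · simp [hk]
    · simp [hk, Ne.symm hk]
  · intro r hr σ hσ
    refine Valuation.map_sum_le _ fun k hk => ?_
    have hkF : k ∈ F := (Finset.mem_filter.mp hk).1
    have hk0 : k none = k₀ := (Finset.mem_filter.mp hk).2
    simp only [term]
    rw [map_mul, map_prod]
    have h2 : ∏ t, merVal K M r ((-Δ t) ^ k (some t)) ≤ ∏ t, (B t * σ) ^ k (some t) := by
      refine Finset.prod_le_prod' fun t _ => ?_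
      rw [map_pow, Valuation.map_neg]
      exact pow_le_pow_left' (hB t r hr σ hσ) _
    have h3 : ∏ t, (B t * σ) ^ k (some t) = (∏ t, B t ^ k (some t)) *
        σ ^ (Fintype.card (L' →ₐ[L] E) - k₀) := by
      have h5 : Fintype.card (L' →ₐ[L] E) - k₀ = ∑ t, k (some t) := by
        rw [← hF k hkF, Finsupp.degree_eq_sum, Fintype.sum_option, hk0, Nat.add_sub_cancel_left]
      rw [h5, ← Finset.prod_pow_eq_pow_sum, ← Finset.prod_mul_distrib]
      exact Finset.prod_congr rfl fun t _ => mul_pow _ _ _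
    rw [h3] at h2
    calc merVal K M r (algebraMap L M (c k)) * ∏ t, merVal K M r ((-Δ t) ^ k (some t))
        ≤ C k * ((∏ t, B t ^ k (some t)) * σ ^ (Fintype.card (L' →ₐ[L] E) - k₀)) :=
          mul_le_mul' (hC k r hr) h2
      _ = (C k * ∏ t, B t ^ k (some t)) * σ ^ (Fintype.card (L' →ₐ[L] E) - k₀) := by ring
      _ ≤ _ := by
        gcongr
        exact Finset.single_le_sum (f := fun k => C k * ∏ t, B t ^ k (some t))
          (fun _ _ => by positivity) hk

/-- The coefficients of the polynomial are constant. -/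
theorem coeff_const [Fintype J] (hA : ∀ j, h j ∈ An K v)
    (hD : ∀ i (f : Lau K ι), D i (algebraMap (Lau K ι) M f) = algebraMap (Lau K ι) M (dLau v i f))
    (hB : Big v h)
    (hn : ∀ i, h i ≠ 0 → ∀ x : L, IsIntegral (chart M L h i) x → x ∈ chart M L h i)
    (x : L' ⊗[L] (⨂[L] _ : Fin m, Ω[L⁄K])) (hx : ∀ i, h i ≠ 0 → Rep (chart M L h i) x)
    (l : (Fin m → ι) → K) (k₀ : ℕ) :
    ∃ y : K, (rootPoly fun s : L' →ₐ[L] E => pair l (phi D m s x)).coeff k₀ =
        algebraMap K E y ∧
      ((∀ I, (∀ j, I j ∉ v) → l I = 0) → k₀ < Fintype.card (L' →ₐ[L] E) → y = 0) := by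
  classical
  obtain ⟨i₀, hi₀⟩ := hB.exists_ne
  choose! p hp C hpE hC using fun (i : J) (hi : h i ≠ 0) =>
    key_coeff (E := E) D hA hD i hi (hn i hi) x (hx i hi) l k₀
  have hpp : ∀ i, h i ≠ 0 → p i = p i₀ := by
    intro i hi
    apply FaithfulSMul.algebraMap_injective M E
    rw [hpE i hi, hpE i₀ hi₀]
  obtain ⟨g, hg⟩ := big_mem hA hB (p i₀) (fun i hi => by rw [← hpp i hi]; exact hp i hi)
  have hbd : ∀ r : ι → ℝ≥0ˣ, ∀ σ : ℝ≥0, (∀ I, l I ≠ 0 → ∏ j, siz v r (I j) ≤ σ) →
      gauss r (g : Lau K ι) ≤ (∑ i, C i) * σ ^ (Fintype.card (L' →ₐ[L] E) - k₀) := by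
    intro r σ hσ
    obtain ⟨i, hi, hmax⟩ := exists_max hB r
    have := hC i hi r hmax σ hσ
    rw [hpp i hi, hg, merVal_toM] at this
    refine this.trans ?_
    gcongr
    exact Finset.single_le_sum (f := C) (fun _ _ => by positivity) (Finset.mem_univ i)
  obtain ⟨y, hy⟩ := liouville g.2 (C := ∑ i, C i) (fun r hr => by
    have := hbd r 1 (fun I _ => Finset.prod_le_one' fun j _ => siz_le_one r hr _)
    simpa using this)
  have hgy : (g : Lau K ι) = algebraMap K (Lau K ι) y := hy
  refine ⟨y, ?_, fun hl hk₀ => ?_⟩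
  · rw [← hpE i₀ hi₀, hg, hgy, ← IsScalarTower.algebraMap_apply K (Lau K ι) M,
      ← IsScalarTower.algebraMap_apply K M E]
  · have hcard : 0 < Fintype.card (L' →ₐ[L] E) - k₀ := Nat.sub_pos_of_lt hk₀
    by_contra hy0
    have hpos : 0 < ‖y‖₊ := by simpa using hy0
    have key : ∀ ρ : ℝ≥0ˣ, 1 ≤ (ρ : ℝ≥0) → ‖y‖₊ ≤ (∑ i, C i) * (ρ : ℝ≥0)⁻¹ := by
      intro ρ hρ
      let r : ι → ℝ≥0ˣ := fun i => if i ∈ v then ρ else 1
      have hsz : ∀ i, siz v r i ≤ 1 := siz_le_one r (fun i hi => by simp [r, hi, hρ])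
      have h1 := hbd r (ρ : ℝ≥0)⁻¹ (fun I hI => by
        have h2 : ∃ j, I j ∈ v := by
          by_contra hcon
          push Not at hcon
          exact hI (hl I hcon)
        obtain ⟨j, hj⟩ := h2
        rw [← Finset.mul_prod_erase _ _ (Finset.mem_univ j)]
        have h3 : siz v r (I j) = (ρ : ℝ≥0)⁻¹ := by
          simp [siz, r, hj]
        rw [h3]
        calc (ρ : ℝ≥0)⁻¹ * ∏ k ∈ Finset.univ.erase j, siz v r (I k)
            ≤ (ρ : ℝ≥0)⁻¹ * 1 := by
              gcongr
              exact Finset.prod_le_one' fun k _ => hsz _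
          _ = _ := mul_one _)
      rw [hgy] at h1
      have h4 : gauss r (algebraMap K (Lau K ι) y) = ‖y‖₊ := gauss_algebraMap r y
      rw [h4] at h1
      refine h1.trans ?_
      gcongr
      have h5 : (ρ : ℝ≥0)⁻¹ ≤ 1 := inv_le_one_of_one_le₀ hρ
      exact pow_le_of_le_one (by positivity) h5 hcard.ne'
    obtain ⟨ρ, hρ1, hρ2⟩ : ∃ ρ : ℝ≥0, 1 ≤ ρ ∧ (∑ i, C i) / ‖y‖₊ < ρ :=
      ⟨max 1 ((∑ i, C i) / ‖y‖₊ + 1), le_max_left _ _,
        lt_of_lt_of_le (lt_add_one _) (le_max_right _ _)⟩
    have hρ0 : ρ ≠ 0 := (lt_of_lt_of_le one_pos hρ1).ne'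
    have h6 := key (Units.mk0 ρ hρ0) hρ1
    rw [Units.val_mk0, ← div_eq_mul_inv, le_div_iff₀ (lt_of_lt_of_le one_pos hρ1)] at h6
    rw [div_lt_iff₀ hpos, mul_comm] at hρ2
    exact absurd h6 (not_le.mpr hρ2)

/-- The values of regular tensor differentials with coefficients in a cover, along any embedding
of the cover, are constant, and zero in the directions of the additive factors. -/
theorem value_const [Fintype J] [IsAlgClosed K] (hA : ∀ j, h j ∈ An K v)
    (hD : ∀ i (f : Lau K ι), D i (algebraMap (Lau K ι) M f) = algebraMap (Lau K ι) M (dLau v i f))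
    (hB : Big v h)
    (hn : ∀ i, h i ≠ 0 → ∀ x : L, IsIntegral (chart M L h i) x → x ∈ chart M L h i)
    (x : L' ⊗[L] (⨂[L] _ : Fin m, Ω[L⁄K])) (hx : ∀ i, h i ≠ 0 → Rep (chart M L h i) x)
    (s : L' →ₐ[L] E) (I : Fin m → ι) :
    ∃ y : K, phi D m s x I = algebraMap K E y ∧ ((∃ j, I j ∈ v) → y = 0) := by
  classical
  let l : (Fin m → ι) → K := Pi.single I 1
  have hl : ∀ s : L' →ₐ[L] E, pair l (phi D m s x) = phi D m s x I := by
    intro s
    unfold pair
    rw [Finset.sum_eq_single I]
    · simp [l]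
    · intro b _ hb
      simp [l, Pi.single_eq_of_ne hb]
    · simp
  have hco := fun k => coeff_const (E := E) D hA hD hB hn x hx l k
  choose y hy hy0 using hco
  let P : Polynomial E := rootPoly fun s : L' →ₐ[L] E => pair l (phi D m s x)
  have hPm : P.Monic := Polynomial.monic_prod_of_monic _ _ fun s _ => Polynomial.monic_X_sub_C _
  have hPdeg : P.natDegree = Fintype.card (L' →ₐ[L] E) := by
    have : P.natDegree = ∑ s : L' →ₐ[L] E, 1 := by
      refine (Polynomial.natDegree_prod_of_monic _ _ fun s _ =>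
        Polynomial.monic_X_sub_C _).trans ?_
      exact Finset.sum_congr rfl fun s _ => Polynomial.natDegree_X_sub_C _
    simpa using this
  have hroot : P.eval (phi D m s x I) = 0 := by
    rw [rootPoly_eval]
    refine Finset.prod_eq_zero (Finset.mem_univ s) ?_
    rw [hl, sub_self]
  -- the polynomial over `K`
  let Q : Polynomial K := ∑ k ∈ Finset.range (P.natDegree + 1), Polynomial.monomial k (y k)
  have hQ : Q.map (algebraMap K E) = P := by
    simp only [Q, Polynomial.map_sum, Polynomial.map_monomial]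
    conv_rhs => rw [P.as_sum_range' (P.natDegree + 1) (Nat.lt_succ_self _)]
    exact Finset.sum_congr rfl fun k _ => by rw [← hy k]
  have hQ0 : Q ≠ 0 := by
    rintro h0
    rw [h0, Polynomial.map_zero] at hQ
    exact hPm.ne_zero hQ.symm
  have hsplit := IsAlgClosed.splits Q
  have hz : ∃ c : K, phi D m s x I = algebraMap K E c := by
    have hint : IsAlgebraic K (phi D m s x I) := ⟨Q, hQ0, by
      rw [Polynomial.aeval_def, ← Polynomial.eval_map, hQ]
      exact hroot⟩
    have h1 : Algebra.IsAlgebraic K (IntermediateField.adjoin K {phi D m s x I}) :=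
      IntermediateField.isAlgebraic_adjoin_simple hint.isIntegral
    have h2 := IntermediateField.eq_bot_of_isAlgClosed_of_isAlgebraic
      (IntermediateField.adjoin K {phi D m s x I})
    have h3 : phi D m s x I ∈ IntermediateField.adjoin K {phi D m s x I} :=
      IntermediateField.subset_adjoin K _ (Set.mem_singleton _)
    rw [h2, IntermediateField.mem_bot] at h3
    obtain ⟨c, hc⟩ := h3
    exact ⟨c, hc.symm⟩
  obtain ⟨c, hc⟩ := hz
  refine ⟨c, hc, fun hI => ?_⟩
  have hz0 : ∀ k < Fintype.card (L' →ₐ[L] E), y k = 0 := fun k hk => hy0 k (fun I' hI' => by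
    obtain ⟨j, hj⟩ := hI
    have : I' ≠ I := by
      rintro rfl
      exact hI' j hj
    simp [l, Pi.single_eq_of_ne this]) hk
  have hPX : P = Polynomial.X ^ Fintype.card (L' →ₐ[L] E) := by
    refine Polynomial.ext fun k => ?_
    rw [Polynomial.coeff_X_pow]
    rcases lt_trichotomy k (Fintype.card (L' →ₐ[L] E)) with hk | hk | hk
    · rw [if_neg hk.ne]
      change (rootPoly fun s : L' →ₐ[L] E => pair l (phi D m s x)).coeff k = 0
      rw [hy k, hz0 k hk, map_zero]
    · rw [if_pos hk, hk, ← hPdeg]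
      exact hPm.coeff_natDegree
    · rw [if_neg hk.ne']
      exact Polynomial.coeff_eq_zero_of_natDegree_lt (by rw [hPdeg]; exact hk)
  have h7 : (algebraMap K E c) ^ Fintype.card (L' →ₐ[L] E) = 0 := by
    rw [← hc, ← hroot, hPX, Polynomial.eval_pow, Polynomial.eval_X]
  have hcpos : 0 < Fintype.card (L' →ₐ[L] E) := by
    rw [Fintype.card_pos_iff]
    exact ⟨s⟩
  have h8 : algebraMap K E c = 0 := (pow_eq_zero_iff hcpos.ne').mp h7
  exact (map_eq_zero _).mp h8

end Pool.Agent.KS6_77
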