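import Pool.Agent.KS6_77.Lau

/-!
# Gauss norms of everywhere convergent Laurent series
-/

open Filter Topology
open scoped NNReal

set_option linter.unusedSectionVars false

namespace Pool.Agent.KS6_77

universe u v

variable {K : Type u} [NontriviallyNormedField K] {ι : Type v} [Fintype ι]

/-- The value `r ^ ν` of the monomial `z ^ ν` at the polyradius `r`. -/
noncomputable def wt (r : ι → ℝ≥0ˣ) (ν : ι → ℤ) : ℝ≥0 := ((∏ i, r i ^ ν i : ℝ≥0ˣ) : ℝ≥0)

lemma wt_zero (r : ι → ℝ≥0ˣ) : wt r 0 = 1 := by simp [wt]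

lemma wt_add (r : ι → ℝ≥0ˣ) (μ ν : ι → ℤ) : wt r (μ + ν) = wt r μ * wt r ν := by
  unfold wt
  rw [← Units.val_mul, ← Finset.prod_mul_distrib]
  simp [zpow_add]

lemma wt_pos (r : ι → ℝ≥0ˣ) (ν : ι → ℤ) : 0 < wt r ν := (Units.ne_zero _).bot_lt

lemma wt_ne (r : ι → ℝ≥0ˣ) (ν : ι → ℤ) : wt r ν ≠ 0 := (wt_pos r ν).ne'

lemma unit_zpow_le (x : ℝ≥0ˣ) (n : ℤ) :
    ((x ^ n : ℝ≥0ˣ) : ℝ≥0) ≤ (max 1 (max (x : ℝ≥0) ((x⁻¹ : ℝ≥0ˣ) : ℝ≥0))) ^ n.natAbs := by
  have h1 : (x : ℝ≥0) ≤ max 1 (max (x : ℝ≥0) ((x⁻¹ : ℝ≥0ˣ) : ℝ≥0)) :=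
    (le_max_left _ _).trans (le_max_right _ _)
  have h2 : ((x⁻¹ : ℝ≥0ˣ) : ℝ≥0) ≤ max 1 (max (x : ℝ≥0) ((x⁻¹ : ℝ≥0ˣ) : ℝ≥0)) :=
    (le_max_right _ _).trans (le_max_right _ _)
  rcases Int.natAbs_eq n with h | h
  · conv_lhs => rw [h]
    rw [zpow_natCast, Units.val_pow_eq_pow_val]
    gcongr
  · conv_lhs => rw [h]
    rw [zpow_neg, zpow_natCast, ← inv_pow, Units.val_pow_eq_pow_val]
    gcongr

lemma wt_le (r : ι → ℝ≥0ˣ) : ∃ R : ℝ≥0, 1 ≤ R ∧ ∀ ν, wt r ν ≤ R ^ len ν := by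
  classical
  let g : ι → ℝ≥0 := fun i => max 1 (max (r i : ℝ≥0) (((r i)⁻¹ : ℝ≥0ˣ) : ℝ≥0))
  have hg : ∀ i, 1 ≤ g i := fun i => le_max_left _ _
  refine ⟨∏ i, g i, Finset.one_le_prod' fun i _ => hg i, fun ν => ?_⟩
  unfold wt len
  rw [Units.coe_prod, ← Finset.prod_pow_eq_pow_sum]
  refine Finset.prod_le_prod' fun i _ => ?_
  refine (unit_zpow_le _ _).trans ?_
  change g i ^ _ ≤ _
  gcongr
  exact Finset.single_le_prod' (f := g) (fun j _ => hg j) (Finset.mem_univ i)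

/-- The value of a term of a Laurent series at the polyradius `r`. -/
noncomputable def term (r : ι → ℝ≥0ˣ) (f : Lau K ι) (ν : ι → ℤ) : ℝ≥0 :=
  ‖f.coeff ν‖₊ * wt r ν

lemma summable_term (r : ι → ℝ≥0ˣ) (f : Lau K ι) : Summable fun ν => term r f ν := by
  obtain ⟨R, hR, h⟩ := wt_le r
  have h1 : Summable fun ν => ‖f.coeff ν‖₊ * R ^ len ν := by
    have h0 := f.conv' (R : ℝ)
    have h2 : (fun ν => ‖f.coeff ν‖ * (R : ℝ) ^ len ν) =
        fun ν => ((‖f.coeff ν‖₊ * R ^ len ν : ℝ≥0) : ℝ) := by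
      funext ν
      push_cast
      rfl
    rw [h2] at h0
    exact NNReal.summable_coe.mp h0
  exact NNReal.summable_of_le (fun ν => by unfold term; gcongr; exact h ν) h1

lemma term_bdd (r : ι → ℝ≥0ˣ) (f : Lau K ι) : BddAbove (Set.range (term r f)) := by
  refine ⟨∑' ν, term r f ν, ?_⟩
  rintro _ ⟨ν, rfl⟩
  exact (summable_term r f).le_tsum ν fun _ _ => zero_le

lemma finite_term (r : ι → ℝ≥0ˣ) (f : Lau K ι) {ε : ℝ≥0} (hε : 0 < ε) :
    {ν | ε ≤ term r f ν}.Finite := by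
  have h := NNReal.tendsto_cofinite_zero_of_summable (summable_term r f)
  have h2 : ∀ᶠ ν in cofinite, term r f ν < ε := h.eventually_lt_const hε
  rw [eventually_cofinite] at h2
  simpa using h2

/-- The Gauss norm. -/
noncomputable def gauss (r : ι → ℝ≥0ˣ) (f : Lau K ι) : ℝ≥0 := ⨆ ν, term r f ν

lemma term_le_gauss (r : ι → ℝ≥0ˣ) (f : Lau K ι) (ν : ι → ℤ) : term r f ν ≤ gauss r f :=
  le_ciSup (term_bdd r f) ν

lemma gauss_le {r : ι → ℝ≥0ˣ} {f : Lau K ι} {C : ℝ≥0} (h : ∀ ν, term r f ν ≤ C) :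
    gauss r f ≤ C := ciSup_le h

lemma term_eq_zero {r : ι → ℝ≥0ˣ} {f : Lau K ι} {ν : ι → ℤ} : term r f ν = 0 ↔ f.coeff ν = 0 := by
  simp [term, wt_ne]

lemma exists_gauss_eq (r : ι → ℝ≥0ˣ) (f : Lau K ι) : ∃ ν, gauss r f = term r f ν := by
  by_cases hf : ∀ ν, term r f ν = 0
  · exact ⟨0, le_antisymm (gauss_le fun ν => by rw [hf ν]; exact zero_le) (term_le_gauss r f 0)⟩
  · push Not at hf
    obtain ⟨ν₀, h0⟩ := hf
    have hfin := finite_term r f (pos_iff_ne_zero.mpr h0)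
    have hne : hfin.toFinset.Nonempty := ⟨ν₀, by simp⟩
    obtain ⟨ν, hν, hmax⟩ := Finset.exists_max_image hfin.toFinset (term r f) hne
    refine ⟨ν, le_antisymm (gauss_le fun μ => ?_) (term_le_gauss r f ν)⟩
    by_cases hμ : term r f ν₀ ≤ term r f μ
    · exact hmax μ (by simpa using hμ)
    · have : term r f ν₀ ≤ term r f ν := by simpa using hν
      exact (not_le.mp hμ).le.trans this

lemma gauss_zero (r : ι → ℝ≥0ˣ) : gauss r (0 : Lau K ι) = 0 :=
  le_antisymm (gauss_le fun ν => by simp [term]) zero_le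

lemma gauss_eq_zero {r : ι → ℝ≥0ˣ} {f : Lau K ι} (h : gauss r f = 0) : f = 0 := by
  ext ν
  have := term_le_gauss r f ν
  rw [h] at this
  simpa using term_eq_zero.mp (le_antisymm this zero_le)

lemma gauss_mono (r : ι → ℝ≥0ˣ) (ν : ι → ℤ) (c : K) :
    gauss r (Lau.mono ν c : Lau K ι) = ‖c‖₊ * wt r ν := by
  refine le_antisymm (gauss_le fun μ => ?_) ?_
  · unfold term
    rw [Lau.coeff_mono]
    split_ifs with h
    · rw [h]
    · simp
  · have := term_le_gauss r (Lau.mono ν c : Lau K ι) ν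
    unfold term at this
    rwa [Lau.coeff_mono, if_pos rfl] at this

variable [IsUltrametricDist K]

lemma gauss_add (r : ι → ℝ≥0ˣ) (f g : Lau K ι) : gauss r (f + g) ≤ max (gauss r f) (gauss r g) := by
  refine gauss_le fun ν => ?_
  unfold term
  rw [Lau.coeff_add]
  have h : ‖f.coeff ν + g.coeff ν‖₊ ≤ max ‖f.coeff ν‖₊ ‖g.coeff ν‖₊ :=
    IsUltrametricDist.nnnorm_add_le_max _ _
  calc ‖f.coeff ν + g.coeff ν‖₊ * wt r ν ≤ max ‖f.coeff ν‖₊ ‖g.coeff ν‖₊ * wt r ν := by gcongr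
    _ = max (term r f ν) (term r g ν) := by
      unfold term
      rw [max_mul_of_nonneg _ _ zero_le]
    _ ≤ _ := max_le_max (term_le_gauss r f ν) (term_le_gauss r g ν)

variable [CompleteSpace K]

lemma term_mul_le (r : ι → ℝ≥0ˣ) (f g : Lau K ι) (μ ν : ι → ℤ) :
    ‖f.coeff μ * g.coeff (ν - μ)‖₊ * wt r ν = term r f μ * term r g (ν - μ) := by
  unfold term
  have : wt r ν = wt r μ * wt r (ν - μ) := by rw [← wt_add]; simp
  rw [nnnorm_mul, this]
  ring

lemma gauss_mul_le (r : ι → ℝ≥0ˣ) (f g : Lau K ι) : gauss r (f * g) ≤ gauss r f * gauss r g := by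
  refine gauss_le fun ν => ?_
  unfold term
  rw [Lau.coeff_mul]
  rw [← le_div_iff₀ (wt_pos r ν)]
  refine IsUltrametricDist.nnnorm_tsum_le_of_forall_le fun μ => ?_
  rw [le_div_iff₀ (wt_pos r ν), term_mul_le]
  gcongr
  · exact term_le_gauss _ _ _
  · exact term_le_gauss _ _ _

/-- A tsum with one dominating term. -/
lemma nnnorm_tsum_eq {α : Type*} {f : α → K} (hf : Summable f) (a : α)
    (hfin : ∀ ε : ℝ≥0, 0 < ε → {x | ε ≤ ‖f x‖₊}.Finite) (h : ∀ x, x ≠ a → ‖f x‖₊ < ‖f a‖₊) :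
    ‖∑' x, f x‖₊ = ‖f a‖₊ := by
  classical
  by_cases ha : ‖f a‖₊ = 0
  · have hall : ∀ x, x = a := fun x => by
      by_contra hx
      have := h x hx
      rw [ha] at this
      exact absurd this (not_lt.mpr zero_le)
    rw [tsum_eq_single a fun x hx => absurd (hall x) hx]
  · have hpos : 0 < ‖f a‖₊ := pos_iff_ne_zero.mpr ha
    -- a uniform bound for the other terms
    obtain ⟨δ, hδ, hδ'⟩ : ∃ δ, δ < ‖f a‖₊ ∧ ∀ x, x ≠ a → ‖f x‖₊ ≤ δ := by
      have hF := hfin (‖f a‖₊ / 2) (half_pos hpos)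
      let s := (hF.toFinset.erase a)
      refine ⟨max (‖f a‖₊ / 2) (s.sup fun x => ‖f x‖₊), max_lt (NNReal.half_lt_self ha) ?_, ?_⟩
      · rw [Finset.sup_lt_iff hpos]
        intro x hx
        exact h x (Finset.ne_of_mem_erase hx)
      · intro x hx
        by_cases hx2 : ‖f a‖₊ / 2 ≤ ‖f x‖₊
        · refine le_max_of_le_right ?_
          exact Finset.le_sup (f := fun x => ‖f x‖₊) (Finset.mem_erase.mpr ⟨hx, by simpa using hx2⟩)
        · exact le_max_of_le_left (not_le.mp hx2).le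
    have hsum := hf.tsum_eq_add_tsum_ite a
    have hrest : ‖∑' x, ite (x = a) 0 (f x)‖₊ ≤ δ := by
      refine IsUltrametricDist.nnnorm_tsum_le_of_forall_le fun x => ?_
      split_ifs with hx
      · simp
      · exact hδ' x hx
    rw [hsum]
    have hlt : ‖∑' x, ite (x = a) 0 (f x)‖₊ < ‖f a‖₊ := lt_of_le_of_lt hrest hδ
    rw [IsUltrametricDist.nnnorm_add_eq_max_of_nnnorm_ne_nnnorm hlt.ne']
    exact max_eq_left hlt.le

lemma gauss_mul (r : ι → ℝ≥0ˣ) (f g : Lau K ι) : gauss r (f * g) = gauss r f * gauss r g := by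
  classical
  refine le_antisymm (gauss_mul_le r f g) ?_
  by_cases hf : gauss r f = 0
  · simp [hf]
  by_cases hg : gauss r g = 0
  · simp [hg]
  -- the maximal terms
  let A := (finite_term r f (pos_iff_ne_zero.mpr hf)).toFinset
  let B := (finite_term r g (pos_iff_ne_zero.mpr hg)).toFinset
  have hA : A.Nonempty := by
    obtain ⟨ν, hν⟩ := exists_gauss_eq r f
    exact ⟨ν, by simp [A, hν]⟩
  have hB : B.Nonempty := by
    obtain ⟨ν, hν⟩ := exists_gauss_eq r g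
    exact ⟨ν, by simp [B, hν]⟩
  obtain ⟨μ, hμ, κ, hκ, huniq⟩ := UniqueSums.uniqueAdd_of_nonempty hA hB
  have hμ' : gauss r f = term r f μ :=
    le_antisymm (by simpa [A] using hμ) (term_le_gauss r f μ)
  have hκ' : gauss r g = term r g κ :=
    le_antisymm (by simpa [B] using hκ) (term_le_gauss r g κ)
  refine le_trans ?_ (term_le_gauss r (f * g) (μ + κ))
  unfold term
  rw [Lau.coeff_mul]
  have hw := wt_pos r (μ + κ)
  rw [nnnorm_tsum_eq (Lau.summable_mul f g _) μ]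
  · rw [term_mul_le, hμ', hκ']
    simp [term]
  · intro ε hε
    have h1 : {x | ε ≤ ‖f.coeff x * g.coeff (μ + κ - x)‖₊} ⊆
        {x | ε * wt r (μ + κ) / gauss r g ≤ term r f x} := by
      intro x hx
      simp only [Set.mem_ofPred_eq] at hx ⊢
      rw [div_le_iff₀ (pos_iff_ne_zero.mpr hg)]
      calc ε * wt r (μ + κ) ≤ ‖f.coeff x * g.coeff (μ + κ - x)‖₊ * wt r (μ + κ) := by gcongr
        _ = term r f x * term r g (μ + κ - x) := term_mul_le _ _ _ _ _
        _ ≤ _ := by gcongr; exact term_le_gauss _ _ _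
    refine (finite_term r f ?_).subset h1
    have : 0 < gauss r g := pos_iff_ne_zero.mpr hg
    positivity
  · intro x hx
    rw [← mul_lt_mul_iff_left₀ hw, term_mul_le, term_mul_le]
    have hk : μ + κ - μ = κ := by simp
    rw [hk, ← hμ', ← hκ']
    by_cases hxA : x ∈ A
    · by_cases hxB : μ + κ - x ∈ B
      · have := huniq hxA hxB (by simp)
        exact absurd this.1 hx
      · have h2 : term r g (μ + κ - x) < gauss r g := by
          simpa [B] using hxB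
        calc term r f x * term r g (μ + κ - x) ≤ gauss r f * term r g (μ + κ - x) := by
              gcongr; exact term_le_gauss r f x
          _ < gauss r f * gauss r g := by
              gcongr
    · have h2 : term r f x < gauss r f := by simpa [A] using hxA
      calc term r f x * term r g (μ + κ - x) ≤ term r f x * gauss r g := by
            gcongr; exact term_le_gauss r g _
        _ < gauss r f * gauss r g := by
            gcongr

end Pool.Agent.KS6_77
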