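import Pool.Agent.KS6_77.Reg

/-!
# Products over all embeddings of the values of regular tensor differentials
-/

open scoped NNReal TensorProduct

set_option linter.unusedSectionVars false

namespace Pool.Agent.KS6_77

universe u v w

section rep

variable {K : Type*} [Field K] {L : Type*} [Field L] [Algebra K L]
  {L' : Type*} [Field L'] [Algebra K L'] [Algebra L L'] [IsScalarTower K L L'] {m : ℕ}

/-- The rational tensor differential `b ⊗ df 1 ⊗ ... ⊗ df m`. -/
noncomputable def pureT (K : Type*) [Field K] {L : Type*} [Field L] [Algebra K L]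
    {L' : Type*} [Field L'] [Algebra L L'] {m : ℕ} (b : L') (f : Fin m → L) :
    L' ⊗[L] (⨂[L] _ : Fin m, Ω[L⁄K]) :=
  b ⊗ₜ[L] PiTensorProduct.tprod L fun j => KaehlerDifferential.D K L (f j)

lemma smul_pureT (c b : L') (f : Fin m → L) : c • pureT K b f = pureT K (c * b) f := rfl

lemma smulK_pureT (c : K) (b : L') (f : Fin m → L) :
    c • pureT K b f = pureT K (algebraMap K L' c * b) f := by
  rw [← smul_pureT]
  exact (algebraMap_smul L' c (pureT K b f)).symm

/-- A tensor differential is regular on a chart with coordinate ring `A`. -/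
def Rep (A : Subalgebra K L) (x : L' ⊗[L] (⨂[L] _ : Fin m, Ω[L⁄K])) : Prop :=
  ∃ (n : ℕ) (b : Fin n → L') (f : Fin n → Fin m → L),
    (∀ t, IsIntegral A (b t)) ∧ (∀ t j, f t j ∈ A) ∧ x = ∑ t, pureT K (b t) (f t)

lemma rep_of_span (A : Subalgebra K L) (x : L' ⊗[L] (⨂[L] _ : Fin m, Ω[L⁄K]))
    (h1 : x ∈ Submodule.span K {x : L' ⊗[L] (⨂[L] _ : Fin m, Ω[L⁄K]) |
      ∃ (b : L') (f : Fin m → L), IsIntegral A b ∧ (∀ j, f j ∈ A) ∧ x = pureT K b f}) :
    Rep A x := by
  refine Submodule.span_induction (p := fun x _ => Rep A x) ?_ ?_ ?_ ?_ h1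
  · rintro _ ⟨b, f, hb, hf, rfl⟩
    exact ⟨1, fun _ => b, fun _ => f, fun _ => hb, fun _ => hf, by simp⟩
  · exact ⟨0, Fin.elim0, Fin.elim0, fun t => t.elim0, fun t => t.elim0, by simp⟩
  · rintro x y _ _ ⟨n, b, f, hb, hf, rfl⟩ ⟨n', b', f', hb', hf', rfl⟩
    refine ⟨n + n', Fin.append b b', Fin.append f f', fun t => ?_, fun t => ?_, ?_⟩
    · refine Fin.addCases (fun t => ?_) (fun t => ?_) t
      · simpa using hb t
      · simpa using hb' t
    · refine Fin.addCases (fun t => ?_) (fun t => ?_) t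
      · simpa using hf t
      · simpa using hf' t
    · rw [Fin.sum_univ_add]
      simp
  · rintro c x _ ⟨n, b, f, hb, hf, rfl⟩
    refine ⟨n, fun t => algebraMap K L' c * b t, f, fun t => ?_, hf, ?_⟩
    · have h2 : algebraMap K L' c = algebraMap A L' (algebraMap K A c) := by
        rw [IsScalarTower.algebraMap_apply K L L']
        rfl
      rw [h2]
      exact isIntegral_algebraMap.mul (hb t)
    · rw [Finset.smul_sum]
      exact Finset.sum_congr rfl fun t _ => smulK_pureT c _ _

end rep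

variable {K : Type u} [NontriviallyNormedField K] [IsUltrametricDist K] [CompleteSpace K]
  {ι : Type v} [Fintype ι] {v : Set ι} {J : Type w}
  {M : Type*} [Field M] [Algebra K M] [Algebra (Lau K ι) M] [IsScalarTower K (Lau K ι) M]
  [IsFractionRing (Lau K ι) M]
  {L : Type*} [Field L] [Algebra K L] [Algebra L M] [IsScalarTower K L M]
  {L' : Type*} [Field L'] [Algebra K L'] [Algebra L L'] [IsScalarTower K L L'] {m : ℕ}
  (D : ι → Derivation K M M)

lemma siz_prod_le
    (hD : ∀ i (f : Lau K ι), D i (algebraMap (Lau K ι) M f) = algebraMap (Lau K ι) M (dLau v i f))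
    (r : ι → ℝ≥0ˣ) (x : Fin m → M) (C : Fin m → ℝ≥0)
    (hC : ∀ j, merVal K M r (x j) ≤ C j) (I : Fin m → ι) :
    merVal K M r (∏ j, D (I j) (x j)) ≤ (∏ j, siz v r (I j)) * ∏ j, C j := by
  rw [map_prod, ← Finset.prod_mul_distrib]
  refine Finset.prod_le_prod' fun j _ => ?_
  exact (merVal_der r (I j) (D (I j)) (hD (I j)) _).trans (mul_le_mul' le_rfl (hC j))

/-- The value of a linear form on the evaluation of a pure tensor of differentials. -/
noncomputable def delta (l : (Fin m → ι) → K) (f : Fin m → L) : M :=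
  ∑ I : Fin m → ι, algebraMap K M (l I) * ∏ j, D (I j) (algebraMap L M (f j))

variable {h : J → Lau K ι}

lemma delta_bdd
    (hD : ∀ i (f : Lau K ι), D i (algebraMap (Lau K ι) M f) = algebraMap (Lau K ι) M (dLau v i f))
    (i : J) (f : Fin m → L) (hf : ∀ j, f j ∈ chart M L h i) (l : (Fin m → ι) → K) :
    ∃ C : ℝ≥0, ∀ r : ι → ℝ≥0ˣ, (∀ j, gauss r (h j) ≤ gauss r (h i)) →
      ∀ σ : ℝ≥0, (∀ I, l I ≠ 0 → ∏ j, siz v r (I j) ≤ σ) →
      merVal K M r (delta D l f) ≤ C * σ := by
  choose C hC using fun j => chart_bdd i (f j) (hf j)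
  obtain ⟨B, hB⟩ : ∃ B : ℝ≥0, ∀ I, ‖l I‖₊ ≤ B := ⟨∑ I, ‖l I‖₊, fun I =>
    Finset.single_le_sum (f := fun I => ‖l I‖₊) (fun _ _ => by positivity) (Finset.mem_univ I)⟩
  refine ⟨B * ∏ j, C j, fun r hr σ hσ => ?_⟩
  unfold delta
  refine Valuation.map_sum_le _ fun I _ => ?_
  by_cases hI : l I = 0
  · rw [hI, map_zero, zero_mul, map_zero]
    positivity
  rw [map_mul, merVal_const]
  calc ‖l I‖₊ * merVal K M r (∏ j, D (I j) (algebraMap L M (f j)))
      ≤ B * ((∏ j, siz v r (I j)) * ∏ j, C j) :=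
        mul_le_mul' (hB I) (siz_prod_le D hD r _ C (fun j => hC j r hr) I)
    _ ≤ B * (σ * ∏ j, C j) := by
        gcongr
        exact hσ I hI
    _ = _ := by ring

lemma delta_polar (hA : ∀ j, h j ∈ An K v)
    (hD : ∀ i (f : Lau K ι), D i (algebraMap (Lau K ι) M f) = algebraMap (Lau K ι) M (dLau v i f))
    (i : J) (hi : h i ≠ 0) (f : Fin m → L) (hf : ∀ j, f j ∈ chart M L h i)
    (l : (Fin m → ι) → K) : delta D l f ∈ polar v M ⟨h i, hA i⟩ := by
  refine sum_mem fun I _ => mul_mem (Subalgebra.algebraMap_mem _ _) (prod_mem fun j _ => ?_)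
  exact polar_der _ _ _ (hD _) (chart_polar hA i hi _ (hf j))

variable {E : Type*} [Field E] [Algebra M E] [Algebra K E] [IsScalarTower K M E]
  [Algebra L E] [IsScalarTower L M E]

/-- The evaluation of tensor differentials at all sequences of invariant derivations. -/
noncomputable def phi (m : ℕ) (s : L' →ₐ[L] E) :
    (L' ⊗[L] (⨂[L] _ : Fin m, Ω[L⁄K])) →ₗ[K] ((Fin m → ι) → E) where
  toFun x I := evCover L s (fun j => D (I j)) x
  map_add' x y := by
    funext I
    exact map_add _ _ _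
  map_smul' c x := by
    funext I
    have : IsScalarTower K L E := IsScalarTower.of_algebraMap_eq fun c => by
      rw [IsScalarTower.algebraMap_apply K M E, IsScalarTower.algebraMap_apply K L M,
        ← IsScalarTower.algebraMap_apply L M E]
    rw [RingHom.id_apply, Pi.smul_apply, Algebra.smul_def, ← algebraMap_smul L' c x,
      evCover_smul, IsScalarTower.algebraMap_apply K L L', AlgHom.commutes,
      ← IsScalarTower.algebraMap_apply K L E]

lemma phi_apply (s : L' →ₐ[L] E) (x : L' ⊗[L] (⨂[L] _ : Fin m, Ω[L⁄K])) (I : Fin m → ι) :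
    phi D m s x I = evCover L s (fun j => D (I j)) x := rfl

lemma phi_smul (s : L' →ₐ[L] E) (a : L') (x : L' ⊗[L] (⨂[L] _ : Fin m, Ω[L⁄K]))
    (I : Fin m → ι) : phi D m s (a • x) I = s a * phi D m s x I := evCover_smul _ _ _ _ _

lemma pair_phi_pure (s : L' →ₐ[L] E) (l : (Fin m → ι) → K) (b : L') (f : Fin m → L) :
    pair l (phi D m s (pureT K b f)) = s b * algebraMap M E (delta D l f) := by
  unfold pair delta pureT
  rw [map_sum, Finset.mul_sum]
  refine Finset.sum_congr rfl fun I _ => ?_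
  rw [phi_apply, evCover_tmul, evForm_tprod, map_mul, ← IsScalarTower.algebraMap_apply,
    mul_left_comm]
  simp only [evOne_D]

end Pool.Agent.KS6_77
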