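import Pool.Agent.KS6_77.Jet
import Pool.Agent.KS6_77.Key

/-!
# The values of regular tensor differentials are constant: general form
-/

open scoped NNReal TensorProduct

set_option linter.unusedSectionVars false

namespace Pool.Agent.KS6_77

universe u v w

/-- Sums of products of integral elements with elements of an ideal are integral over the
ideal. -/
lemma exists_poly_ideal {A E : Type*} [CommRing A] [Field E] [Algebra A E] (I : Ideal A)
    {n : ℕ} (b : Fin n → E) (hb : ∀ t, IsIntegral A (b t)) (d : Fin n → A) (hd : ∀ t, d t ∈ I) :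
    ∃ p : Polynomial A, p.Monic ∧
      Polynomial.eval₂ (algebraMap A E) (∑ t, b t * algebraMap A E (d t)) p = 0 ∧
      ∀ k < p.natDegree, p.coeff k ∈ I := by
  classical
  let B : Subalgebra A E := Algebra.adjoin A (Set.range b)
  have hfg : B.toSubmodule.FG := fg_adjoin_of_finite (Set.finite_range b) (by
    rintro _ ⟨t, rfl⟩
    exact hb t)
  have hfin : Module.Finite A B := Module.Finite.iff_fg.mpr hfg
  have hbB : ∀ t, b t ∈ B := fun t => Algebra.subset_adjoin ⟨t, rfl⟩
  let z : B := ∑ t, (⟨b t, hbB t⟩ : B) * algebraMap A B (d t)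
  have hz : (z : E) = ∑ t, b t * algebraMap A E (d t) := by
    simp only [z]
    push_cast
    rfl
  obtain ⟨p, hp, -, hpc, hpz⟩ :=
    LinearMap.exists_monic_and_natDegree_eq_and_coeff_mem_pow_and_aeval_eq_zero A
      (LinearMap.mulLeft A z : Module.End A B) I (by
        rintro _ ⟨c, rfl⟩
        rw [LinearMap.mulLeft_apply]
        simp only [z, Finset.sum_mul]
        refine Submodule.sum_mem _ fun t _ => ?_
        have h1 : (⟨b t, hbB t⟩ : B) * algebraMap A B (d t) * c = d t • ((⟨b t, hbB t⟩ : B) * c) := by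
          rw [Algebra.smul_def]
          ring
        rw [h1]
        exact Submodule.smul_mem_smul (hd t) trivial)
  refine ⟨p, hp, ?_, fun k hk => ?_⟩
  · have h2 : Polynomial.aeval z p = 0 := by
      have h3 := LinearMap.congr_fun hpz (1 : B)
      have h4 : Polynomial.aeval (LinearMap.mulLeft A z : Module.End A B) p =
          LinearMap.mulLeft A (Polynomial.aeval z p) := by
        have : (LinearMap.mulLeft A z : Module.End A B) = Algebra.lmul A B z := rfl
        rw [this, Polynomial.aeval_algHom_apply]
        rfl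
      rw [h4, LinearMap.mulLeft_apply, mul_one] at h3
      exact h3
    rw [← hz]
    have h5 := congrArg (algebraMap B E) h2
    rw [map_zero, Polynomial.aeval_def, Polynomial.hom_eval₂] at h5
    exact h5
  · have := hpc k
    exact Ideal.pow_le_self (Nat.sub_pos_of_lt hk).ne' this

variable {K : Type u} [NontriviallyNormedField K] [IsUltrametricDist K] [CompleteSpace K]
  {ι : Type v} [Fintype ι] {v : Set ι} {J : Type w} {h : J → Lau K ι}
  {M : Type*} [Field M] [Algebra K M] [Algebra (Lau K ι) M] [IsScalarTower K (Lau K ι) M]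
  [IsFractionRing (Lau K ι) M]
  {L : Type*} [Field L] [Algebra K L] [Algebra L M] [IsScalarTower K L M]
  {L' : Type*} [Field L'] [Algebra K L'] [Algebra L L'] [IsScalarTower K L L'] {m : ℕ}
  (D : ι → Derivation K M M)
  {E : Type*} [Field E] [Algebra M E] [Algebra K E] [IsScalarTower K M E]
  [Algebra L E] [IsScalarTower L M E]

lemma chart_bdRing (hA : ∀ j, h j ∈ An K v) (i : J) (hi : h i ≠ 0) (x : L)
    (hx : x ∈ chart M L h i) : algebraMap L M x ∈ bdRing v M h hA i := by
  obtain ⟨C, hC⟩ := chart_bdd i x hx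
  exact ⟨chart_polar hA i hi x hx, C, fun r hr => hC r hr.2⟩

/-- The values of regular tensor differentials with coefficients in a cover, along any embedding
of the cover, are constant, and zero in the directions of the additive factors. -/
theorem value_gen [Fintype J] [IsAlgClosed K] (hA : ∀ j, h j ∈ An K v)
    (hD : ∀ i (f : Lau K ι), D i (algebraMap (Lau K ι) M f) = algebraMap (Lau K ι) M (dLau v i f))
    (hB : BigInt v M h hA)
    (x : L' ⊗[L] (⨂[L] _ : Fin m, Ω[L⁄K])) (hx : ∀ i, h i ≠ 0 → Rep (chart M L h i) x)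
    (s : L' →ₐ[L] E) (I : Fin m → ι) :
    ∃ y : K, phi D m s x I = algebraMap K E y ∧ ((∃ j, I j ∈ v) → y = 0) := by
  classical
  have key : ∀ i, h i ≠ 0 → ∃ (n : ℕ) (b : Fin n → E) (d : Fin n → bdRing v M h hA i),
      (∀ t, IsIntegral (bdRing v M h hA i) (b t)) ∧
      ((∃ j, I j ∈ v) → ∀ t, d t ∈ decIdeal v M h hA i) ∧
      phi D m s x I = ∑ t, b t * algebraMap (bdRing v M h hA i) E (d t) := by
    intro i hi
    obtain ⟨n, b, f, hb, hf, hxe⟩ := hx i hi
    have hmem : ∀ t j, D (I j) (algebraMap L M (f t j)) ∈ bdRing v M h hA i := fun t j =>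
      bdRing_der hA i (I j) (D (I j)) (hD (I j)) (chart_bdRing hA i hi _ (hf t j))
    refine ⟨n, fun t => s (b t), fun t => ∏ j, ⟨D (I j) (algebraMap L M (f t j)), hmem t j⟩,
      fun t => ?_, ?_, ?_⟩
    · obtain ⟨p, hp, hpb⟩ := hb t
      let φ : chart M L h i →+* bdRing v M h hA i :=
        { toFun := fun y => ⟨algebraMap L M y.1, chart_bdRing hA i hi _ y.2⟩
          map_one' := Subtype.ext (map_one _)
          map_mul' := fun _ _ => Subtype.ext (map_mul _ _ _)
          map_zero' := Subtype.ext (map_zero _)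
          map_add' := fun _ _ => Subtype.ext (map_add _ _ _) }
      refine ⟨p.map φ, hp.map _, ?_⟩
      rw [Polynomial.eval₂_map]
      have h1 := congrArg s hpb
      have h2 : s (Polynomial.eval₂ (algebraMap (chart M L h i) L') (b t) p) =
          Polynomial.eval₂ ((s : L' →+* E).comp (algebraMap (chart M L h i) L')) (s (b t)) p :=
        Polynomial.hom_eval₂ _ _ (s : L' →+* E) _
      rw [h2, map_zero] at h1
      have h3 : (s : L' →+* E).comp (algebraMap (chart M L h i) L') =
          (algebraMap (bdRing v M h hA i) E).comp φ := by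
        ext y
        have h4 : s (algebraMap L L' y.1) = algebraMap L E y.1 := s.commutes _
        change s (algebraMap L L' y.1) = algebraMap M E (algebraMap L M y.1)
        rw [h4, ← IsScalarTower.algebraMap_apply]
      rw [← h3]
      exact h1
    · rintro ⟨j, hj⟩ t
      beta_reduce
      rw [← Finset.mul_prod_erase _ _ (Finset.mem_univ j)]
      refine Ideal.mul_mem_right _ _ ?_
      exact dec_der hA i (I j) hj (D (I j)) (hD (I j)) (chart_bdRing hA i hi _ (hf t j)) _ rfl
    · rw [hxe, phi_apply, map_sum]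
      refine Finset.sum_congr rfl fun t _ => ?_
      unfold pureT
      rw [evCover_tmul, evForm_tprod]
      congr 1
      simp only [evOne_D]
      rw [map_prod, map_prod]
      rfl
  obtain ⟨c, hc⟩ := bd_const hA hB (phi D m s x I) (fun i hi => by
    obtain ⟨n, b, d, hb, -, hz⟩ := key i hi
    rw [hz]
    exact IsIntegral.sum _ fun t _ => (hb t).mul isIntegral_algebraMap)
  refine ⟨c, hc, fun hI => ?_⟩
  refine dec_zero hA hB c fun i hi => ?_
  obtain ⟨n, b, d, hb, hd, hz⟩ := key i hi
  obtain ⟨p, hp, hpz, hpc⟩ := exists_poly_ideal (decIdeal v M h hA i) b hb d (hd hI)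
  refine ⟨p, hp, ?_, hpc⟩
  rw [← hz, hc] at hpz
  apply (algebraMap M E).injective
  rw [Polynomial.hom_eval₂, map_zero, ← hpz, IsScalarTower.algebraMap_apply K M E]
  rfl

end Pool.Agent.KS6_77
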