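import Pool.Agent.KS6_77.Reg

/-!
# Bounded meromorphic functions and functions integral over them
-/

open scoped NNReal TensorProduct

set_option linter.unusedSectionVars false

namespace Pool.Agent.KS6_77

universe u v w x

section integral

/-- The coefficients of the minimal polynomial of an element that is integral over a subring. -/
lemma coeff_isIntegral {K M E : Type*} [Field K] [Field M] [Algebra K M] [Field E]
    [Algebra M E] (A : Subalgebra K M) (z : E) (hz : IsIntegral A z) (k : ℕ) :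
    IsIntegral A ((minpoly M z).coeff k) := by
  classical
  let F := AlgebraicClosure E
  obtain ⟨p, hp, hpz⟩ := hz
  have hpz' : Polynomial.aeval z (p.map (algebraMap A M)) = 0 := by
    rw [Polynomial.aeval_map_algebraMap]
    exact hpz
  have hdvd := minpoly.dvd M z hpz'
  let B : Subalgebra A F := integralClosure A F
  have hsp : ((minpoly M z).map (algebraMap M F)).Splits := IsAlgClosed.splits _
  have hroot : ∀ a ∈ ((minpoly M z).map (algebraMap M F)).roots, a ∈ B := by
    intro a ha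
    rw [Polynomial.mem_roots'] at ha
    refine ⟨p, hp, ?_⟩
    obtain ⟨q, hq⟩ := hdvd
    have h1 : (p.map (algebraMap A M)).map (algebraMap M F) =
        (minpoly M z).map (algebraMap M F) * q.map (algebraMap M F) := by
      rw [hq, Polynomial.map_mul]
    have h2 : ((p.map (algebraMap A M)).map (algebraMap M F)).eval a = 0 := by
      rw [h1, Polynomial.eval_mul, ha.2, zero_mul]
    rw [Polynomial.map_map] at h2
    rw [← Polynomial.eval_map]
    exact h2
  have hmon : (minpoly M z).Monic := minpoly.monic (by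
    refine ⟨p.map (algebraMap A M), hp.map _, ?_⟩
    exact hpz')
  have hprod := hsp.eq_prod_roots_of_monic (hmon.map (algebraMap M F))
  have hlift : (minpoly M z).map (algebraMap M F) ∈ Polynomial.lifts (algebraMap B F) := by
    rw [hprod]
    refine Submonoid.multiset_prod_mem (Polynomial.lifts (algebraMap B F)).toSubmonoid _ ?_
    intro f hf
    rw [Multiset.mem_map] at hf
    obtain ⟨a, ha, rfl⟩ := hf
    change Polynomial.X - Polynomial.C a ∈ Polynomial.lifts (algebraMap B F)
    rw [Polynomial.mem_lifts]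
    refine ⟨Polynomial.X - Polynomial.C ⟨a, hroot a ha⟩, ?_⟩
    rw [Polynomial.map_sub, Polynomial.map_X, Polynomial.map_C]
    rfl
  rw [Polynomial.lifts_iff_coeff_lifts] at hlift
  obtain ⟨b, hb⟩ := hlift k
  have h3 : IsIntegral A (algebraMap M F ((minpoly M z).coeff k)) := by
    rw [← Polynomial.coeff_map, ← hb]
    exact b.2
  exact (isIntegral_algHom_iff (IsScalarTower.toAlgHom A M F)
    (algebraMap M F).injective).mp h3

/-- Bounds for roots of monic polynomials. -/
lemma val_root_le {M : Type*} [Field M] (w : Valuation M ℝ≥0) (p : Polynomial M) (hp : p.Monic)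
    {x : M} (hx : p.eval x = 0) {C : ℝ≥0} (hC : ∀ t < p.natDegree, w (p.coeff t) ≤ C) :
    w x ≤ max 1 C := by
  by_contra hcon
  push Not at hcon
  have h1 : 1 < w x := lt_of_le_of_lt (le_max_left _ _) hcon
  have h2 : C < w x := lt_of_le_of_lt (le_max_right _ _) hcon
  have h3 : x ^ p.natDegree = -∑ t ∈ Finset.range p.natDegree, p.coeff t * x ^ t := by
    rw [Polynomial.eval_eq_sum_range, Finset.sum_range_succ, hp.coeff_natDegree, one_mul] at hx
    exact eq_neg_of_add_eq_zero_right hx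
  have hn : p.natDegree ≠ 0 := by
    intro h0
    rw [h0, pow_zero, Finset.range_zero, Finset.sum_empty, neg_zero] at h3
    exact one_ne_zero h3
  have h4 : w (x ^ p.natDegree) < w x ^ p.natDegree := by
    conv_lhs => rw [h3, Valuation.map_neg]
    refine Valuation.map_sum_lt _ (pow_ne_zero _ (lt_trans zero_lt_one h1).ne') fun t ht => ?_
    rw [Finset.mem_range] at ht
    rw [map_mul, map_pow]
    calc w (p.coeff t) * w x ^ t ≤ C * w x ^ t := by
          gcongr
          exact hC t ht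
      _ < w x * w x ^ t := by
          refine mul_lt_mul_of_pos_right h2 (pow_pos (lt_trans zero_lt_one h1) _)
      _ = w x ^ (t + 1) := by ring
      _ ≤ w x ^ p.natDegree := pow_le_pow_right₀ h1.le ht
  rw [map_pow] at h4
  exact lt_irrefl _ h4

end integral

variable {K : Type u} [NontriviallyNormedField K] [IsUltrametricDist K] [CompleteSpace K]
  {ι : Type v} [Fintype ι] {v : Set ι} {J : Type w} {h : J → Lau K ι}
  {M : Type*} [Field M] [Algebra K M] [Algebra (Lau K ι) M] [IsScalarTower K (Lau K ι) M]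
  [IsFractionRing (Lau K ι) M]

/-- The radii for which the coordinate `i` is the largest one. -/
def Region (v : Set ι) (h : J → Lau K ι) (i : J) (r : ι → ℝ≥0ˣ) : Prop :=
  (∀ k ∈ v, 1 ≤ (r k : ℝ≥0)) ∧ ∀ j, gauss r (h j) ≤ gauss r (h i)

/-- The ring of the meromorphic functions with poles in the zero locus of the coordinate `i` which
are bounded where this coordinate is the largest one. -/
noncomputable def bdRing (v : Set ι) (M : Type*) [Field M] [Algebra K M] [Algebra (Lau K ι) M]
    [IsScalarTower K (Lau K ι) M] [IsFractionRing (Lau K ι) M] (h : J → Lau K ι)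
    (hA : ∀ j, h j ∈ An K v) (i : J) : Subalgebra K M where
  carrier := {x | x ∈ polar v M ⟨h i, hA i⟩ ∧ ∃ C : ℝ≥0, ∀ r, Region v h i r →
    merVal K M r x ≤ C}
  mul_mem' := by
    rintro x y ⟨hx, C, hC⟩ ⟨hy, C', hC'⟩
    refine ⟨mul_mem hx hy, C * C', fun r hr => ?_⟩
    rw [map_mul]
    exact mul_le_mul' (hC r hr) (hC' r hr)
  add_mem' := by
    rintro x y ⟨hx, C, hC⟩ ⟨hy, C', hC'⟩
    refine ⟨add_mem hx hy, max C C', fun r hr => ?_⟩
    exact (Valuation.map_add _ _ _).trans (max_le_max (hC r hr) (hC' r hr))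
  algebraMap_mem' c := ⟨Subalgebra.algebraMap_mem _ _, ‖c‖₊, fun r _ => by rw [merVal_const]⟩

lemma merVal_log_le (r : ι → ℝ≥0ˣ) (k : ι) (D : Derivation K M M)
    (hD : ∀ f : Lau K ι, D (algebraMap (Lau K ι) M f) = algebraMap (Lau K ι) M (dLau v k f))
    {σ : ℝ≥0} (hσ : siz v r k ≤ σ) (x : M) : merVal K M r (D x / x) ≤ σ := by
  rw [map_div₀]
  by_cases h0 : merVal K M r x = 0
  · rw [h0, div_zero]
    positivity
  · rw [div_le_iff₀ (pos_iff_ne_zero.mpr h0)]
    exact (merVal_der r k D hD x).trans (mul_le_mul' hσ le_rfl)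

variable (hA : ∀ j, h j ∈ An K v)

lemma bdRing_der (i : J) (k : ι) (D : Derivation K M M)
    (hD : ∀ f : Lau K ι, D (algebraMap (Lau K ι) M f) = algebraMap (Lau K ι) M (dLau v k f))
    {x : M} (hx : x ∈ bdRing v M h hA i) : D x ∈ bdRing v M h hA i := by
  obtain ⟨h1, C, hC⟩ := hx
  refine ⟨polar_der _ k D hD h1, C, fun r hr => ?_⟩
  refine (merVal_der r k D hD x).trans ?_
  calc siz v r k * merVal K M r x ≤ 1 * C := mul_le_mul' (siz_le_one r hr.1 k) (hC r hr)
    _ = C := one_mul _

lemma bdRing_log (i : J) (k : ι) (D : Derivation K M M)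
    (hD : ∀ f : Lau K ι, D (algebraMap (Lau K ι) M f) = algebraMap (Lau K ι) M (dLau v k f))
    {x : M} (hx : x ∈ polar v M ⟨h i, hA i⟩) (hx' : x⁻¹ ∈ polar v M ⟨h i, hA i⟩) :
    D x / x ∈ bdRing v M h hA i := by
  refine ⟨?_, 1, fun r hr => ?_⟩
  · rw [div_eq_mul_inv]
    exact mul_mem (polar_der _ k D hD hx) hx'
  · rw [map_div₀]
    by_cases h0 : merVal K M r x = 0
    · rw [h0, div_zero]
      exact zero_le_one
    · rw [div_le_iff₀ (pos_iff_ne_zero.mpr h0)]
      exact (merVal_der r k D hD x).trans (mul_le_mul' (siz_le_one r hr.1 k) le_rfl)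

/-- The integral form of the condition on the codimension. -/
def BigInt (v : Set ι) (M : Type*) [Field M] [Algebra K M] [Algebra (Lau K ι) M]
    [IsScalarTower K (Lau K ι) M] (h : J → Lau K ι) (hA : ∀ j, h j ∈ An K v) : Prop :=
  (∃ i, h i ≠ 0) ∧ ∀ x : M, (∀ i, h i ≠ 0 → IsIntegral (polar v M ⟨h i, hA i⟩) x) →
    ∃ g : An K v, x = algebraMap (Lau K ι) M g

lemma BigInt.exists_max [Fintype J] (hB : BigInt v M h hA) (r : ι → ℝ≥0ˣ)
    (hr : ∀ k ∈ v, 1 ≤ (r k : ℝ≥0)) : ∃ i, h i ≠ 0 ∧ Region v h i r := by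
  obtain ⟨i₀, hi₀⟩ := hB.1
  have : Nonempty J := ⟨i₀⟩
  obtain ⟨i, hi⟩ := Finite.exists_max fun i => gauss r (h i)
  refine ⟨i, fun h0 => ?_, hr, hi⟩
  have h1 := hi i₀
  rw [h0, gauss_zero] at h1
  exact gaussVal_ne r hi₀ (le_antisymm h1 (by positivity))

lemma bd_bound (i : J) {x : M} (hx : IsIntegral (bdRing v M h hA i) x) :
    ∃ C : ℝ≥0, ∀ r, Region v h i r → merVal K M r x ≤ C := by
  obtain ⟨p, hp, hpx⟩ := hx
  choose C hC using fun t => (p.coeff t).2.2
  refine ⟨max 1 (∑ t ∈ Finset.range p.natDegree, C t), fun r hr => ?_⟩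
  refine val_root_le (merVal K M r) (p.map (algebraMap (bdRing v M h hA i) M))
    (hp.map _) (x := x) (by rw [Polynomial.eval_map]; exact hpx) fun t ht => ?_
  rw [hp.natDegree_map] at ht
  rw [Polynomial.coeff_map]
  refine (hC t r hr).trans ?_
  exact Finset.single_le_sum (f := C) (fun _ _ => by positivity) (Finset.mem_range.mpr ht)

/-- Elements of extensions which are integral over the rings of bounded functions are constant. -/
theorem bd_const [Fintype J] [IsAlgClosed K] (hB : BigInt v M h hA) {E : Type*} [Field E]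
    [Algebra M E] [Algebra K E] [IsScalarTower K M E] (z : E)
    (hz : ∀ i, h i ≠ 0 → IsIntegral (bdRing v M h hA i) z) : ∃ c : K, z = algebraMap K E c := by
  classical
  obtain ⟨i₀, hi₀⟩ := hB.1
  have hco : ∀ k, ∃ c : K, (minpoly M z).coeff k = algebraMap K M c := by
    intro k
    have h1 : ∀ i, h i ≠ 0 → IsIntegral (bdRing v M h hA i) ((minpoly M z).coeff k) :=
      fun i hi => coeff_isIntegral _ z (hz i hi) k
    obtain ⟨g, hg⟩ := hB.2 ((minpoly M z).coeff k) fun i hi => by
      obtain ⟨p, hp, hpx⟩ := h1 i hi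
      let incl : bdRing v M h hA i →+* polar v M ⟨h i, hA i⟩ :=
        (Subalgebra.inclusion (fun x hx => hx.1 :
          bdRing v M h hA i ≤ polar v M ⟨h i, hA i⟩)).toRingHom
      refine ⟨p.map incl, hp.map _, ?_⟩
      rw [Polynomial.eval₂_map]
      exact hpx
    choose! C hC using fun i (hi : h i ≠ 0) => bd_bound hA i (h1 i hi)
    obtain ⟨c, hc⟩ := liouville g.2 (C := ∑ i, C i) (fun r hr => by
      obtain ⟨i, hi, hreg⟩ := hB.exists_max hA r hr
      have := hC i hi r hreg
      rw [hg, merVal_toM] at this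
      exact this.trans (Finset.single_le_sum (f := C) (fun _ _ => by positivity)
        (Finset.mem_univ i)))
    refine ⟨c, ?_⟩
    rw [hg, hc, ← IsScalarTower.algebraMap_apply K (Lau K ι) M]
  choose y hy using hco
  have hzM : IsIntegral M z := by
    obtain ⟨p, hp, hpz⟩ := hz i₀ hi₀
    refine ⟨p.map (algebraMap _ M), hp.map _, ?_⟩
    rw [Polynomial.eval₂_map]
    exact hpz
  let P := minpoly M z
  let Q : Polynomial K := ∑ k ∈ Finset.range (P.natDegree + 1), Polynomial.monomial k (y k)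
  have hQ : Q.map (algebraMap K M) = P := by
    simp only [Q, Polynomial.map_sum, Polynomial.map_monomial]
    conv_rhs => rw [P.as_sum_range' (P.natDegree + 1) (Nat.lt_succ_self _)]
    exact Finset.sum_congr rfl fun k _ => by rw [← hy k]
  have hQ0 : Q ≠ 0 := by
    rintro h0
    rw [h0, Polynomial.map_zero] at hQ
    exact (minpoly.monic hzM).ne_zero hQ.symm
  have hint : IsAlgebraic K z := ⟨Q, hQ0, by
    have h2 : Polynomial.aeval z (Q.map (algebraMap K M)) = 0 := by
      rw [hQ]
      exact minpoly.aeval M z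
    rwa [Polynomial.aeval_map_algebraMap] at h2⟩
  have h1 : Algebra.IsAlgebraic K (IntermediateField.adjoin K {z}) :=
    IntermediateField.isAlgebraic_adjoin_simple hint.isIntegral
  have h2 := IntermediateField.eq_bot_of_isAlgClosed_of_isAlgebraic
    (IntermediateField.adjoin K {z})
  have h3 : z ∈ IntermediateField.adjoin K {z} :=
    IntermediateField.subset_adjoin K _ (Set.mem_singleton _)
  rw [h2, IntermediateField.mem_bot] at h3
  obtain ⟨c, hc⟩ := h3
  exact ⟨c, hc.symm⟩

/-- The functions in the ring of bounded functions that tend to zero if the radii of the additive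
factors tend to infinity. -/
noncomputable def decIdeal (v : Set ι) (M : Type*) [Field M] [Algebra K M] [Algebra (Lau K ι) M]
    [IsScalarTower K (Lau K ι) M] [IsFractionRing (Lau K ι) M] (h : J → Lau K ι)
    (hA : ∀ j, h j ∈ An K v) (i : J) : Ideal (bdRing v M h hA i) where
  carrier := {x | ∃ C : ℝ≥0, ∀ ρ : ℝ≥0, 1 ≤ ρ → ∀ r, Region v h i r →
    (∀ k ∈ v, ρ ≤ (r k : ℝ≥0)) → merVal K M r (x : M) ≤ C / ρ}
  zero_mem' := ⟨0, fun ρ _ r _ _ => by simp⟩
  add_mem' := by
    rintro x y ⟨C, hC⟩ ⟨C', hC'⟩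
    refine ⟨max C C', fun ρ h1 r h2 h3 => ?_⟩
    refine (Valuation.map_add _ _ _).trans (max_le ?_ ?_)
    · refine (hC ρ h1 r h2 h3).trans ?_
      gcongr
      exact le_max_left _ _
    · refine (hC' ρ h1 r h2 h3).trans ?_
      gcongr
      exact le_max_right _ _
  smul_mem' := by
    rintro a x ⟨C, hC⟩
    obtain ⟨-, C', hC'⟩ := a.2
    refine ⟨C' * C, fun ρ h1 r h2 h3 => ?_⟩
    rw [smul_eq_mul, MulMemClass.coe_mul, map_mul, mul_div_assoc]
    exact mul_le_mul' (hC' r h2) (hC ρ h1 r h2 h3)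

lemma siz_le_inv (r : ι → ℝ≥0ˣ) (ρ : ℝ≥0) (hρ : 1 ≤ ρ) (k : ι) (hk : k ∈ v)
    (hr : ρ ≤ (r k : ℝ≥0)) : siz v r k ≤ ρ⁻¹ := by
  classical
  unfold siz
  rw [if_pos hk, Units.val_inv_eq_inv_val]
  exact inv_anti₀ (lt_of_lt_of_le zero_lt_one hρ) hr

lemma dec_der (i : J) (k : ι) (hk : k ∈ v) (D : Derivation K M M)
    (hD : ∀ f : Lau K ι, D (algebraMap (Lau K ι) M f) = algebraMap (Lau K ι) M (dLau v k f))
    {x : M} (hx : x ∈ bdRing v M h hA i) (y : bdRing v M h hA i) (hy : (y : M) = D x) :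
    y ∈ decIdeal v M h hA i := by
  obtain ⟨h1, C, hC⟩ := hx
  refine ⟨C, fun ρ h1 r h2 h3 => ?_⟩
  rw [hy, div_eq_mul_inv, mul_comm]
  exact (merVal_der r k D hD x).trans (mul_le_mul' (siz_le_inv r ρ h1 k hk (h3 k hk)) (hC r h2))

lemma dec_log (i : J) (k : ι) (hk : k ∈ v) (D : Derivation K M M)
    (hD : ∀ f : Lau K ι, D (algebraMap (Lau K ι) M f) = algebraMap (Lau K ι) M (dLau v k f))
    {x : M} (y : bdRing v M h hA i) (hy : (y : M) = D x / x) :
    y ∈ decIdeal v M h hA i := by
  refine ⟨1, fun ρ h1 r h2 h3 => ?_⟩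
  rw [hy, map_div₀, one_div]
  by_cases h0 : merVal K M r x = 0
  · rw [h0, div_zero]
    positivity
  · rw [div_le_iff₀ (pos_iff_ne_zero.mpr h0)]
    exact (merVal_der r k D hD x).trans (mul_le_mul' (siz_le_inv r ρ h1 k hk (h3 k hk)) le_rfl)

/-- Constants that are integral over the ideals are zero. -/
theorem dec_zero [Fintype J] (hB : BigInt v M h hA) (c : K)
    (hz : ∀ i, h i ≠ 0 → ∃ p : Polynomial (bdRing v M h hA i), p.Monic ∧
      Polynomial.eval₂ (algebraMap (bdRing v M h hA i) M) (algebraMap K M c) p = 0 ∧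
      ∀ t < p.natDegree, p.coeff t ∈ decIdeal v M h hA i) : c = 0 := by
  classical
  by_contra hc0
  have hpos : 0 < ‖c‖₊ := by simpa using hc0
  choose! p hp hpz hpd using hz
  choose! C hC using fun (i : J) (t : ℕ) (hi : h i ≠ 0 ∧ t < (p i).natDegree) => hpd i hi.1 t hi.2
  -- the bounds for the sums
  let B : J → ℝ≥0 := fun i => (∑ t ∈ Finset.range (p i).natDegree, C i t * ‖c‖₊ ^ t) /
    ‖c‖₊ ^ (p i).natDegree
  have hbd : ∀ ρ : ℝ≥0, 1 ≤ ρ → ρ ≤ ∑ i, B i := by
    intro ρ hρ
    let r : ι → ℝ≥0ˣ := fun k => Units.mk0 ρ (lt_of_lt_of_le zero_lt_one hρ).ne'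
    obtain ⟨i, hi, hreg⟩ := hB.exists_max hA r (fun k _ => hρ)
    refine le_trans ?_ (Finset.single_le_sum (f := B) (fun _ _ => by positivity)
      (Finset.mem_univ i))
    have h1 := hpz i hi
    rw [Polynomial.eval₂_eq_sum_range, Finset.sum_range_succ, (hp i hi).coeff_natDegree, map_one,
      one_mul] at h1
    have h2 : (algebraMap K M c) ^ (p i).natDegree = -∑ t ∈ Finset.range (p i).natDegree,
        algebraMap (bdRing v M h hA i) M ((p i).coeff t) * (algebraMap K M c) ^ t :=
      eq_neg_of_add_eq_zero_right h1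
    have h3 : ‖c‖₊ ^ (p i).natDegree ≤
        (∑ t ∈ Finset.range (p i).natDegree, C i t * ‖c‖₊ ^ t) / ρ := by
      have h4 := congrArg (merVal K M r) h2
      rw [map_pow, merVal_const, Valuation.map_neg] at h4
      rw [h4]
      refine Valuation.map_sum_le _ fun t ht => ?_
      rw [map_mul, map_pow, merVal_const]
      have h5 : merVal K M r (algebraMap (bdRing v M h hA i) M ((p i).coeff t)) ≤ C i t / ρ :=
        hC i t ⟨hi, Finset.mem_range.mp ht⟩ ρ hρ r hreg (fun k _ => le_rfl)
      calc _ ≤ C i t / ρ * ‖c‖₊ ^ t := mul_le_mul' h5 le_rfl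
        _ = (C i t * ‖c‖₊ ^ t) / ρ := by rw [div_mul_eq_mul_div]
        _ ≤ _ := by
          gcongr
          exact Finset.single_le_sum (f := fun t => C i t * ‖c‖₊ ^ t)
            (fun _ _ => by positivity) ht
    rw [le_div_iff₀ (lt_of_lt_of_le zero_lt_one hρ)] at h3
    rw [le_div_iff₀ (pow_pos hpos _), mul_comm]
    exact h3
  have h6 := hbd (∑ i, B i + 1) (by simp)
  exact absurd h6 (not_le.mpr (lt_add_one _))

end Pool.Agent.KS6_77
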