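import Pool.Agent.KS6_77.Stmt

/-!
# The objects of the statements on jets
-/

namespace Pool.Agent.KS6_77

universe u

/-- `z` is a root of a monic polynomial `x ^ n - ∑ a t * x ^ t` with all `a t` in the set `P`. -/
def RootOf {M E : Type*} [Field M] [Field E] (j : M →+* E) (P : Set M) (z : E) : Prop :=
  ∃ (n : ℕ) (a : Fin n → M), (∀ t, a t ∈ P) ∧ z ^ n = ∑ t, j (a t) * z ^ (t : ℕ)

namespace AnMap

variable (S : AnMap.{u})

/-- The map is defined outside of a set of codimension two: a meromorphic function `x` which is
integral over the functions `a / (h i) ^ e` with analytic `a`, for each `i`, is analytic. -/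
def Wide : Prop :=
  (∃ i, S.h i ≠ 0) ∧ ∀ x : S.M,
    (∀ i, S.h i ≠ 0 → ∃ (n e : ℕ) (a : Fin n → Lau S.K S.ι), (∀ t, IsAn S.v (a t)) ∧
      S.inc (S.h i) ^ e * x ^ n = ∑ t, S.inc (a t) * x ^ (t : ℕ)) →
    ∃ q : Lau S.K S.ι, IsAn S.v q ∧ x = S.inc q

/-- The derivations of the field of meromorphic functions given by the invariant vector fields. -/
def IsInv (D : S.ι → S.M → S.M) : Prop :=
  ∀ k, (∀ x y, D k (x + y) = D k x + D k y) ∧ (∀ x y, D k (x * y) = x * D k y + y * D k x) ∧
    ∀ f g, IsDer S.v k f g → D k (S.inc f) = S.inc g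

/-- The meromorphic function `y` has no poles on the part of the group where `h i` has no zeros. -/
def Holo (i : S.J) (y : S.M) : Prop :=
  ∃ (e : ℕ) (q : Lau S.K S.ι), IsAn S.v q ∧ y * S.inc (S.h i) ^ e = S.inc q

/-- The pullbacks of jet differentials with logarithmic or orbifold poles on the chart `i`: the
smallest ring of meromorphic functions that contains the functions on the chart, is closed under
the invariant derivations, and contains the products of its elements with logarithmic derivatives
of functions on the chart, if they have no poles where `h i` has no zeros. -/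
inductive IsJet (D : S.ι → S.M → S.M) (i : S.J) : S.M → Prop
  | fn (x : S.L) : x ∈ S.chart i → IsJet D i (S.emb x)
  | log (k : S.ι) (x : S.L) (y : S.M) : x ∈ S.chart i → IsJet D i y →
      S.Holo i (D k (S.emb x) / S.emb x * y) → IsJet D i (D k (S.emb x) / S.emb x * y)
  | der (k : S.ι) (y : S.M) : IsJet D i y → IsJet D i (D k y)
  | add (x y : S.M) : IsJet D i x → IsJet D i y → IsJet D i (x + y)
  | mul (x y : S.M) : IsJet D i x → IsJet D i y → IsJet D i (x * y)

/-- The ideal generated by the derivatives and logarithmic derivatives in the directions of the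
additive factors of the group. -/
inductive IsAddJet (D : S.ι → S.M → S.M) (i : S.J) : S.M → Prop
  | der (k : S.ι) (y : S.M) : k ∈ S.v → S.IsJet D i y → IsAddJet D i (D k y)
  | log (k : S.ι) (x : S.L) (y : S.M) : k ∈ S.v → x ∈ S.chart i → S.IsJet D i y →
      S.Holo i (D k (S.emb x) / S.emb x * y) → IsAddJet D i (D k (S.emb x) / S.emb x * y)
  | add (x y : S.M) : IsAddJet D i x → IsAddJet D i y → IsAddJet D i (x + y)
  | mul (x y : S.M) : S.IsJet D i x → IsAddJet D i y → IsAddJet D i (x * y)

end AnMap

end Pool.Agent.KS6_77
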