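import Pool.Agent.KS6_77.Setup
import Pool.Agent.KS6_77.Stmt2
import Pool.Agent.KS6_77.Jet

/-!
# Multivalued jet differentials for the objects of the statement
-/

open scoped TensorProduct NNReal

namespace Pool.Agent.KS6_77

universe u w

attribute [local instance] AnMap.algLau AnMap.algFun

/-- Roots in terms of polynomials over a subring. -/
lemma RootOf.exists_poly {K M E : Type*} [Field K] [Field M] [Field E] [Algebra K M]
    [Algebra M E] {P : Set M} {z : E} (h : RootOf (algebraMap M E) P z) (A : Subalgebra K M)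
    (hP : P ⊆ A) : ∃ p : Polynomial A, p.Monic ∧ Polynomial.aeval z p = 0 ∧
      ∀ t < p.natDegree, ((p.coeff t : A) : M) ∈ (Neg.neg '' P) := by
  classical
  obtain ⟨n, a, ha, hz⟩ := h
  let b : ℕ → A := fun t => if ht : t < n then ⟨a ⟨t, ht⟩, hP (ha _)⟩ else 0
  let q : Polynomial A := ∑ t ∈ Finset.range n, Polynomial.monomial t (b t)
  have hqdeg : q.degree < n := by
    refine lt_of_le_of_lt (Polynomial.degree_sum_le _ _) ?_
    refine (Finset.sup_lt_iff (WithBot.bot_lt_coe n)).mpr fun t ht => ?_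
    refine lt_of_le_of_lt (Polynomial.degree_monomial_le _ _) ?_
    exact WithBot.coe_lt_coe.mpr (Finset.mem_range.mp ht)
  have hmon : (Polynomial.X ^ n - q).Monic := Polynomial.monic_X_pow_sub hqdeg
  have hdeg : (Polynomial.X ^ n - q).natDegree = n := by
    have h1 : (Polynomial.X ^ n - q).degree = (n : WithBot ℕ) := by
      rw [Polynomial.degree_sub_eq_left_of_degree_lt, Polynomial.degree_X_pow]
      rw [Polynomial.degree_X_pow]
      exact hqdeg
    exact Polynomial.natDegree_eq_of_degree_eq_some h1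
  refine ⟨Polynomial.X ^ n - q, hmon, ?_, ?_⟩
  · rw [map_sub, map_pow, Polynomial.aeval_X, hz, sub_eq_zero]
    simp only [q, map_sum, Polynomial.aeval_monomial]
    rw [← Fin.sum_univ_eq_sum_range (fun t => (algebraMap A E) (b t) * z ^ t) n]
    refine Finset.sum_congr rfl fun t _ => ?_
    have : b t = ⟨a t, hP (ha t)⟩ := by
      simp only [b, t.2, dif_pos]
    rw [this]
    rfl
  · intro t ht
    rw [hdeg] at ht
    have h1 : q.coeff t = b t := by
      simp only [q, Polynomial.finsetSum_coeff, Polynomial.coeff_monomial]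
      rw [Finset.sum_ite_eq' (Finset.range n) t b, if_pos (Finset.mem_range.mpr ht)]
    rw [Polynomial.coeff_sub, Polynomial.coeff_X_pow, if_neg ht.ne, zero_sub, h1]
    have h2 : b t = ⟨a ⟨t, ht⟩, hP (ha _)⟩ := by simp only [b, ht, dif_pos]
    rw [h2]
    exact ⟨a ⟨t, ht⟩, ha _, rfl⟩

namespace AnMap

variable (S : AnMap.{u})

lemma bigInt_of (hB : S.Wide) :
    letI := S.towLau
    BigInt S.v S.M S.h S.isAn := by
  have := S.towLau
  have := S.fracLau
  refine ⟨hB.1, fun x hx => ?_⟩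
  obtain ⟨q, hq, hxq⟩ := hB.2 x (fun i hi => by
    obtain ⟨p, hp, hpx⟩ := hx i hi
    choose e g hg using fun t => (p.coeff t).2
    let E := ∑ t ∈ Finset.range p.natDegree, e t
    refine ⟨p.natDegree, E, fun t => -(S.h i ^ (E - e t) * (g t : Lau S.K S.ι)), fun t => ?_, ?_⟩
    · have h1 : S.h i ∈ An S.K S.v := S.isAn i
      exact neg_mem (mul_mem (pow_mem h1 _) (g t).2)
    · have h2 : x ^ p.natDegree = -∑ t ∈ Finset.range p.natDegree,
          ((p.coeff t : polar S.v S.M ⟨S.h i, S.isAn i⟩) : S.M) * x ^ t := by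
        rw [Polynomial.eval₂_eq_sum_range, Finset.sum_range_succ, hp.coeff_natDegree, map_one,
          one_mul] at hpx
        exact eq_neg_of_add_eq_zero_right hpx
      rw [h2, mul_neg, Finset.mul_sum, Fin.sum_univ_eq_sum_range (fun t =>
        S.inc (-(S.h i ^ (E - e t) * (g t : Lau S.K S.ι))) * x ^ t) p.natDegree,
        ← Finset.sum_neg_distrib]
      refine Finset.sum_congr rfl fun t ht => ?_
      have h3 := hg t
      have h4 : e t ≤ E := Finset.single_le_sum (f := e) (fun _ _ => Nat.zero_le _) ht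
      have h5 : S.inc (S.h i) ^ E = S.inc (S.h i) ^ (E - e t) * S.inc (S.h i) ^ e t := by
        rw [← pow_add, Nat.sub_add_cancel h4]
      simp only [← S.algLau_apply] at h5 ⊢
      rw [h5, map_neg, map_mul, map_pow, ← h3]
      ring)
  refine ⟨⟨q, hq⟩, ?_⟩
  rw [hxq, ← S.algLau_apply]

variable (D : S.ι → S.M → S.M)

/-- The invariant derivations. -/
lemma exists_der (hD : S.IsInv D) (k : S.ι) : ∃ D' : Derivation S.K S.M S.M, (∀ x, D' x = D k x) ∧
    ∀ f : Lau S.K S.ι, D' (algebraMap (Lau S.K S.ι) S.M f) =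
      algebraMap (Lau S.K S.ι) S.M (dLau S.v k f) := by
  have := S.towLau
  have := S.fracLau
  obtain ⟨D', hD'⟩ := exists_dMer S.K S.v S.M k
  refine ⟨D', fun x => ?_, hD'⟩
  obtain ⟨a, b, hb, rfl⟩ := S.frac x
  obtain ⟨h1, h2, h3⟩ := hD k
  have hb0 : S.inc b ≠ 0 := by
    rw [← S.algLau_apply]
    exact toM_ne S.M hb
  have hinc : ∀ f, D' (S.inc f) = D k (S.inc f) := fun f => by
    rw [← S.algLau_apply, hD', S.algLau_apply, S.algLau_apply, h3 f _ (isDer_dLau k f)]
  have h4 : S.inc a / S.inc b * S.inc b = S.inc a := div_mul_cancel₀ _ hb0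
  have h5 := h2 (S.inc a / S.inc b) (S.inc b)
  have h6 := D'.leibniz (S.inc a / S.inc b) (S.inc b)
  rw [h4, ← hinc, ← hinc] at h5
  rw [h4, smul_eq_mul, smul_eq_mul, h5] at h6
  have h7 : S.inc b * D k (S.inc a / S.inc b) = S.inc b * D' (S.inc a / S.inc b) :=
    add_left_cancel h6
  exact (mul_left_cancel₀ hb0 h7).symm

lemma holo_polar (i : S.J) {y : S.M} (hy : S.Holo i y) :
    letI := S.towLau
    y ∈ polar S.v S.M ⟨S.h i, S.isAn i⟩ := by
  obtain ⟨e, q, hq, hy⟩ := hy
  refine ⟨e, ⟨q, hq⟩, ?_⟩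
  rw [← S.algLau_apply, ← S.algLau_apply] at hy
  exact hy

lemma jet_bd (hD : S.IsInv D) (i : S.J) (hi : S.h i ≠ 0) {y : S.M} (hy : S.IsJet D i y) :
    letI := S.towLau
    letI := S.fracLau
    y ∈ bdRing S.v S.M S.h S.isAn i := by
  have := S.towLau
  have := S.towFun
  have := S.fracLau
  choose D' hD' hD'' using fun k => S.exists_der D hD k
  induction hy with
  | fn x hx =>
    refine ⟨?_, ?_⟩
    · rw [← S.algFun_apply]
      refine chart_polar S.isAn i hi x ?_
      rw [S.chart_eq]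
      exact hx
    · obtain ⟨C, hC⟩ := chart_bdd (M := S.M) (h := S.h) i x (by rw [S.chart_eq]; exact hx)
      refine ⟨C, fun r hr => ?_⟩
      rw [← S.algFun_apply]
      exact hC r hr.2
  | log k x y hx _ hH ih =>
    obtain ⟨-, C, hC⟩ := ih
    refine ⟨S.holo_polar i hH, C, fun r hr => ?_⟩
    rw [← hD', map_mul]
    calc _ ≤ 1 * C := mul_le_mul' (merVal_log_le r k (D' k) (hD'' k) (siz_le_one r hr.1 k) _)
          (hC r hr)
      _ = C := one_mul C
  | der k y _ ih =>
    rw [← hD']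
    exact bdRing_der S.isAn i k (D' k) (hD'' k) ih
  | add x y _ _ h1 h2 => exact add_mem h1 h2
  | mul x y _ _ h1 h2 => exact mul_mem h1 h2

lemma addJet_dec (hD : S.IsInv D) (i : S.J) (hi : S.h i ≠ 0) {y : S.M} (hy : S.IsAddJet D i y) :
    letI := S.towLau
    letI := S.fracLau
    ∃ y' : bdRing S.v S.M S.h S.isAn i, (y' : S.M) = y ∧
      y' ∈ decIdeal S.v S.M S.h S.isAn i := by
  have := S.towLau
  have := S.towFun
  have := S.fracLau
  choose D' hD' hD'' using fun k => S.exists_der D hD k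
  induction hy with
  | der k y hk hy =>
    exact ⟨⟨D k y, S.jet_bd D hD i hi (.der k y hy)⟩, rfl,
      dec_der S.isAn i k hk (D' k) (hD'' k) (S.jet_bd D hD i hi hy) _ (hD' k y).symm⟩
  | log k x y hk hx hy hH =>
    obtain ⟨-, C, hC⟩ := S.jet_bd D hD i hi hy
    refine ⟨⟨_, S.jet_bd D hD i hi (.log k x y hx hy hH)⟩, rfl, C, fun ρ h1 r h2 h3 => ?_⟩
    change merVal S.K S.M r (D k (S.emb x) / S.emb x * y) ≤ C / ρ
    rw [← hD', map_mul, div_eq_mul_inv C, mul_comm C]
    exact mul_le_mul' (merVal_log_le r k (D' k) (hD'' k) (siz_le_inv r ρ h1 k hk (h3 k hk)) _)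
      (hC r h2)
  | add x y _ _ h1 h2 =>
    obtain ⟨x', h3, h4⟩ := h1
    obtain ⟨y', h5, h6⟩ := h2
    exact ⟨x' + y', by rw [← h3, ← h5]; rfl, add_mem h4 h6⟩
  | mul x y hx _ h2 =>
    obtain ⟨y', h5, h6⟩ := h2
    exact ⟨⟨x, S.jet_bd D hD i hi hx⟩ * y', by rw [← h5]; rfl, Ideal.mul_mem_left _ _ h6⟩

end AnMap

theorem transfer_jets (S : AnMap.{u}) (hB : S.Wide) (D : S.ι → S.M → S.M)
    (hD : S.IsInv D) (E : Type w) [Field E] (j : S.M →+* E) (z : E)
    (hz : ∀ i, S.h i ≠ 0 → RootOf j {y | S.IsJet D i y} z) :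
    ∃ c : S.K, z = j (algebraMap S.K S.M c) ∧
      ((∀ i, S.h i ≠ 0 → RootOf j {y | S.IsAddJet D i y} z) → z = 0) := by
  have := S.towLau
  have := S.fracLau
  have hB' := S.bigInt_of hB
  let _ : Algebra S.M E := j.toAlgebra
  let _ : Algebra S.K E := (j.comp (algebraMap S.K S.M)).toAlgebra
  have htow : IsScalarTower S.K S.M E := IsScalarTower.of_algebraMap_eq fun _ => rfl
  obtain ⟨c, hc⟩ := bd_const S.isAn hB' z (fun i hi => by
    obtain ⟨p, hp, hpz, -⟩ := RootOf.exists_poly (E := E) (hz i hi)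
      (bdRing S.v S.M S.h S.isAn i) (fun y hy => S.jet_bd D hD i hi hy)
    exact ⟨p, hp, hpz⟩)
  refine ⟨c, hc, fun hzd => ?_⟩
  have hc0 := dec_zero S.isAn hB' c (fun i hi => by
    obtain ⟨p, hp, hpz, hpc⟩ := RootOf.exists_poly (E := E) (hzd i hi)
      (bdRing S.v S.M S.h S.isAn i) (fun y hy => by
        obtain ⟨y', h1, -⟩ := S.addJet_dec D hD i hi hy
        rw [← h1]
        exact y'.2)
    refine ⟨p, hp, ?_, fun t ht => ?_⟩
    · apply (algebraMap S.M E).injective
      rw [Polynomial.hom_eval₂, map_zero, ← hpz, Polynomial.aeval_def, hc]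
      rfl
    · obtain ⟨y, hy, hy2⟩ := hpc t ht
      obtain ⟨y', h1, h2⟩ := S.addJet_dec D hD i hi hy
      have h3 : p.coeff t = -y' := Subtype.ext (by rw [← hy2, ← h1]; rfl)
      rw [h3]
      exact neg_mem h2)
  rw [hc, hc0, map_zero]

end Pool.Agent.KS6_77
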