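import Pool.Agent.KS6_77.Key

/-!
# Products over all embeddings of the values of regular tensor differentials are constant
-/

open scoped NNReal TensorProduct

set_option linter.unusedSectionVars false

namespace Pool.Agent.KS6_77

universe u v w

variable {K : Type u} [NontriviallyNormedField K] [IsUltrametricDist K] [CompleteSpace K]
  [CharZero K]
  {ι : Type v} [Fintype ι] {v : Set ι} {J : Type w} {h : J → Lau K ι}
  {M : Type*} [Field M] [Algebra K M] [Algebra (Lau K ι) M] [IsScalarTower K (Lau K ι) M]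
  [IsFractionRing (Lau K ι) M]
  {L : Type*} [Field L] [Algebra K L] [Algebra L M] [IsScalarTower K L M]
  {L' : Type*} [Field L'] [Algebra K L'] [Algebra L L'] [IsScalarTower K L L']
  [FiniteDimensional L L'] {m : ℕ}
  (D : ι → Derivation K M M)
  {E : Type*} [Field E] [Algebra M E] [Algebra K E] [IsScalarTower K M E]
  [Algebra L E] [IsScalarTower L M E] [IsAlgClosed E]

theorem key_chart (hA : ∀ j, h j ∈ An K v)
    (hD : ∀ i (f : Lau K ι), D i (algebraMap (Lau K ι) M f) = algebraMap (Lau K ι) M (dLau v i f))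
    (i : J) (hi : h i ≠ 0)
    (hn : ∀ x : L, IsIntegral (chart M L h i) x → x ∈ chart M L h i)
    (x : L' ⊗[L] (⨂[L] _ : Fin m, Ω[L⁄K])) (hx : Rep (chart M L h i) x) (l : (Fin m → ι) → K) :
    ∃ p ∈ polar v M ⟨h i, hA i⟩, ∃ C : ℝ≥0,
      algebraMap M E p = ∏ s : L' →ₐ[L] E, pair l (phi D m s x) ∧
      ∀ r : ι → ℝ≥0ˣ, (∀ j, gauss r (h j) ≤ gauss r (h i)) →
        ∀ σ : ℝ≥0, (∀ I, l I ≠ 0 → ∏ j, siz v r (I j) ≤ σ) →
        merVal K M r p ≤ C * σ ^ Fintype.card (L' →ₐ[L] E) := by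
  obtain ⟨n, b, f, hb, hf, hxe⟩ := hx
  have : Infinite K := inferInstance
  have : CharZero L := charZero_of_injective_algebraMap (FaithfulSMul.algebraMap_injective K L)
  have : IsScalarTower K L E := IsScalarTower.of_algebraMap_eq fun c => by
    rw [IsScalarTower.algebraMap_apply K M E, IsScalarTower.algebraMap_apply K L M,
      ← IsScalarTower.algebraMap_apply L M E]
  obtain ⟨F, c, hc, hF, hQ⟩ := norm_form (E := E) (chart M L h i) hn b hb
  let Δ : Fin n → M := fun t => delta D l (f t)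
  choose B hB using fun t => delta_bdd D hD i (f t) (hf t) l
  choose C hC using fun k : (Fin n →₀ ℕ) => chart_bdd i (c k) (hc k)
  refine ⟨∑ k ∈ F, algebraMap L M (c k) * ∏ t, Δ t ^ k t, ?_,
    ∑ k ∈ F, C k * ∏ t, B t ^ k t, ?_, ?_⟩
  · refine sum_mem fun k _ => mul_mem (chart_polar hA i hi _ (hc k)) (prod_mem fun t _ =>
      pow_mem ?_ _)
    exact delta_polar D hA hD i hi (f t) (hf t) l
  · rw [map_sum]
    have h1 : ∀ s : L' →ₐ[L] E, pair l (phi D m s x) =
        ∑ t, s (b t) * algebraMap M E (Δ t) := by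
      intro s
      have h2 : phi D m s x = ∑ t, phi D m s (pureT K (b t) (f t)) := by
        rw [hxe, map_sum]
      have h3 : pair l (phi D m s x) = ∑ t, pair l (phi D m s (pureT K (b t) (f t))) := by
        rw [h2]
        unfold pair
        simp only [Finset.sum_apply, Finset.mul_sum]
        rw [Finset.sum_comm]
      rw [h3]
      exact Finset.sum_congr rfl fun t _ => pair_phi_pure D s l (b t) _
    simp only [h1]
    rw [hQ]
    refine Finset.sum_congr rfl fun k _ => ?_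
    rw [map_mul, map_prod]
    simp only [map_pow]
    rw [← IsScalarTower.algebraMap_apply]
  · intro r hr σ hσ
    refine Valuation.map_sum_le _ fun k hk => ?_
    rw [map_mul, map_prod]
    have h2 : ∏ t, merVal K M r (Δ t ^ k t) ≤ ∏ t, (B t * σ) ^ k t := by
      refine Finset.prod_le_prod' fun t _ => ?_
      rw [map_pow]
      exact pow_le_pow_left' (hB t r hr σ hσ) _
    have h3 : ∏ t, (B t * σ) ^ k t = (∏ t, B t ^ k t) *
        σ ^ Fintype.card (L' →ₐ[L] E) := by
      rw [← hF k hk, Finsupp.degree_eq_sum, ← Finset.prod_pow_eq_pow_sum,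
        ← Finset.prod_mul_distrib]
      exact Finset.prod_congr rfl fun t _ => mul_pow _ _ _
    rw [h3] at h2
    calc merVal K M r (algebraMap L M (c k)) * ∏ t, merVal K M r (Δ t ^ k t)
        ≤ C k * ((∏ t, B t ^ k t) * σ ^ Fintype.card (L' →ₐ[L] E)) :=
          mul_le_mul' (hC k r hr) h2
      _ = (C k * ∏ t, B t ^ k t) * σ ^ Fintype.card (L' →ₐ[L] E) := by ring
      _ ≤ _ := by
        gcongr
        exact Finset.single_le_sum (f := fun k => C k * ∏ t, B t ^ k t)
          (fun _ _ => by positivity) hk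

theorem key [Fintype J] (hA : ∀ j, h j ∈ An K v)
    (hD : ∀ i (f : Lau K ι), D i (algebraMap (Lau K ι) M f) = algebraMap (Lau K ι) M (dLau v i f))
    (hB : Big v h)
    (hn : ∀ i, h i ≠ 0 → ∀ x : L, IsIntegral (chart M L h i) x → x ∈ chart M L h i)
    (x : L' ⊗[L] (⨂[L] _ : Fin m, Ω[L⁄K])) (hx : ∀ i, h i ≠ 0 → Rep (chart M L h i) x)
    (l : (Fin m → ι) → K) :
    ∃ y : K, ∏ s : L' →ₐ[L] E, pair l (phi D m s x) = algebraMap K E y ∧
      ((∀ I, (∀ j, I j ∉ v) → l I = 0) → y = 0) := by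
  classical
  obtain ⟨i₀, hi₀⟩ := hB.exists_ne
  choose! p hp C hpE hC using fun (i : J) (hi : h i ≠ 0) =>
    key_chart (E := E) D hA hD i hi (hn i hi) x (hx i hi) l
  have hpp : ∀ i, h i ≠ 0 → p i = p i₀ := by
    intro i hi
    apply FaithfulSMul.algebraMap_injective M E
    rw [hpE i hi, hpE i₀ hi₀]
  obtain ⟨g, hg⟩ := big_mem hA hB (p i₀) (fun i hi => by rw [← hpp i hi]; exact hp i hi)
  -- the bound
  have hbd : ∀ r : ι → ℝ≥0ˣ, ∀ σ : ℝ≥0, (∀ I, l I ≠ 0 → ∏ j, siz v r (I j) ≤ σ) →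
      gauss r (g : Lau K ι) ≤ (∑ i, C i) * σ ^ Fintype.card (L' →ₐ[L] E) := by
    intro r σ hσ
    obtain ⟨i, hi, hmax⟩ := exists_max hB r
    have := hC i hi r hmax σ hσ
    rw [hpp i hi, hg, merVal_toM] at this
    refine this.trans ?_
    gcongr
    exact Finset.single_le_sum (f := C) (fun _ _ => by positivity) (Finset.mem_univ i)
  obtain ⟨y, hy⟩ := liouville g.2 (C := ∑ i, C i) (fun r hr => by
    have := hbd r 1 (fun I _ => Finset.prod_le_one' fun j _ => siz_le_one r hr _)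
    simpa using this)
  have hgy : (g : Lau K ι) = algebraMap K (Lau K ι) y := hy
  refine ⟨y, ?_, fun hl => ?_⟩
  · rw [← hpE i₀ hi₀, hg, hgy, ← IsScalarTower.algebraMap_apply K (Lau K ι) M,
      ← IsScalarTower.algebraMap_apply K M E]
  · -- vanishing
    have hcard : 0 < Fintype.card (L' →ₐ[L] E) := by
      rw [Fintype.card_pos_iff]
      exact ⟨IsAlgClosed.lift⟩
    by_contra hy0
    have hpos : 0 < ‖y‖₊ := by simpa using hy0
    have key : ∀ ρ : ℝ≥0ˣ, 1 ≤ (ρ : ℝ≥0) → ‖y‖₊ ≤ (∑ i, C i) * (ρ : ℝ≥0)⁻¹ := by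
      intro ρ hρ
      let r : ι → ℝ≥0ˣ := fun i => if i ∈ v then ρ else 1
      have hsz : ∀ i, siz v r i ≤ 1 := siz_le_one r (fun i hi => by simp [r, hi, hρ])
      have h1 := hbd r (ρ : ℝ≥0)⁻¹ (fun I hI => by
        have h2 : ∃ j, I j ∈ v := by
          by_contra hcon
          push Not at hcon
          exact hI (hl I hcon)
        obtain ⟨j, hj⟩ := h2
        rw [← Finset.mul_prod_erase _ _ (Finset.mem_univ j)]
        have h3 : siz v r (I j) = (ρ : ℝ≥0)⁻¹ := by
          simp [siz, r, hj]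
        rw [h3]
        calc (ρ : ℝ≥0)⁻¹ * ∏ k ∈ Finset.univ.erase j, siz v r (I k)
            ≤ (ρ : ℝ≥0)⁻¹ * 1 := by
              gcongr
              exact Finset.prod_le_one' fun k _ => hsz _
          _ = _ := mul_one _)
      rw [hgy] at h1
      have h4 : gauss r (algebraMap K (Lau K ι) y) = ‖y‖₊ := gauss_algebraMap r y
      rw [h4] at h1
      refine h1.trans ?_
      gcongr
      have h5 : (ρ : ℝ≥0)⁻¹ ≤ 1 := inv_le_one_of_one_le₀ hρ
      exact pow_le_of_le_one (by positivity) h5 hcard.ne'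
    -- choose a large radius
    obtain ⟨ρ, hρ1, hρ2⟩ : ∃ ρ : ℝ≥0, 1 ≤ ρ ∧ (∑ i, C i) / ‖y‖₊ < ρ :=
      ⟨max 1 ((∑ i, C i) / ‖y‖₊ + 1), le_max_left _ _,
        lt_of_lt_of_le (lt_add_one _) (le_max_right _ _)⟩
    have hρ0 : ρ ≠ 0 := (lt_of_lt_of_le one_pos hρ1).ne'
    have h6 := key (Units.mk0 ρ hρ0) hρ1
    rw [Units.val_mk0, ← div_eq_mul_inv, le_div_iff₀ (lt_of_lt_of_le one_pos hρ1)] at h6
    rw [div_lt_iff₀ hpos, mul_comm] at hρ2
    exact absurd h6 (not_le.mpr hρ2)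

end Pool.Agent.KS6_77
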