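import Mathlib

/-!
# The ring of everywhere convergent Laurent series

`Lau K ι` is the ring of the Laurent series `∑ a ν z ^ ν`, `ν : ι → ℤ`, which converge for all values of
the variables in `K ^ ×` (and all radii), the analytic functions on a split torus.
-/

open Filter Topology

set_option linter.unusedSectionVars false

namespace Pool.Agent.KS6_77

universe u v

/-- The length of an exponent. -/
def len {ι : Type v} [Fintype ι] (ν : ι → ℤ) : ℕ := ∑ i, (ν i).natAbs

section len

variable {ι : Type v} [Fintype ι]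

@[simp] lemma len_zero : len (0 : ι → ℤ) = 0 := by simp [len]

lemma len_add (μ ν : ι → ℤ) : len (μ + ν) ≤ len μ + len ν := by
  unfold len
  rw [← Finset.sum_add_distrib]
  exact Finset.sum_le_sum fun i _ => Int.natAbs_add_le _ _

@[simp] lemma len_neg (ν : ι → ℤ) : len (-ν) = len ν := by simp [len]

lemma len_sub (μ ν : ι → ℤ) : len (μ - ν) ≤ len μ + len ν := by
  rw [sub_eq_add_neg]
  simpa using len_add μ (-ν)

end len

variable {K : Type u} [NontriviallyNormedField K] {ι : Type v} [Fintype ι]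

/-- The Laurent series with the coefficients `a` converges everywhere. -/
def IsConv (a : (ι → ℤ) → K) : Prop := ∀ R : ℝ, Summable fun ν => ‖a ν‖ * R ^ len ν

namespace IsConv

lemma nonneg_term {R : ℝ} (hR : 0 ≤ R) (a : (ι → ℤ) → K) (ν : ι → ℤ) : 0 ≤ ‖a ν‖ * R ^ len ν := by
  positivity

lemma norm {a : (ι → ℤ) → K} (ha : IsConv a) : Summable fun ν => ‖a ν‖ := by
  simpa using ha 1

lemma of_nonneg {a : (ι → ℤ) → K} (h : ∀ R : ℝ, 1 ≤ R → Summable fun ν => ‖a ν‖ * R ^ len ν) :
    IsConv a := by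
  intro R
  refine Summable.of_norm_bounded (h (max 1 |R|) (le_max_left _ _)) ?_
  intro ν
  rw [norm_mul, norm_norm, norm_pow, Real.norm_eq_abs]
  gcongr
  exact le_max_right _ _

lemma zero : IsConv (0 : (ι → ℤ) → K) := fun R => by simp

lemma add {a b : (ι → ℤ) → K} (ha : IsConv a) (hb : IsConv b) : IsConv (a + b) := by
  refine of_nonneg fun R hR => ?_
  refine Summable.of_nonneg_of_le (fun ν => by positivity) (fun ν => ?_) ((ha R).add (hb R))
  rw [← add_mul]
  gcongr
  exact norm_add_le _ _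

lemma neg {a : (ι → ℤ) → K} (ha : IsConv a) : IsConv (-a) := fun R => by simpa using ha R

/-- Finitely many nonzero coefficients. -/
lemma single [DecidableEq (ι → ℤ)] (ν : ι → ℤ) (c : K) : IsConv (Pi.single ν c) := by
  intro R
  refine summable_of_ne_finset_zero (s := {ν}) fun μ hμ => ?_
  rw [Finset.mem_singleton] at hμ
  simp [Pi.single_eq_of_ne hμ]

lemma bdd {a : (ι → ℤ) → K} (ha : IsConv a) (R : ℝ) (hR : 0 ≤ R) :
    ∃ C, 0 ≤ C ∧ ∀ ν, ‖a ν‖ * R ^ len ν ≤ C :=
  ⟨∑' ν, ‖a ν‖ * R ^ len ν, tsum_nonneg fun ν => nonneg_term hR a ν, fun ν =>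
    (ha R).le_tsum ν fun μ _ => nonneg_term hR a μ⟩

/-- The coefficients of products. -/
lemma summable_conv [CompleteSpace K] {a b : (ι → ℤ) → K} (ha : IsConv a) (hb : IsConv b)
    (ν : ι → ℤ) : Summable fun μ => a μ * b (ν - μ) := by
  obtain ⟨C, hC, h⟩ := hb.bdd 1 zero_le_one
  refine Summable.of_norm_bounded (ha.norm.mul_right C) fun μ => ?_
  rw [norm_mul]
  gcongr
  simpa using h (ν - μ)

end IsConv

/-- Convolution. -/
noncomputable def conv (a b : (ι → ℤ) → K) (ν : ι → ℤ) : K := ∑' μ, a μ * b (ν - μ)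

lemma summable_double {a b : (ι → ℤ) → K} (ha : IsConv a) (hb : IsConv b) (R : ℝ) (hR : 1 ≤ R) :
    Summable fun p : (ι → ℤ) × (ι → ℤ) => ‖a p.2‖ * ‖b (p.1 - p.2)‖ * R ^ len p.1 := by
  have h := (ha R).mul_of_nonneg (hb R) (fun ν => IsConv.nonneg_term (by positivity) a ν)
    (fun ν => IsConv.nonneg_term (by positivity) b ν)
  let e : (ι → ℤ) × (ι → ℤ) ≃ (ι → ℤ) × (ι → ℤ) :=
    { toFun := fun p => (p.2, p.1 - p.2)
      invFun := fun p => (p.2 + p.1, p.1)
      left_inv := fun p => by simp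
      right_inv := fun p => by simp }
  have h' := e.summable_iff.mpr h
  refine Summable.of_nonneg_of_le (fun p => by positivity) (fun p => ?_) h'
  have : len p.1 ≤ len p.2 + len (p.1 - p.2) := by
    have := len_add p.2 (p.1 - p.2)
    simpa using this
  calc ‖a p.2‖ * ‖b (p.1 - p.2)‖ * R ^ len p.1
      ≤ ‖a p.2‖ * ‖b (p.1 - p.2)‖ * R ^ (len p.2 + len (p.1 - p.2)) := by
        gcongr
    _ = _ := by
        simp only [Function.comp, e, Equiv.coe_fn_mk]
        rw [pow_add]
        ring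

lemma isConv_conv [CompleteSpace K] {a b : (ι → ℤ) → K} (ha : IsConv a) (hb : IsConv b) :
    IsConv (conv a b) := by
  refine IsConv.of_nonneg fun R hR => ?_
  have h := summable_double ha hb R hR
  have h1 := h.prod
  refine Summable.of_nonneg_of_le (fun ν => by positivity) (fun ν => ?_) h1
  change ‖conv a b ν‖ * R ^ len ν ≤ ∑' μ, ‖a μ‖ * ‖b (ν - μ)‖ * R ^ len ν
  rw [tsum_mul_right]
  gcongr
  refine (norm_tsum_le_tsum_norm ?_).trans (le_of_eq (by simp [norm_mul]))
  obtain ⟨C, hC, hb'⟩ := hb.bdd 1 zero_le_one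
  refine Summable.of_nonneg_of_le (fun _ => norm_nonneg _) (fun μ => ?_) (ha.norm.mul_right C)
  rw [norm_mul]
  gcongr
  simpa using hb' (ν - μ)

lemma conv_comm (a b : (ι → ℤ) → K) : conv a b = conv b a := by
  funext ν
  unfold conv
  rw [← (Equiv.subLeft ν).tsum_eq]
  refine tsum_congr fun μ => ?_
  simp [mul_comm]

lemma conv_add [CompleteSpace K] {a b c : (ι → ℤ) → K} (ha : IsConv a) (hb : IsConv b)
    (hc : IsConv c) : conv a (b + c) = conv a b + conv a c := by
  funext ν
  unfold conv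
  rw [Pi.add_apply, ← (ha.summable_conv hb ν).tsum_add (ha.summable_conv hc ν)]
  refine tsum_congr fun μ => ?_
  simp [mul_add]

lemma conv_single [DecidableEq (ι → ℤ)] (a : (ι → ℤ) → K) (κ : ι → ℤ) (c : K) (ν : ι → ℤ) :
    conv (Pi.single κ c) a ν = c * a (ν - κ) := by
  unfold conv
  rw [tsum_eq_single κ fun μ hμ => by simp [Pi.single_eq_of_ne hμ]]
  simp

lemma conv_assoc [CompleteSpace K] {a b c : (ι → ℤ) → K} (ha : IsConv a) (hb : IsConv b)
    (hc : IsConv c) : conv (conv a b) c = conv a (conv b c) := by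
  funext ν
  unfold conv
  obtain ⟨C, hC, hc'⟩ := hc.bdd 1 zero_le_one
  have hs : Summable (Function.uncurry fun μ κ : ι → ℤ => a κ * b (μ - κ) * c (ν - μ)) := by
    have h := (summable_double ha hb 1 le_rfl).mul_right C
    refine Summable.of_norm_bounded h fun p => ?_
    simp only [Function.uncurry, norm_mul, one_pow, mul_one]
    gcongr
    simpa using hc' (ν - p.1)
  calc ∑' μ, (∑' κ, a κ * b (μ - κ)) * c (ν - μ)
      = ∑' μ, ∑' κ, a κ * b (μ - κ) * c (ν - μ) := tsum_congr fun μ => by rw [tsum_mul_right]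
    _ = ∑' κ, ∑' μ, a κ * b (μ - κ) * c (ν - μ) := hs.tsum_comm.symm
    _ = ∑' κ, a κ * ∑' l, b l * c (ν - κ - l) := by
        refine tsum_congr fun κ => ?_
        rw [← tsum_mul_left, ← (Equiv.addRight κ).tsum_eq]
        refine tsum_congr fun l => ?_
        simp only [Equiv.coe_addRight, add_sub_cancel_right]
        rw [mul_assoc, sub_sub, add_comm κ l]

variable (K ι) in
/-- The everywhere convergent Laurent series. -/
def Lau : Type (max u v) := {a : (ι → ℤ) → K // IsConv a}

namespace Lau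

/-- The coefficients. -/
def coeff (f : Lau K ι) : (ι → ℤ) → K := f.1

lemma conv' (f : Lau K ι) : IsConv f.coeff := f.2

@[ext] lemma ext {f g : Lau K ι} (h : ∀ ν, f.coeff ν = g.coeff ν) : f = g :=
  Subtype.ext (funext h)

instance : Zero (Lau K ι) := ⟨⟨0, IsConv.zero⟩⟩
instance : Add (Lau K ι) := ⟨fun f g => ⟨f.coeff + g.coeff, f.conv'.add g.conv'⟩⟩
instance : Neg (Lau K ι) := ⟨fun f => ⟨-f.coeff, f.conv'.neg⟩⟩

@[simp] lemma coeff_zero (ν : ι → ℤ) : (0 : Lau K ι).coeff ν = 0 := rfl
@[simp] lemma coeff_add (f g : Lau K ι) (ν : ι → ℤ) :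
    (f + g).coeff ν = f.coeff ν + g.coeff ν := rfl
@[simp] lemma coeff_neg (f : Lau K ι) (ν : ι → ℤ) : (-f).coeff ν = -f.coeff ν := rfl

instance : AddCommGroup (Lau K ι) where
  add_assoc f g h := ext fun ν => by simp [add_assoc]
  zero_add f := ext fun ν => by simp
  add_zero f := ext fun ν => by simp
  add_comm f g := ext fun ν => by simp [add_comm]
  neg_add_cancel f := ext fun ν => by simp
  nsmul := nsmulRec
  zsmul := zsmulRec

open Classical in
/-- The monomial `c z ^ ν`. -/
noncomputable def mono (ν : ι → ℤ) (c : K) : Lau K ι := ⟨Pi.single ν c, IsConv.single ν c⟩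

open Classical in
lemma coeff_mono (ν μ : ι → ℤ) (c : K) : (mono ν c).coeff μ = if μ = ν then c else 0 := by
  change (Pi.single ν c : (ι → ℤ) → K) μ = _
  rw [Pi.single_apply]

variable [CompleteSpace K]

noncomputable instance : Mul (Lau K ι) :=
  ⟨fun f g => ⟨conv f.coeff g.coeff, isConv_conv f.conv' g.conv'⟩⟩

noncomputable instance : One (Lau K ι) := ⟨mono 0 1⟩

lemma coeff_mul (f g : Lau K ι) (ν : ι → ℤ) :
    (f * g).coeff ν = ∑' μ, f.coeff μ * g.coeff (ν - μ) := rfl

lemma summable_mul (f g : Lau K ι) (ν : ι → ℤ) :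
    Summable fun μ => f.coeff μ * g.coeff (ν - μ) := f.conv'.summable_conv g.conv' ν

lemma mono_mul (κ : ι → ℤ) (c : K) (f : Lau K ι) (ν : ι → ℤ) :
    (mono κ c * f).coeff ν = c * f.coeff (ν - κ) := by
  classical
  have := conv_single f.coeff κ c ν
  rw [← this]
  change conv (mono κ c).coeff f.coeff ν = _
  congr 1

lemma mul_comm' (f g : Lau K ι) : f * g = g * f :=
  ext fun ν => congrFun (conv_comm f.coeff g.coeff) ν

lemma mul_assoc' (f g h : Lau K ι) : f * g * h = f * (g * h) :=
  ext fun ν => congrFun (conv_assoc f.conv' g.conv' h.conv') ν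

lemma mul_add' (f g h : Lau K ι) : f * (g + h) = f * g + f * h :=
  ext fun ν => congrFun (conv_add f.conv' g.conv' h.conv') ν

lemma one_mul' (f : Lau K ι) : 1 * f = f := ext fun ν => by
  have := mono_mul (0 : ι → ℤ) (1 : K) f ν
  rw [sub_zero, one_mul] at this
  exact this

noncomputable instance : CommRing (Lau K ι) where
  __ := (inferInstance : AddCommGroup (Lau K ι))
  mul_assoc := mul_assoc'
  one_mul := one_mul'
  mul_one f := by rw [mul_comm', one_mul']
  mul_comm := mul_comm'
  left_distrib := mul_add'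
  right_distrib f g h := by rw [mul_comm', mul_add', mul_comm' h f, mul_comm' h g]
  zero_mul f := ext fun ν => by simp [coeff_mul]
  mul_zero f := ext fun ν => by simp [coeff_mul]

lemma one_def : (1 : Lau K ι) = mono 0 1 := rfl

lemma mono_mul_mono (κ ν : ι → ℤ) (c d : K) :
    (mono κ c * mono ν d : Lau K ι) = mono (κ + ν) (c * d) := by
  ext μ
  rw [mono_mul, coeff_mono, coeff_mono]
  by_cases h : μ = κ + ν
  · subst h; simp
  · rw [if_neg h, if_neg (fun h' => h (by rw [← h']; simp))]; simp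

/-- The constants. -/
noncomputable def constHom : K →+* Lau K ι where
  toFun c := mono 0 c
  map_one' := rfl
  map_mul' c d := by rw [mono_mul_mono, add_zero]
  map_zero' := by ext ν; rw [coeff_mono]; simp
  map_add' c d := by
    ext ν
    rw [coeff_add, coeff_mono, coeff_mono, coeff_mono]
    split_ifs <;> simp

noncomputable instance : Algebra K (Lau K ι) := constHom.toAlgebra

lemma algebraMap_eq (c : K) : algebraMap K (Lau K ι) c = mono 0 c := rfl

@[simp] lemma coeff_smul (c : K) (f : Lau K ι) (ν : ι → ℤ) : (c • f).coeff ν = c * f.coeff ν := by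
  rw [Algebra.smul_def, algebraMap_eq, mono_mul, sub_zero]

@[simp] lemma coeff_sub (f g : Lau K ι) (ν : ι → ℤ) :
    (f - g).coeff ν = f.coeff ν - g.coeff ν := by
  rw [sub_eq_add_neg, coeff_add, coeff_neg, sub_eq_add_neg]

end Lau

end Pool.Agent.KS6_77
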