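import Mathlib

/-!
# Linear maps whose products of values are constant
-/

set_option linter.unusedSectionVars false

namespace Pool.Agent.KS6_77

universe u v w

variable {K : Type u} {M : Type v} [Field K] [Field M] [Algebra K M] {S : Type w} [Fintype S]

/-- A polynomial over an extension whose values at the points of an infinite field `K` are in `K`
has coefficients in `K`. -/
lemma exists_poly [Infinite K] (p : Polynomial M) (h : ∀ x : K, ∃ y : K,
    p.eval (algebraMap K M x) = algebraMap K M y) :
    ∃ q : Polynomial K, q.map (algebraMap K M) = p := by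
  classical
  choose f hf using h
  obtain ⟨s, hs⟩ := Infinite.exists_subset_card_eq K (p.natDegree + 1)
  refine ⟨Lagrange.interpolate s id f, ?_⟩
  refine Polynomial.eq_of_degrees_lt_of_eval_finset_eq (s.image (algebraMap K M)) ?_ ?_ ?_
  · rw [Finset.card_image_of_injective _ (algebraMap K M).injective, Polynomial.degree_map]
    exact Lagrange.degree_interpolate_lt _ Function.injective_id.injOn
  · rw [Finset.card_image_of_injective _ (algebraMap K M).injective, hs]
    refine lt_of_le_of_lt Polynomial.degree_le_natDegree ?_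
    exact_mod_cast Nat.lt_succ_self _
  · intro x hx
    obtain ⟨a, ha, rfl⟩ := Finset.mem_image.mp hx
    rw [hf a, Polynomial.eval_map, Polynomial.eval₂_at_apply]
    congr 1
    have := Lagrange.eval_interpolate_at_node f (s := s) (v := id) Function.injective_id.injOn ha
    simpa using this

variable [IsAlgClosed K]

lemma ratio_mem (a b : S → M) (ha : ∀ s, a s ≠ 0)
    (h : ∀ x : K, ∃ y : K, ∏ s, (a s + algebraMap K M x * b s) = algebraMap K M y) (s : S) :
    ∃ c : K, b s = algebraMap K M c * a s := by
  classical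
  have : Infinite K := IsAlgClosed.instInfinite
  by_cases hb : b s = 0
  · exact ⟨0, by simp [hb]⟩
  let p : Polynomial M := ∏ s, (Polynomial.C (a s) + Polynomial.X * Polynomial.C (b s))
  obtain ⟨q, hq⟩ := exists_poly (K := K) p (fun x => by
    obtain ⟨y, hy⟩ := h x
    exact ⟨y, by
      rw [← hy]
      simp only [p, Polynomial.eval_prod, Polynomial.eval_add, Polynomial.eval_C,
        Polynomial.eval_mul, Polynomial.eval_X]⟩)
  have hp0 : p ≠ 0 := by
    intro h0
    have : p.eval 0 = 0 := by rw [h0]; simp
    simp only [p, Polynomial.eval_prod, Polynomial.eval_add, Polynomial.eval_C,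
      Polynomial.eval_mul, Polynomial.eval_X, zero_mul, add_zero, Finset.prod_eq_zero_iff] at this
    obtain ⟨t, _, ht⟩ := this
    exact ha t ht
  have hq0 : q ≠ 0 := by
    rintro rfl
    exact hp0 (by rw [← hq]; simp)
  have hroot : p.eval (-(a s) / b s) = 0 := by
    simp only [p, Polynomial.eval_prod, Polynomial.eval_add, Polynomial.eval_C,
      Polynomial.eval_mul, Polynomial.eval_X]
    refine Finset.prod_eq_zero (Finset.mem_univ s) ?_
    field_simp
    ring
  -- the root is in `K`
  have hint : IsAlgebraic K (-(a s) / b s) := ⟨q, hq0, by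
    rw [Polynomial.aeval_def, ← Polynomial.eval_map, hq]
    exact hroot⟩
  obtain ⟨c, hc⟩ : ∃ c : K, algebraMap K M c = -(a s) / b s := by
    have h1 : Algebra.IsAlgebraic K (IntermediateField.adjoin K {-(a s) / b s}) :=
      IntermediateField.isAlgebraic_adjoin_simple hint.isIntegral
    have h2 := IntermediateField.eq_bot_of_isAlgClosed_of_isAlgebraic
      (IntermediateField.adjoin K {-(a s) / b s})
    have h3 : -(a s) / b s ∈ IntermediateField.adjoin K {-(a s) / b s} :=
      IntermediateField.subset_adjoin K _ (Set.mem_singleton _)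
    rw [h2, IntermediateField.mem_bot] at h3
    exact h3
  have hc0 : algebraMap K M c ≠ 0 := by
    rw [hc]
    exact div_ne_zero (neg_ne_zero.mpr (ha s)) hb
  refine ⟨-c⁻¹, ?_⟩
  rw [map_neg, map_inv₀]
  rw [eq_div_iff hb] at hc
  have : a s = - (algebraMap K M c * b s) := by rw [hc]; ring
  rw [this]
  field_simp

/-- Finitely many nonzero vectors over `M` do not vanish at a suitable linear form over `K`. -/
lemma exists_form {J : Type*} [Fintype J] (x : S → J → M) (hx : ∀ s, x s ≠ 0) :
    ∃ l : J → K, ∀ s, ∑ j, algebraMap K M (l j) * x s j ≠ 0 := by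
  classical
  have : Infinite K := IsAlgClosed.instInfinite
  let W : S → Subspace K (J → K) := fun s =>
    LinearMap.ker (∑ j, (LinearMap.toSpanSingleton K M (x s j)).comp (LinearMap.proj j))
  have hW : ∀ s l, l ∈ W s ↔ ∑ j, algebraMap K M (l j) * x s j = 0 := by
    intro s l
    simp [W, LinearMap.mem_ker, LinearMap.sum_apply, Algebra.smul_def]
  have htop : ⊤ ∉ (Finset.univ.image W) := by
    intro h
    obtain ⟨s, _, hs⟩ := Finset.mem_image.mp h
    refine hx s (funext fun j => ?_)
    have : (Pi.single j 1 : J → K) ∈ W s := by rw [hs]; trivial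
    rw [hW] at this
    rw [Finset.sum_eq_single j] at this
    · simpa using this
    · intro i _ hi
      simp [Pi.single_eq_of_ne hi]
    · simp
  have h := Subspace.biUnion_ne_univ_of_top_notMem htop
  obtain ⟨l, hl⟩ := (Set.ne_univ_iff_exists_notMem _).mp h
  refine ⟨l, fun s hs => hl ?_⟩
  rw [Set.mem_iUnion₂]
  exact ⟨W s, Finset.mem_image_of_mem W (Finset.mem_univ s), (hW s l).mpr hs⟩

variable {U : Type*} [AddCommGroup U] [Module K U] {J : Type*} [Fintype J]

/-- The value of a linear form. -/
def pair (l : J → K) (x : J → M) : M := ∑ j, algebraMap K M (l j) * x j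

lemma pair_add_left (l l' : J → K) (x : J → M) : pair (l + l') x = pair l x + pair l' x := by
  simp [pair, add_mul, Finset.sum_add_distrib]

lemma pair_smul_left (c : K) (l : J → K) (x : J → M) :
    pair (c • l) x = algebraMap K M c * pair l x := by
  simp [pair, Finset.mul_sum, mul_assoc]

lemma pair_add_right (l : J → K) (x y : J → M) : pair l (x + y) = pair l x + pair l y := by
  simp [pair, mul_add, Finset.sum_add_distrib]

lemma pair_smul_right (l : J → K) (c : K) (x : J → M) :
    pair l (c • x) = algebraMap K M c * pair l x := by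
  simp only [pair, Finset.mul_sum, Pi.smul_apply, Algebra.smul_def]
  exact Finset.sum_congr rfl fun j _ => by ring

lemma pair_single [DecidableEq J] (j : J) (x : J → M) : pair (Pi.single j (1 : K)) x = x j := by
  unfold pair
  rw [Finset.sum_eq_single j]
  · simp
  · intro i _ hi
    simp [Pi.single_eq_of_ne hi]
  · simp

/-- If all products of values are in `K`, then the images are proportional to vectors over `K`. -/
theorem proportional (φ : S → U →ₗ[K] (J → M)) (hφ : ∀ s, Function.Injective (φ s))
    (h : ∀ (u : U) (l : J → K), ∃ y : K, ∏ s, pair l (φ s u) = algebraMap K M y)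
    (s : S) : ∃ c : M, c ≠ 0 ∧ ∀ u, ∃ x : J → K, ∀ j, φ s u j = algebraMap K M (x j) * c := by
  classical
  have : Infinite K := IsAlgClosed.instInfinite
  by_cases hU : ∀ u : U, u = 0
  · exact ⟨1, one_ne_zero, fun u => ⟨0, fun j => by rw [hU u]; simp⟩⟩
  push Not at hU
  obtain ⟨u₁, hu₁⟩ := hU
  obtain ⟨l₁, hl₁⟩ := exists_form (K := K) (fun s => φ s u₁) (fun s h0 =>
    hu₁ (hφ s (by rw [h0, map_zero])))
  have hl₁' : ∀ s, pair l₁ (φ s u₁) ≠ 0 := hl₁
  -- claim 1
  have c1 : ∀ (l : J → K) (s : S), ∃ c : K, pair l (φ s u₁) =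
      algebraMap K M c * pair l₁ (φ s u₁) := by
    intro l
    refine ratio_mem (fun s => pair l₁ (φ s u₁)) (fun s => pair l (φ s u₁)) hl₁' fun x => ?_
    obtain ⟨y, hy⟩ := h u₁ (l₁ + x • l)
    refine ⟨y, ?_⟩
    rw [← hy]
    exact Finset.prod_congr rfl fun s _ => by rw [pair_add_left, pair_smul_left]
  -- claim 2
  have c2 : ∀ (l : J → K), (∀ s, pair l (φ s u₁) ≠ 0) → ∀ (u : U) (s : S), ∃ c : K,
      pair l (φ s u) = algebraMap K M c * pair l₁ (φ s u₁) := by
    intro l hl u s
    obtain ⟨c, hc⟩ := ratio_mem (fun s => pair l (φ s u₁)) (fun s => pair l (φ s u)) hl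
      (fun (x : K) => by
        obtain ⟨y, hy⟩ := h (u₁ + x • u) l
        refine ⟨y, ?_⟩
        rw [← hy]
        exact Finset.prod_congr rfl fun s _ => by
          rw [map_add, map_smul, pair_add_right, pair_smul_right]) s
    obtain ⟨d, hd⟩ := c1 l s
    refine ⟨c * d, ?_⟩
    change pair l (φ s u) = algebraMap K M c * pair l (φ s u₁) at hc
    rw [hc, hd, map_mul]
    ring
  -- all linear forms
  have c3 : ∀ (l : J → K) (u : U) (s : S), ∃ c : K,
      pair l (φ s u) = algebraMap K M c * pair l₁ (φ s u₁) := by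
    intro l u s
    -- a good multiple
    obtain ⟨e, he0, he⟩ : ∃ e : K, e ≠ 0 ∧ ∀ t, pair (l₁ + e • l) (φ t u₁) ≠ 0 := by
      choose d hd using c1 l
      have hfin : (({0} ∪ Finset.univ.image fun t => -(d t)⁻¹ : Finset K) : Set K) ≠ Set.univ := by
        intro h0
        exact Set.infinite_univ (α := K) (h0 ▸ Finset.finite_toSet _)
      obtain ⟨e, he⟩ := (Set.ne_univ_iff_exists_notMem _).mp hfin
      simp only [Finset.coe_union, Finset.coe_singleton, Finset.coe_image, Finset.coe_univ,
        Set.image_univ, Set.mem_union, Set.mem_singleton_iff, Set.mem_range, not_or,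
        not_exists] at he
      refine ⟨e, he.1, fun t h0 => ?_⟩
      rw [pair_add_left, pair_smul_left, hd t, ← mul_assoc, ← one_add_mul, mul_eq_zero] at h0
      rcases h0 with h0 | h0
      · rw [← map_mul, ← map_one (algebraMap K M), ← map_add, map_eq_zero] at h0
        have hdt : d t ≠ 0 := by
          intro h1
          rw [h1] at h0
          simp at h0
        refine he.2 t ?_
        have : e = -(d t)⁻¹ := by
          field_simp
          linear_combination h0
        exact this.symm
      · exact hl₁' t h0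
    obtain ⟨c, hc⟩ := c2 _ he u s
    obtain ⟨c', hc'⟩ := c2 l₁ hl₁' u s
    refine ⟨e⁻¹ * (c - c'), ?_⟩
    rw [pair_add_left, pair_smul_left, hc'] at hc
    have he1 : algebraMap K M e ≠ 0 := by simpa using he0
    rw [map_mul, map_inv₀, map_sub]
    field_simp
    linear_combination hc
  refine ⟨pair l₁ (φ s u₁), hl₁' s, fun u => ?_⟩
  choose x hx using fun j => c3 (Pi.single j 1) u s
  exact ⟨x, fun j => by rw [← hx j, pair_single]⟩

/-- If all products of values vanish, then one of the maps vanishes. -/
theorem exists_vanish (J' : Set J) (φ : S → U →ₗ[K] (J → M))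
    (h : ∀ (u : U) (l : J → K), (∀ j ∉ J', l j = 0) → ∏ s, pair l (φ s u) = 0) :
    ∃ s, ∀ u, ∀ j ∈ J', φ s u j = 0 := by
  classical
  have : Infinite K := IsAlgClosed.instInfinite
  by_contra hcon
  push Not at hcon
  let W : S → Subspace K U := fun s =>
    LinearMap.ker ((LinearMap.funLeft K M (Subtype.val : J' → J)).comp (φ s))
  have hW : ∀ s u, u ∈ W s ↔ ∀ j ∈ J', φ s u j = 0 := by
    intro s u
    simp only [W, LinearMap.mem_ker, LinearMap.comp_apply]
    constructor
    · intro h0 j hj
      exact congrFun h0 ⟨j, hj⟩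
    · intro h0
      funext j
      exact h0 j j.2
  have htop : ⊤ ∉ (Finset.univ.image W) := by
    intro h0
    obtain ⟨s, _, hs⟩ := Finset.mem_image.mp h0
    obtain ⟨u, j, hj, hne⟩ := hcon s
    have : u ∈ W s := by rw [hs]; trivial
    exact hne ((hW s u).mp this j hj)
  obtain ⟨u, hu⟩ := (Set.ne_univ_iff_exists_notMem _).mp
    (Subspace.biUnion_ne_univ_of_top_notMem htop)
  have hu' : ∀ s, u ∉ W s := fun s hs => hu (by
    rw [Set.mem_iUnion₂]
    exact ⟨W s, Finset.mem_image_of_mem W (Finset.mem_univ s), hs⟩)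
  obtain ⟨l, hl⟩ := exists_form (K := K) (fun s => fun j : J' => φ s u j) (fun s h0 =>
    hu' s ((hW s u).mpr fun j hj => congrFun h0 ⟨j, hj⟩))
  refine Finset.prod_ne_zero_iff.mpr (fun s _ => ?_)
    (h u (fun j => if hj : j ∈ J' then l ⟨j, hj⟩ else 0) (fun j hj => by simp [hj]))
  have h2 := hl s
  unfold pair
  have h3 : ∑ j, algebraMap K M (if hj : j ∈ J' then l ⟨j, hj⟩ else 0) * φ s u j =
      ∑ j, if hj : j ∈ J' then algebraMap K M (l ⟨j, hj⟩) * φ s u j else 0 := by
    refine Finset.sum_congr rfl fun j _ => ?_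
    split_ifs <;> simp
  rw [h3, Finset.sum_dite]
  simp only [Finset.sum_const_zero, add_zero]
  intro h4
  apply h2
  rw [← h4]
  refine Finset.sum_bij (fun j _ => ⟨j, by simp⟩) (by simp) (by simp) (by simp) (by simp)

end Pool.Agent.KS6_77
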