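import Pool.Agent.KS6_77.AnRing

/-!
# Meromorphic functions: derivations and Gauss valuations
-/

open Filter Topology
open scoped NNReal TensorProduct

set_option linter.unusedSectionVars false

namespace Pool.Agent.KS6_77

universe u v w

section ext

variable {K : Type u} {A : Type v} {M : Type w} [CommRing K] [CommRing A] [IsDomain A] [Field M]
  [Algebra K A] [Algebra K M] [Algebra A M] [IsScalarTower K A M] [IsFractionRing A M]

/-- The extension of a derivation to the field of fractions. -/
theorem exists_extDer (d : Derivation K A M) :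
    ∃ D : Derivation K M M, ∀ a : A, D (algebraMap A M a) = d a := by
  have : Algebra.FormallyEtale A M := Algebra.FormallyEtale.of_isLocalization (nonZeroDivisors A)
  let e := KaehlerDifferential.tensorKaehlerEquivOfFormallyEtale K A M
  let l : M ⊗[A] Ω[A⁄K] →ₗ[M] M := LinearMap.liftBaseChange M d.liftKaehlerDifferential
  refine ⟨(l ∘ₗ e.symm.toLinearMap).compDer (KaehlerDifferential.D K M), fun a => ?_⟩
  change l (e.symm (KaehlerDifferential.D K M (algebraMap A M a))) = d a
  rw [KaehlerDifferential.tensorKaehlerEquivOfFormallyEtale_symm_D_algebraMap]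
  simp [l]

end ext

section

variable {K : Type u} [NontriviallyNormedField K] [IsUltrametricDist K] [CompleteSpace K]
  {ι : Type v} [Fintype ι] {v : Set ι}

lemma gaussVal_ne (r : ι → ℝ≥0ˣ) {f : Lau K ι} (hf : f ≠ 0) : gaussVal K r f ≠ 0 :=
  fun h => hf (gauss_eq_zero h)

lemma gaussVal_supp (r : ι → ℝ≥0ˣ) :
    nonZeroDivisors (Lau K ι) ≤ (gaussVal K r).supp.primeCompl := by
  intro f hf h
  exact gaussVal_ne r (nonZeroDivisors.ne_zero hf) h

variable {M : Type*} [Field M] [Algebra K M] [Algebra (Lau K ι) M] [IsScalarTower K (Lau K ι) M]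
  [IsFractionRing (Lau K ι) M]

variable (M) in
lemma toM_ne {f : Lau K ι} (hf : f ≠ 0) : algebraMap (Lau K ι) M f ≠ 0 := by
  intro h0
  exact hf (IsFractionRing.injective (Lau K ι) M (by rw [h0, map_zero]))

theorem exists_dMer (K : Type u) [NontriviallyNormedField K] [IsUltrametricDist K]
    [CompleteSpace K] {ι : Type v} [Fintype ι] (v : Set ι) (M : Type*) [Field M] [Algebra K M]
    [Algebra (Lau K ι) M] [IsScalarTower K (Lau K ι) M] [IsFractionRing (Lau K ι) M] (i : ι) :
    ∃ D : Derivation K M M, ∀ f : Lau K ι,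
      D (algebraMap (Lau K ι) M f) = algebraMap (Lau K ι) M (dLau v i f) := by
  obtain ⟨D, hD⟩ := exists_extDer (M := M) ((Algebra.linearMap (Lau K ι) M).compDer (dLau v i))
  exact ⟨D, fun f => hD f⟩

/-- The Gauss valuation on meromorphic functions. -/
noncomputable def merVal (K : Type u) [NontriviallyNormedField K] [IsUltrametricDist K]
    [CompleteSpace K] {ι : Type v} [Fintype ι] (M : Type*) [Field M] [Algebra (Lau K ι) M]
    [IsFractionRing (Lau K ι) M] (r : ι → ℝ≥0ˣ) : Valuation M ℝ≥0 :=
  (gaussVal K r).extendToLocalization (gaussVal_supp r) M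

lemma merVal_toM (r : ι → ℝ≥0ˣ) (f : Lau K ι) :
    merVal K M r (algebraMap (Lau K ι) M f) = gauss r f :=
  ((gaussVal K r).extendToLocalization_apply_map_apply (gaussVal_supp r) M f).trans
    (gaussVal_apply r f)

lemma merVal_const (r : ι → ℝ≥0ˣ) (c : K) :
    merVal K M r (algebraMap K M c) = ‖c‖₊ := by
  rw [IsScalarTower.algebraMap_apply K (Lau K ι) M, merVal_toM]
  exact gauss_algebraMap r c

/-- The lemma on the logarithmic derivative. -/
lemma merVal_der (r : ι → ℝ≥0ˣ) (i : ι) (D : Derivation K M M)
    (hD : ∀ f : Lau K ι, D (algebraMap (Lau K ι) M f) = algebraMap (Lau K ι) M (dLau v i f))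
    (x : M) : merVal K M r (D x) ≤ siz v r i * merVal K M r x := by
  obtain ⟨a, b, hb, rfl⟩ := IsFractionRing.div_surjective (A := Lau K ι) x
  have hb0 : b ≠ 0 := nonZeroDivisors.ne_zero hb
  have hb1 : algebraMap (Lau K ι) M b ≠ 0 := toM_ne M hb0
  have hb2 : gauss r b ≠ 0 := gaussVal_ne r hb0
  rw [Derivation.leibniz_div, smul_eq_mul, smul_eq_mul, smul_eq_mul, map_mul, map_div₀,
    hD, hD, map_pow, map_inv₀, merVal_toM, merVal_toM]
  have h1 : merVal K M r (algebraMap (Lau K ι) M b * algebraMap (Lau K ι) M (dLau v i a) -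
      algebraMap (Lau K ι) M a * algebraMap (Lau K ι) M (dLau v i b)) ≤
      siz v r i * (gauss r a * gauss r b) := by
    refine (Valuation.map_sub _ _ _).trans (max_le ?_ ?_)
    · rw [map_mul, merVal_toM, merVal_toM]
      calc gauss r b * gauss r (dLau v i a) ≤ gauss r b * (siz v r i * gauss r a) := by
            gcongr; exact gauss_dLau v r i _
        _ = _ := by ring
    · rw [map_mul, merVal_toM, merVal_toM]
      calc gauss r a * gauss r (dLau v i b) ≤ gauss r a * (siz v r i * gauss r b) := by
            gcongr; exact gauss_dLau v r i _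
        _ = _ := by ring
  calc _ ≤ (gauss r b)⁻¹ ^ 2 * (siz v r i * (gauss r a * gauss r b)) := by
        gcongr
    _ = _ := by
        field_simp

end

end Pool.Agent.KS6_77
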