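import Mathlib

/-!
# Norms of sums of products, as forms with integral coefficients
-/

set_option linter.unusedSectionVars false

namespace Pool.Agent.KS6_77

universe u v w

/-- A polynomial with coefficients in an extension of an infinite field `K`, whose values at
points over `K` are in a subspace, has coefficients in that subspace. -/
lemma coeff_mem_of_eval {K : Type*} {M : Type*} [Field K] [Field M] [Algebra K M] [Infinite K]
    {τ : Type*} (W : Submodule K M) (P : MvPolynomial τ M)
    (h : ∀ x : τ → K, MvPolynomial.eval (fun t => algebraMap K M (x t)) P ∈ W) (m : τ →₀ ℕ) :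
    P.coeff m ∈ W := by
  classical
  by_contra hm
  obtain ⟨f, hf0, hf⟩ := Submodule.exists_le_ker_of_notMem hm
  have hfW : ∀ y ∈ W, f y = 0 := fun y hy => hf hy
  let Pf : MvPolynomial τ K := ∑ k ∈ P.support, MvPolynomial.monomial k (f (P.coeff k))
  have h0 : Pf = 0 := by
    refine MvPolynomial.funext fun x => ?_
    rw [map_zero, map_sum]
    have := hfW _ (h x)
    rw [MvPolynomial.eval_eq, map_sum] at this
    rw [← this]
    refine Finset.sum_congr rfl fun k _ => ?_
    rw [MvPolynomial.eval_monomial, Finsupp.prod]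
    simp only [← map_pow, ← map_prod]
    rw [mul_comm (MvPolynomial.coeff k P), ← Algebra.smul_def, map_smul, smul_eq_mul, mul_comm]
  have : Pf.coeff m = f (P.coeff m) := by
    simp only [Pf, MvPolynomial.coeff_sum, MvPolynomial.coeff_monomial, Finset.sum_ite_eq']
    split_ifs with h1
    · rfl
    · rw [MvPolynomial.notMem_support_iff.mp h1, map_zero]
  rw [h0, MvPolynomial.coeff_zero] at this
  exact hf0 this.symm

variable {K : Type*} {L : Type*} {L' : Type*} {E : Type*} [Field K] [Field L] [Field L'] [Field E]
  [Algebra K L] [Algebra K L'] [Algebra L L'] [IsScalarTower K L L']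
  [Algebra K E] [Algebra L E] [IsScalarTower K L E] [Infinite K] [FiniteDimensional L L']
  [Algebra.IsSeparable L L'] [IsAlgClosed E]

/-- The norm of a sum `∑ b t * X t` is a form in the variables with coefficients in a given
integrally closed ring, if all `b t` are integral over that ring. -/
theorem norm_form (A : Subalgebra K L) (hA : ∀ x : L, IsIntegral A x → x ∈ A)
    {τ : Type*} [Fintype τ] (b : τ → L') (hb : ∀ t, IsIntegral A (b t)) :
    ∃ (F : Finset (τ →₀ ℕ)) (c : (τ →₀ ℕ) → L), (∀ m, c m ∈ A) ∧
      (∀ m ∈ F, m.degree = Fintype.card (L' →ₐ[L] E)) ∧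
      ∀ x : τ → E, ∏ s : L' →ₐ[L] E, ∑ t, s (b t) * x t =
        ∑ m ∈ F, algebraMap L E (c m) * ∏ t, x t ^ m t := by
  classical
  let P : MvPolynomial τ E := ∏ s : L' →ₐ[L] E, ∑ t, MvPolynomial.C (s (b t)) * MvPolynomial.X t
  have hev : ∀ x : τ → E, MvPolynomial.eval x P = ∏ s : L' →ₐ[L] E, ∑ t, s (b t) * x t := by
    intro x
    simp only [P, map_prod, map_sum, map_mul, MvPolynomial.eval_C, MvPolynomial.eval_X]
  have hhom : P.IsHomogeneous (Fintype.card (L' →ₐ[L] E)) := by
    have : P.IsHomogeneous (∑ s : L' →ₐ[L] E, 1) := by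
      refine MvPolynomial.IsHomogeneous.prod _ _ _ fun s _ => ?_
      refine MvPolynomial.IsHomogeneous.sum _ _ _ fun t _ => ?_
      exact MvPolynomial.isHomogeneous_C_mul_X _ _
    simpa using this
  have hW : ∀ m, P.coeff m ∈ (A.toSubmodule.map (IsScalarTower.toAlgHom K L E).toLinearMap) := by
    refine coeff_mem_of_eval _ P fun y => ?_
    rw [hev]
    have h1 : ∏ s : L' →ₐ[L] E, ∑ t, s (b t) * algebraMap K E (y t) =
        algebraMap L E (Algebra.norm L (∑ t, y t • b t)) := by
      rw [Algebra.norm_eq_prod_embeddings L E]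
      refine Finset.prod_congr rfl fun s _ => ?_
      rw [map_sum]
      refine Finset.sum_congr rfl fun t _ => ?_
      rw [← algebraMap_smul L (y t) (b t), map_smul, Algebra.smul_def,
        ← IsScalarTower.algebraMap_apply, mul_comm]
    rw [h1]
    refine ⟨Algebra.norm L (∑ t, y t • b t), ?_, rfl⟩
    refine hA _ (Algebra.isIntegral_norm L ?_)
    refine IsIntegral.sum _ fun t _ => ?_
    have h2 : y t • b t = algebraMap A L' (algebraMap K A (y t)) * b t := by
      rw [← IsScalarTower.algebraMap_apply, Algebra.smul_def]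
    rw [h2]
    exact isIntegral_algebraMap.mul (hb t)
  choose c hc using hW
  refine ⟨P.support, c, fun m => (hc m).1, fun m hm => ?_, fun x => ?_⟩
  · have := hhom (MvPolynomial.mem_support_iff.mp hm)
    rw [← this, Finsupp.degree_eq_weight_one]
    rfl
  · rw [← hev, MvPolynomial.eval_eq']
    refine Finset.sum_congr rfl fun m _ => ?_
    rw [← (hc m).2]
    rfl

end Pool.Agent.KS6_77
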