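import Pool.Agent.KS6_77.Mer
import Pool.Agent.KS6_77.Forms
import Pool.Agent.KS6_77.Norm
import Pool.Agent.KS6_77.LinAlg

/-!
# Charts and poles
-/

open scoped NNReal TensorProduct

set_option linter.unusedSectionVars false

namespace Pool.Agent.KS6_77

universe u v w x

/-- A meromorphic function `f / g` which becomes analytic after multiplication with a power of each
`h i` is analytic. -/
def Big {K : Type u} [NontriviallyNormedField K] [IsUltrametricDist K] [CompleteSpace K]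
    {ι : Type v} [Fintype ι] (v : Set ι) {J : Type w} (h : J → Lau K ι) : Prop :=
  ∀ f ∈ An K v, ∀ g ∈ An K v, (∀ i, ∃ e : ℕ, ∃ q ∈ An K v, f * h i ^ e = g * q) →
    ∃ q ∈ An K v, f = g * q

variable {K : Type u} [NontriviallyNormedField K] [IsUltrametricDist K] [CompleteSpace K]
  {ι : Type v} [Fintype ι] {v : Set ι} {J : Type w}
  {M : Type*} [Field M] [Algebra K M] [Algebra (Lau K ι) M] [IsScalarTower K (Lau K ι) M]
  [IsFractionRing (Lau K ι) M]
  {L : Type*} [Field L] [Algebra K L] [Algebra L M] [IsScalarTower K L M]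

/-- The coordinate ring of the affine chart `x i ≠ 0` of the Zariski closure of the image. -/
noncomputable def chart (M : Type*) [Field M] [Algebra K M] [Algebra (Lau K ι) M]
    (L : Type*) [Field L] [Algebra K L] [Algebra L M]
    (h : J → Lau K ι) (i : J) : Subalgebra K L :=
  Algebra.adjoin K {x | ∃ j, algebraMap L M x = algebraMap (Lau K ι) M (h j) /
    algebraMap (Lau K ι) M (h i)}

/-- The polar ring. -/
noncomputable def polar (v : Set ι) (M : Type*) [Field M] [Algebra K M] [Algebra (Lau K ι) M]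
    [IsScalarTower K (Lau K ι) M] (a : An K v) : Subalgebra K M where
  carrier := {x | ∃ (e : ℕ) (g : An K v), x * algebraMap (Lau K ι) M a ^ e =
    algebraMap (Lau K ι) M g}
  mul_mem' := by
    rintro x y ⟨e, g, hg⟩ ⟨e', g', hg'⟩
    refine ⟨e + e', g * g', ?_⟩
    rw [MulMemClass.coe_mul, map_mul, ← hg, ← hg', pow_add]
    ring
  add_mem' := by
    rintro x y ⟨e, g, hg⟩ ⟨e', g', hg'⟩
    refine ⟨e + e', g * a ^ e' + g' * a ^ e, ?_⟩
    rw [AddMemClass.coe_add, MulMemClass.coe_mul, MulMemClass.coe_mul, SubmonoidClass.coe_pow,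
      SubmonoidClass.coe_pow, map_add, map_mul, map_mul, ← hg, ← hg', pow_add, map_pow, map_pow]
    ring
  algebraMap_mem' c := ⟨0, algebraMap K _ c, by
    rw [pow_zero, mul_one]
    exact IsScalarTower.algebraMap_apply K (Lau K ι) M c⟩

lemma polar_ratio (a b : An K v) (ha : (a : Lau K ι) ≠ 0) :
    algebraMap (Lau K ι) M b / algebraMap (Lau K ι) M a ∈ polar v M a :=
  ⟨1, b, by rw [pow_one, div_mul_cancel₀ _ (toM_ne M ha)]⟩

lemma polar_der (a : An K v) (i : ι) (D : Derivation K M M)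
    (hD : ∀ f : Lau K ι, D (algebraMap (Lau K ι) M f) = algebraMap (Lau K ι) M (dLau v i f))
    {x : M} (hx : x ∈ polar v M a) : D x ∈ polar v M a := by
  obtain ⟨e, g, hg⟩ := hx
  have h1 := congrArg D hg
  rw [Derivation.leibniz, Derivation.leibniz_pow, hD, hD] at h1
  simp only [smul_eq_mul, nsmul_eq_mul] at h1
  refine ⟨e + 1, ⟨dLau v i g, dLau_An i g.2⟩ * a - e * g * ⟨dLau v i a, dLau_An i a.2⟩, ?_⟩
  have h2 : (((⟨dLau v i g, dLau_An i g.2⟩ * a - e * g * ⟨dLau v i a, dLau_An i a.2⟩ : An K v)) :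
      Lau K ι) = dLau v i (g : Lau K ι) * (a : Lau K ι) -
        (e : Lau K ι) * (g : Lau K ι) * dLau v i (a : Lau K ι) := by
    push_cast
    rfl
  rw [h2, map_sub, map_mul, map_mul, map_mul, ← h1, ← hg, map_natCast]
  rcases e with _ | e
  · simp
  · rw [Nat.add_sub_cancel]
    ring

variable {h : J → Lau K ι} (hA : ∀ j, h j ∈ An K v)

include hA in
lemma chart_polar (i : J) (hi : h i ≠ 0) (x : L) (hx : x ∈ chart M L h i) :
    algebraMap L M x ∈ polar v M ⟨h i, hA i⟩ := by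
  have h1 : chart M L h i ≤ (polar v M ⟨h i, hA i⟩).comap (IsScalarTower.toAlgHom K L M) := by
    refine Algebra.adjoin_le ?_
    rintro x ⟨j, hj⟩
    change algebraMap L M x ∈ polar v M ⟨h i, hA i⟩
    rw [hj]
    exact polar_ratio (v := v) ⟨h i, hA i⟩ ⟨h j, hA j⟩ hi
  exact h1 hx

/-- Functions on a chart are bounded on the part of the group where the coordinate of the chart
is the largest one. -/
lemma chart_bdd (i : J) (x : L) (hx : x ∈ chart M L h i) :
    ∃ C : ℝ≥0, ∀ r : ι → ℝ≥0ˣ, (∀ j, gauss r (h j) ≤ gauss r (h i)) →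
      merVal K M r (algebraMap L M x) ≤ C := by
  refine Algebra.adjoin_induction (s := {x : L | ∃ j, algebraMap L M x =
    algebraMap (Lau K ι) M (h j) / algebraMap (Lau K ι) M (h i)})
    (p := fun x _ => ∃ C : ℝ≥0, ∀ r : ι → ℝ≥0ˣ,
      (∀ j, gauss r (h j) ≤ gauss r (h i)) →
      merVal K M r (algebraMap L M x) ≤ C) ?_ ?_ ?_ ?_ hx
  · rintro x ⟨j, hj⟩
    refine ⟨1, fun r hr => ?_⟩
    rw [hj, map_div₀, merVal_toM, merVal_toM]
    exact div_le_one_of_le₀ (hr j) (by positivity)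
  · intro c
    refine ⟨‖c‖₊, fun r hr => ?_⟩
    rw [← IsScalarTower.algebraMap_apply, merVal_const]
  · rintro x y _ _ ⟨C, hC⟩ ⟨C', hC'⟩
    refine ⟨max C C', fun r hr => ?_⟩
    rw [map_add]
    exact (Valuation.map_add _ _ _).trans (max_le_max (hC r hr) (hC' r hr))
  · rintro x y _ _ ⟨C, hC⟩ ⟨C', hC'⟩
    refine ⟨C * C', fun r hr => ?_⟩
    rw [map_mul, map_mul]
    exact mul_le_mul' (hC r hr) (hC' r hr)

lemma Big.exists_ne (hB : Big v h) : ∃ i, h i ≠ 0 := by
  by_contra hcon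
  push Not at hcon
  obtain ⟨q, -, hq⟩ := hB 1 (An K v).one_mem 0 (An K v).zero_mem fun i =>
    ⟨1, 0, (An K v).zero_mem, by rw [hcon i]; simp⟩
  rw [zero_mul] at hq
  exact one_ne_zero hq

include hA in
lemma big_mem (hB : Big v h) (p : M) (hp : ∀ i, h i ≠ 0 → p ∈ polar v M ⟨h i, hA i⟩) :
    ∃ g : An K v, p = algebraMap (Lau K ι) M g := by
  obtain ⟨i₀, hi₀⟩ := hB.exists_ne
  obtain ⟨e₀, g₀, hg₀⟩ := hp i₀ hi₀
  have hb1 : algebraMap (Lau K ι) M (h i₀) ≠ 0 := toM_ne M hi₀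
  obtain ⟨q, hqA, hq⟩ := hB g₀ g₀.2 (h i₀ ^ e₀) (pow_mem (hA i₀) e₀) (fun i => by
    by_cases hi : h i = 0
    · exact ⟨1, 0, (An K v).zero_mem, by rw [hi]; simp⟩
    · obtain ⟨e, g, hg⟩ := hp i hi
      refine ⟨e, g, g.2, ?_⟩
      apply IsFractionRing.injective (Lau K ι) M
      rw [map_mul, map_mul, map_pow, map_pow, ← hg, ← hg₀]
      ring)
  refine ⟨⟨q, hqA⟩, ?_⟩
  have h2 : p * algebraMap (Lau K ι) M (h i₀) ^ e₀ =
      algebraMap (Lau K ι) M (h i₀) ^ e₀ * algebraMap (Lau K ι) M q := by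
    rw [hg₀, hq, map_mul, map_pow]
  have h3 : algebraMap (Lau K ι) M (h i₀) ^ e₀ ≠ 0 := pow_ne_zero _ hb1
  have h4 : p * algebraMap (Lau K ι) M (h i₀) ^ e₀ =
      algebraMap (Lau K ι) M q * algebraMap (Lau K ι) M (h i₀) ^ e₀ := by rw [h2, mul_comm]
  exact mul_right_cancel₀ h3 h4

lemma exists_max (hB : Big v h) [Fintype J] (r : ι → ℝ≥0ˣ) : ∃ i, h i ≠ 0 ∧
    ∀ j, gauss r (h j) ≤ gauss r (h i) := by
  obtain ⟨i₀, hi₀⟩ := hB.exists_ne
  have : Nonempty J := ⟨i₀⟩
  obtain ⟨i, hi⟩ := Finite.exists_max fun i => gauss r (h i)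
  refine ⟨i, fun h0 => ?_, hi⟩
  have h1 := hi i₀
  rw [h0, gauss_zero] at h1
  exact gaussVal_ne r hi₀ (le_antisymm h1 (by positivity))

lemma siz_le_one (r : ι → ℝ≥0ˣ) (hr : ∀ i ∈ v, 1 ≤ (r i : ℝ≥0)) (i : ι) : siz v r i ≤ 1 := by
  classical
  unfold siz
  split_ifs with hi
  · have := hr i hi
    rw [Units.val_inv_eq_inv_val]
    exact inv_le_one_of_one_le₀ this
  · exact le_rfl

end Pool.Agent.KS6_77
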