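import Pool.Agent.KS6_77.Abs

/-!
# Representations of Galois groups on spaces of vectors of bounded dimension
-/

set_option linter.unusedSectionVars false

open Matrix

namespace Pool.Agent.KS6_77

theorem exists_rep {K L N : Type*} [Field K] [Field L] [Field N] [Algebra K L] [Algebra L N]
    [Algebra K N] [IsScalarTower K L N] {Q : Type*} (A : Set (Q → N))
    (hA : ∀ τ : N ≃ₐ[L] N, ∀ a ∈ A, (fun q => τ (a q)) ∈ A)
    (hgen : ∀ τ : N ≃ₐ[L] N, (∀ a ∈ A, ∀ q, τ (a q) = a q) → τ = 1)
    [Module.Finite K (Submodule.span K A)] :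
    ∃ ρ : (N ≃ₐ[L] N) →* GL (Fin (Module.finrank K (Submodule.span K A))) K,
      Function.Injective ρ := by
  classical
  let W := Submodule.span K A
  let T : (N ≃ₐ[L] N) → ((Q → N) →ₗ[K] (Q → N)) := fun τ =>
    ((τ : N →ₐ[L] N).restrictScalars K).toLinearMap.compLeft Q
  have hT : ∀ (τ : N ≃ₐ[L] N) (a : Q → N) (q : Q), T τ a q = τ (a q) := fun τ a q => rfl
  have hTW : ∀ (τ : N ≃ₐ[L] N), ∀ a ∈ W, T τ a ∈ W := by
    intro τ a ha
    refine Submodule.span_induction (p := fun a _ => T τ a ∈ W) ?_ ?_ ?_ ?_ ha
    · intro a ha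
      exact Submodule.subset_span (hA τ a ha)
    · rw [map_zero]
      exact zero_mem _
    · intro a b _ _ h1 h2
      rw [map_add]
      exact add_mem h1 h2
    · intro c a _ h1
      rw [map_smul]
      exact W.smul_mem c h1
  let R : (N ≃ₐ[L] N) →* Module.End K W :=
    { toFun := fun τ => (T τ).restrict (hTW τ)
      map_one' := by
        ext a q
        rfl
      map_mul' := fun τ τ' => by
        ext a q
        rfl }
  let b := Module.finBasis K W
  let R2 : (N ≃ₐ[L] N) →* Matrix (Fin (Module.finrank K W)) (Fin (Module.finrank K W)) K :=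
    (LinearMap.toMatrixAlgEquiv b : Module.End K W →* _).comp R
  refine ⟨MonoidHom.toHomUnits R2, ?_⟩
  rw [injective_iff_map_eq_one]
  intro τ hτ
  refine hgen τ fun a ha q => ?_
  have h1 : R2 τ = 1 := by
    have := congrArg Units.val hτ
    simpa using this
  have h2 : R τ = 1 := by
    have h3 : LinearMap.toMatrixAlgEquiv b (R τ) = 1 := h1
    rw [← map_one (LinearMap.toMatrixAlgEquiv b)] at h3
    exact (LinearMap.toMatrixAlgEquiv b).injective h3
  have h3 := LinearMap.congr_fun h2 ⟨a, Submodule.subset_span ha⟩
  exact congrFun (congrArg Subtype.val h3) q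

theorem dim_bound {K N E : Type*} [Field K] [Field N] [Field E] [Algebra K N] [Algebra N E]
    [Algebra K E] [IsScalarTower K N E] {Q I' : Type*} [Fintype Q] [Fintype I']
    (W : Submodule K (Q → N)) (b : Q → I' → E) (J' : Set I')
    (hW : ∀ a ∈ W, ∃ y : I' → K, (∀ I ∈ J', y I = 0) ∧
      (∀ I, ∑ q, algebraMap N E (a q) * b q I = algebraMap K E (y I)) ∧ (y = 0 → a = 0)) :
    Module.Finite K W ∧ Module.finrank K W ≤ Nat.card {I // I ∉ J'} ∧
      Module.finrank K W ≤ Fintype.card Q := by
  classical
  choose y hy0 hy hyz using fun a : W => hW a.1 a.2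
  have hinjK : Function.Injective (algebraMap K E) := FaithfulSMul.algebraMap_injective K E
  let Y : W →ₗ[K] (I' → K) :=
    { toFun := y
      map_add' := fun a a' => by
        funext I
        apply hinjK
        rw [Pi.add_apply, map_add, ← hy, ← hy, ← hy, ← Finset.sum_add_distrib]
        refine Finset.sum_congr rfl fun q _ => ?_
        rw [Submodule.coe_add, Pi.add_apply, map_add, add_mul]
      map_smul' := fun c a => by
        funext I
        apply hinjK
        rw [RingHom.id_apply, Pi.smul_apply, smul_eq_mul, map_mul, ← hy, ← hy, Finset.mul_sum]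
        refine Finset.sum_congr rfl fun q _ => ?_
        rw [Submodule.coe_smul, Pi.smul_apply, Algebra.smul_def, map_mul,
          ← IsScalarTower.algebraMap_apply, mul_assoc] }
  have hYinj : Function.Injective Y := by
    rw [injective_iff_map_eq_zero]
    intro a ha
    exact Subtype.ext (hyz a ha)
  let ψ : W →ₗ[K] ({I // I ∉ J'} → K) := (LinearMap.funLeft K K Subtype.val).comp Y
  have hψ : Function.Injective ψ := by
    rw [injective_iff_map_eq_zero]
    intro a ha
    refine (injective_iff_map_eq_zero Y).mp hYinj a (funext fun I => ?_)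
    by_cases hI : I ∈ J'
    · exact hy0 a I hI
    · exact congrFun ha ⟨I, hI⟩
  have hfin : Module.Finite K W := Module.Finite.of_injective ψ hψ
  refine ⟨hfin, ?_, ?_⟩
  · have := LinearMap.finrank_le_finrank_of_injective hψ
    rwa [Module.finrank_fintype_fun_eq_card, ← Nat.card_eq_fintype_card] at this
  · let w := Module.finBasis K W
    have hYw : LinearIndependent K (fun t => Y (w t)) :=
      w.linearIndependent.map' Y (LinearMap.ker_eq_bot.mpr hYinj)
    have hind : LinearIndependent E (fun t (q : Q) => algebraMap N E ((w t : Q → N) q)) := by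
      rw [Fintype.linearIndependent_iff]
      intro e he t
      refine indep_of_ratio (fun t => Y (w t)) hYw e (fun I => ?_) t
      have h1 : ∀ q, ∑ t, e t * algebraMap N E ((w t : Q → N) q) = 0 := by
        intro q
        have := congrFun he q
        simpa [Finset.sum_apply] using this
      calc ∑ t, e t * algebraMap K E (Y (w t) I)
          = ∑ t, e t * ∑ q, algebraMap N E ((w t : Q → N) q) * b q I := by
            refine Finset.sum_congr rfl fun t _ => ?_
            rw [hy (w t) I]
            rfl
        _ = ∑ q, (∑ t, e t * algebraMap N E ((w t : Q → N) q)) * b q I := by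
            simp only [Finset.mul_sum, Finset.sum_mul]
            rw [Finset.sum_comm]
            exact Finset.sum_congr rfl fun _ _ => Finset.sum_congr rfl fun _ _ => by ring
        _ = 0 := Finset.sum_eq_zero fun q _ => by rw [h1 q, zero_mul]
    have := hind.fintype_card_le_finrank
    simpa using this

end Pool.Agent.KS6_77
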