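import Pool.Agent.KS6_77.Stmt
import Pool.Agent.KS6_77.Main

/-!
# The main theorem for the objects of the statement
-/

open scoped TensorProduct

namespace Pool.Agent.KS6_77

universe u w

lemma isDer_dLau {K : Type u} [NontriviallyNormedField K] [IsUltrametricDist K] [CompleteSpace K]
    {ι : Type} [Fintype ι] {v : Set ι} (i : ι) (f : Lau K ι) : IsDer v i f (dLau v i f) := by
  classical
  constructor
  · intro hi ν μ h1 h2
    have h3 : μ = ν - -Pi.single i 1 := by
      funext j
      by_cases hj : j = i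
      · subst hj
        simp [h1]
      · simp [h2 j hj, Pi.single_eq_of_ne hj]
    rw [dLau_mem hi, Lau.mono_mul, one_mul, theta_coeff, h3]
  · intro hi ν
    rw [dLau_not_mem hi, theta_coeff]

lemma IsDer.eq {K : Type u} [NontriviallyNormedField K] [IsUltrametricDist K] [CompleteSpace K]
    {ι : Type} [Fintype ι] {v : Set ι} {i : ι} {f g : Lau K ι} (h : IsDer v i f g) :
    g = dLau v i f := by
  classical
  refine Lau.ext fun ν => ?_
  by_cases hi : i ∈ v
  · have h1 : (ν + Pi.single i 1 : ι → ℤ) i = ν i + 1 := by simp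
    have h2 : ∀ j, j ≠ i → (ν + Pi.single i 1 : ι → ℤ) j = ν j := fun j hj => by
      simp [Pi.single_eq_of_ne hj]
    rw [h.1 hi ν _ h1 h2, (isDer_dLau i f).1 hi ν _ h1 h2]
  · rw [h.2 hi ν, (isDer_dLau i f).2 hi ν]

theorem transfer (S : AnMap.{u}) (hB : S.Big) (hn : S.Normal) (hs : S.Submersive) (C : S.Cover)
    (m n : ℕ) (w : Fin n → C.Tens m) (hw : ∀ t, C.IsReg (w t)) (hK : LinearIndependent S.K w) :
    LinearIndependent C.F w ∧
      n ≤ min (Nat.card ↥(S.vᶜ)) (Cardinal.toNat (Algebra.trdeg S.K S.L)) ^ m := by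
  obtain ⟨φ, hφ⟩ := S.hom
  obtain ⟨ψ, hψ, hran⟩ := S.range
  let _ : Algebra (Lau S.K S.ι) S.M := φ.toRingHom.toAlgebra
  have hinc : ∀ f, algebraMap (Lau S.K S.ι) S.M f = S.inc f := hφ
  have : IsScalarTower S.K (Lau S.K S.ι) S.M := IsScalarTower.of_algebraMap_eq fun c =>
    (φ.commutes c).symm
  have hinj : Function.Injective (algebraMap (Lau S.K S.ι) S.M) := fun x y hxy => by
    rw [hinc, hinc] at hxy
    exact S.inj hxy
  have : FaithfulSMul (Lau S.K S.ι) S.M := (faithfulSMul_iff_algebraMap_injective _ _).mpr hinj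
  have : IsFractionRing (Lau S.K S.ι) S.M := by
    refine IsFractionRing.of_field _ _ fun x => ?_
    obtain ⟨a, b, -, hx⟩ := S.frac x
    exact ⟨a, b, by rw [hx, hinc, hinc]⟩
  let _ : Algebra S.L S.M := ψ.toRingHom.toAlgebra
  have hemb : ∀ x, algebraMap S.L S.M x = S.emb x := hψ
  have : IsScalarTower S.K S.L S.M := IsScalarTower.of_algebraMap_eq fun c =>
    (ψ.commutes c).symm
  have hess : Algebra.EssFiniteType S.K S.L := by
    have h1 : ψ.fieldRange =
        IntermediateField.adjoin S.K {z | ∃ i j, z = S.inc (S.h j) / S.inc (S.h i)} := by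
      ext y
      rw [hran]
      constructor
      · rintro ⟨x, hx⟩
        exact ⟨x, by rw [← hx]; exact (hψ x).symm⟩
      · rintro ⟨x, hx⟩
        exact ⟨x, by rw [← hx]; exact hψ x⟩
    have h2 : ψ.fieldRange.FG := by
      rw [h1]
      refine IntermediateField.fg_adjoin_of_finite ?_
      have : {z | ∃ i j, z = S.inc (S.h j) / S.inc (S.h i)} =
          Set.range fun p : S.J × S.J => S.inc (S.h p.2) / S.inc (S.h p.1) := by
        ext x
        constructor
        · rintro ⟨i, j, rfl⟩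
          exact ⟨(i, j), rfl⟩
        · rintro ⟨⟨i, j⟩, rfl⟩
          exact ⟨i, j, rfl⟩
      rw [this]
      exact Set.finite_range _
    have h3 : Algebra.EssFiniteType S.K ψ.fieldRange := IntermediateField.essFiniteType_iff.mpr h2
    have hbij : Function.Bijective ψ.rangeRestrict :=
      ⟨fun x y hxy => ψ.injective (congrArg Subtype.val hxy), ψ.rangeRestrict_surjective⟩
    let e : S.L ≃ₐ[S.K] ψ.fieldRange := AlgEquiv.ofBijective ψ.rangeRestrict hbij
    exact (Algebra.EssFiniteType.iff_of_algEquiv e).mpr h3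
  choose D hD using fun i => exists_dMer S.K S.v S.M i
  have hs' : ∀ (n : ℕ) (f : Fin n → S.L), AlgebraicIndependent S.K f →
      LinearIndependent S.M fun (k : Fin n) (i : S.ι) => D i (algebraMap S.L S.M (f k)) := by
    intro n f hf
    have := hs D (fun i f g hfg => by rw [hfg.eq, ← hinc, ← hinc, hD]) n f hf
    simpa only [hemb] using this
  have hchart : ∀ i, chart S.M S.L S.h i = S.chart i := by
    intro i
    unfold chart AnMap.chart
    simp only [hemb, hinc]
  have hB' : Big S.v S.h := by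
    intro f hf g hg hfg
    exact hB f g hf hg hfg
  have hn' : ∀ i, S.h i ≠ 0 → ∀ x : S.L, IsIntegral (chart S.M S.L S.h i) x →
      x ∈ chart S.M S.L S.h i := by
    intro i hi x
    rw [hchart i]
    exact hn i hi x
  let U : Submodule S.K (C.F ⊗[S.L] (⨂[S.L] _ : Fin m, Ω[S.L⁄S.K])) :=
    ⨅ (i : S.J) (_ : S.h i ≠ 0), Submodule.span S.K
      {x | ∃ (b : C.F) (f : Fin m → S.L), IsIntegral (chart S.M S.L S.h i) b ∧
        (∀ j, f j ∈ chart S.M S.L S.h i) ∧ x = pureT S.K b f}
  let w0 : Fin n → C.F ⊗[S.L] (⨂[S.L] _ : Fin m, Ω[S.L⁄S.K]) := w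
  have hwU : ∀ t, w0 t ∈ U := by
    intro t
    rw [Submodule.mem_iInf]
    intro i
    rw [Submodule.mem_iInf]
    intro hi
    obtain ⟨k, b, f, hb, hf, hx⟩ := hw t i hi
    rw [← hchart i] at hb hf
    have hx' : w0 t = ∑ t, pureT S.K (b t) (f t) := hx
    rw [hx']
    exact Submodule.sum_mem _ fun t _ => Submodule.subset_span ⟨b t, f t, hb t, hf t, rfl⟩
  have hm := main_theorem (L' := C.F) (m := m) S.isAn D hD hB' hn' hs' U (fun x hx i hi => by
    rw [Submodule.mem_iInf] at hx
    have h1 := hx i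
    rw [Submodule.mem_iInf] at h1
    exact rep_of_span _ x (h1 hi))
  let w' : Fin n → U := fun t => ⟨w0 t, hwU t⟩
  have hK' : LinearIndependent S.K w' := LinearIndependent.of_comp U.subtype hK
  refine ⟨hm.1 w' hK', ?_⟩
  have hfin := hm.2.1
  have hcard : n ≤ Module.finrank S.K U := by
    have := hK'.fintype_card_le_finrank
    rwa [Fintype.card_fin] at this
  rcases min_choice (Nat.card ↥(S.vᶜ)) (Cardinal.toNat (Algebra.trdeg S.K S.L)) with h1 | h1
  · rw [h1]
    exact hcard.trans hm.2.2.1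
  · rw [h1]
    exact hcard.trans hm.2.2.2

end Pool.Agent.KS6_77
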