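import Pool.Agent.KS6_77.Stmt
import Pool.Agent.KS6_77.Main
import Pool.Agent.KS6_77.Transfer

/-!
# From the objects of the statements to algebras
-/

open scoped TensorProduct

namespace Pool.Agent.KS6_77

universe u w

namespace AnMap

variable (S : AnMap.{u})

/-- The field of meromorphic functions as an algebra over the ring of analytic functions. -/
noncomputable abbrev algLau : Algebra (Lau S.K S.ι) S.M :=
  (Classical.choose S.hom).toRingHom.toAlgebra

/-- The field of meromorphic functions as an algebra over the function field. -/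
noncomputable abbrev algFun : Algebra S.L S.M :=
  (Classical.choose S.range).toRingHom.toAlgebra

attribute [local instance] algLau algFun

lemma algLau_apply (f : Lau S.K S.ι) : algebraMap (Lau S.K S.ι) S.M f = S.inc f :=
  Classical.choose_spec S.hom f

lemma algFun_apply (x : S.L) : algebraMap S.L S.M x = S.emb x :=
  (Classical.choose_spec S.range).1 x

lemma towLau : IsScalarTower S.K (Lau S.K S.ι) S.M :=
  IsScalarTower.of_algebraMap_eq fun c => ((Classical.choose S.hom).commutes c).symm

lemma towFun : IsScalarTower S.K S.L S.M :=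
  IsScalarTower.of_algebraMap_eq fun c => ((Classical.choose S.range).commutes c).symm

lemma fracLau : IsFractionRing (Lau S.K S.ι) S.M := by
  have hinj : Function.Injective (algebraMap (Lau S.K S.ι) S.M) := fun x y hxy => by
    rw [algLau_apply, algLau_apply] at hxy
    exact S.inj hxy
  have : FaithfulSMul (Lau S.K S.ι) S.M := (faithfulSMul_iff_algebraMap_injective _ _).mpr hinj
  refine IsFractionRing.of_field _ _ fun x => ?_
  obtain ⟨a, b, -, hx⟩ := S.frac x
  exact ⟨a, b, by rw [hx, algLau_apply, algLau_apply]⟩

lemma essFun : Algebra.EssFiniteType S.K S.L := by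
  obtain ⟨ψ, hψ, hran⟩ := S.range
  have h1 : ψ.fieldRange =
      IntermediateField.adjoin S.K {z | ∃ i j, z = S.inc (S.h j) / S.inc (S.h i)} := by
    ext y
    rw [hran]
    constructor
    · rintro ⟨x, hx⟩
      exact ⟨x, by rw [← hx]; exact (hψ x).symm⟩
    · rintro ⟨x, hx⟩
      exact ⟨x, by rw [← hx]; exact hψ x⟩
  have h2 : ψ.fieldRange.FG := by
    rw [h1]
    refine IntermediateField.fg_adjoin_of_finite ?_
    have : {z | ∃ i j, z = S.inc (S.h j) / S.inc (S.h i)} =
        Set.range fun p : S.J × S.J => S.inc (S.h p.2) / S.inc (S.h p.1) := by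
      ext x
      constructor
      · rintro ⟨i, j, rfl⟩
        exact ⟨(i, j), rfl⟩
      · rintro ⟨⟨i, j⟩, rfl⟩
        exact ⟨i, j, rfl⟩
    rw [this]
    exact Set.finite_range _
  have h3 : Algebra.EssFiniteType S.K ψ.fieldRange := IntermediateField.essFiniteType_iff.mpr h2
  have hbij : Function.Bijective ψ.rangeRestrict :=
    ⟨fun x y hxy => ψ.injective (congrArg Subtype.val hxy), ψ.rangeRestrict_surjective⟩
  let e : S.L ≃ₐ[S.K] ψ.fieldRange := AlgEquiv.ofBijective ψ.rangeRestrict hbij
  exact (Algebra.EssFiniteType.iff_of_algEquiv e).mpr h3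

lemma chart_eq (i : S.J) : KS6_77.chart S.M S.L S.h i = S.chart i := by
  unfold KS6_77.chart AnMap.chart
  simp only [algFun_apply, algLau_apply]

lemma big_of (hB : S.Big) : KS6_77.Big S.v S.h := fun f hf g hg hfg => hB f g hf hg hfg

end AnMap

end Pool.Agent.KS6_77
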