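import Pool.Agent.KS6_77.Gen
import Pool.Agent.KS6_77.Main
import Pool.Agent.KS6_77.Rep

/-!
# One finite Galois cover for all multivalued regular tensor differentials
-/

open scoped NNReal TensorProduct

set_option linter.unusedSectionVars false

namespace Pool.Agent.KS6_77

universe u v w

section repr

variable {K : Type*} {M : Type*} {L : Type*} {L' : Type*} {E : Type*}
  [Field K] [Field L] [Field L'] [Field M] [Field E]
  [Algebra K L] [Algebra K M] [Algebra L M] [IsScalarTower K L M]
  [Algebra L L'] [Algebra M E] [Algebra L E] [IsScalarTower L M E]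

/-- The values of a tensor differential in terms of its coordinates. -/
theorem ev_eq {ι : Type*} [Fintype ι] (D : ι → Derivation K M M)
    {κ : Type*} [Fintype κ] [DecidableEq κ] (B : Module.Basis κ L Ω[L⁄K])
    (s : L' →ₐ[L] E) {m : ℕ} (x : L' ⊗[L] (⨂[L] _ : Fin m, Ω[L⁄K])) (I : Fin m → ι) :
    evCover L s (fun j => D (I j)) x =
      ∑ p, s (((Basis.piTensorProduct fun _ : Fin m => B).baseChange L').repr x p) *
        algebraMap M E (∏ j, evOne L (D (I j)) (B (p j))) := by
  classical
  let Bt : Module.Basis (Fin m → κ) L (⨂[L] _ : Fin m, Ω[L⁄K]) := Basis.piTensorProduct fun _ => B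
  let BB := Bt.baseChange L'
  have hxe : x = ∑ p, BB.repr x p ⊗ₜ[L] Bt p := by
    conv_lhs => rw [← BB.sum_repr x]
    refine Finset.sum_congr rfl fun p _ => ?_
    rw [Module.Basis.baseChange_apply, TensorProduct.smul_tmul', smul_eq_mul, mul_one]
  conv_lhs => rw [hxe]
  rw [map_sum]
  refine Finset.sum_congr rfl fun p _ => ?_
  rw [evCover_tmul, Basis.piTensorProduct_apply, evForm_tprod]

/-- The coordinates of a tensor differential are recovered from its values. -/
theorem repr_eq {ι : Type*} [Fintype ι] (D : ι → Derivation K M M)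
    {κ : Type*} [Fintype κ] [DecidableEq κ] (B : Module.Basis κ L Ω[L⁄K]) (c : κ → ι → M)
    (hc : ∀ k k', ∑ i, c k i * evOne L (D i) (B k') = if k = k' then 1 else 0)
    (s : L' →ₐ[L] E) {m : ℕ} (x : L' ⊗[L] (⨂[L] _ : Fin m, Ω[L⁄K])) (q : Fin m → κ) :
    s (((Basis.piTensorProduct fun _ : Fin m => B).baseChange L').repr x q) =
      ∑ I : Fin m → ι, algebraMap M E (∏ j, c (q j) (I j)) *
        evCover L s (fun j => D (I j)) x := by
  classical
  let Bt : Module.Basis (Fin m → κ) L (⨂[L] _ : Fin m, Ω[L⁄K]) := Basis.piTensorProduct fun _ => B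
  let BB := Bt.baseChange L'
  have hxe : x = ∑ p, BB.repr x p ⊗ₜ[L] Bt p := by
    conv_lhs => rw [← BB.sum_repr x]
    refine Finset.sum_congr rfl fun p _ => ?_
    rw [Module.Basis.baseChange_apply, TensorProduct.smul_tmul', smul_eq_mul, mul_one]
  have hev : ∀ I : Fin m → ι, evCover L s (fun j => D (I j)) x =
      ∑ p, s (BB.repr x p) * algebraMap M E (∏ j, evOne L (D (I j)) (B (p j))) := by
    intro I
    conv_lhs => rw [hxe]
    rw [map_sum]
    refine Finset.sum_congr rfl fun p _ => ?_
    rw [evCover_tmul, Basis.piTensorProduct_apply, evForm_tprod]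
  have h2 : ∑ I : Fin m → ι, algebraMap M E (∏ j, c (q j) (I j)) *
      evCover L s (fun j => D (I j)) x =
      ∑ p, s (BB.repr x p) * algebraMap M E
        (∏ j, ∑ i, c (q j) i * evOne L (D i) (B (p j))) := by
    simp only [hev, Finset.mul_sum]
    rw [Finset.sum_comm]
    refine Finset.sum_congr rfl fun p _ => ?_
    rw [Finset.prod_univ_sum, map_sum, Finset.mul_sum, Fintype.piFinset_univ]
    refine Finset.sum_congr rfl fun I _ => ?_
    rw [Finset.prod_mul_distrib, map_mul]
    ring
  rw [h2, Finset.sum_eq_single q]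
  · simp [hc, BB, Bt]
  · intro p _ hp
    obtain ⟨j, hj⟩ := Function.ne_iff.mp hp
    rw [Finset.prod_eq_zero (Finset.mem_univ j), map_zero, mul_zero]
    rw [hc, if_neg (Ne.symm hj)]
  · simp

end repr

/-- A transcendence basis of the function field, with the basis of differentials. -/
lemma exists_basis' {K M L ι : Type*} [Field K] [CharZero K] [Field M] [Algebra K M] [Field L]
    [Algebra K L] [Algebra L M] [IsScalarTower K L M] [Algebra.EssFiniteType K L]
    (D : ι → Derivation K M M)
    (hs : ∀ (n : ℕ) (f : Fin n → L), AlgebraicIndependent K f →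
      LinearIndependent M fun (k : Fin n) (i : ι) => D i (algebraMap L M (f k))) :
    ∃ (n : ℕ) (B : Module.Basis (Fin n) L Ω[L⁄K]) (f : Fin n → L),
      (∀ k, B k = KaehlerDifferential.D K L (f k)) ∧ Algebra.trdeg K L = n ∧
      LinearIndependent M (fun (k : Fin n) (i : ι) => evOne L (D i) (B k)) := by
  obtain ⟨s, hs', -⟩ := exists_isTranscendenceBasis_and_isSeparable_of_perfectField K L
  let e : Fin s.card ≃ s := (Fintype.equivFinOfCardEq (by simp)).symm
  have hs2 : IsTranscendenceBasis K (fun k : Fin s.card => ((e k : s) : L)) :=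
    (isTranscendenceBasis_equiv e).mpr hs'
  obtain ⟨B, hB⟩ := exists_kaehler_basis hs2
  refine ⟨s.card, B, _, hB, ?_, ?_⟩
  · have := hs'.cardinalMk_eq_trdeg
    rw [← this]
    simp
  have := hs s.card _ hs2.1
  convert this using 3 with k i
  rw [hB, evOne_D]

section main

variable {K : Type u} [NontriviallyNormedField K] [IsUltrametricDist K] [CompleteSpace K]
  [CharZero K] [IsAlgClosed K]
  {ι : Type v} [Fintype ι] {v : Set ι} {J : Type w} [Fintype J] {h : J → Lau K ι}
  {M : Type u} [Field M] [Algebra K M] [Algebra (Lau K ι) M] [IsScalarTower K (Lau K ι) M]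
  [IsFractionRing (Lau K ι) M]
  {L : Type u} [Field L] [Algebra K L] [Algebra L M] [IsScalarTower K L M]
  [Algebra.EssFiniteType K L]
  {E : Type u} [Field E] [Algebra M E] [Algebra K E] [IsScalarTower K M E]
  [Algebra L E] [IsScalarTower L M E] [IsAlgClosed E] [IsScalarTower K L E]

/-- The constant vectors which are the values of a regular tensor differential with coefficients
in a cover, along an embedding of the cover. -/
def ValSet (h : J → Lau K ι) (D : ι → Derivation K M M) (L : Type u) [Field L] [Algebra K L]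
    [Algebra L M] [IsScalarTower K L M]
    (E : Type u) [Field E] [Algebra M E] [Algebra K E] [IsScalarTower K M E]
    [Algebra L E] [IsScalarTower L M E] (m : ℕ) : Set ((Fin m → ι) → K) :=
  {y | ∃ (L' : Type u) (_ : Field L') (_ : Algebra K L') (_ : Algebra L L')
    (_ : IsScalarTower K L L') (_ : FiniteDimensional L L') (s : L' →ₐ[L] E)
    (x : L' ⊗[L] (⨂[L] _ : Fin m, Ω[L⁄K])), (∀ i, h i ≠ 0 → Rep (chart M L h i) x) ∧
      ∀ I, phi D m s x I = algebraMap K E (y I)}

/-- The coordinates of the tensor differential with given values. -/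
noncomputable def recov {n m : ℕ} (c : Fin n → ι → M) (q : Fin m → Fin n) :
    ((Fin m → ι) → K) →ₗ[K] M where
  toFun y := ∑ I : Fin m → ι, (∏ j, c (q j) (I j)) * algebraMap K M (y I)
  map_add' y y' := by
    simp only [Pi.add_apply, map_add, mul_add, Finset.sum_add_distrib]
  map_smul' a y := by
    simp only [Pi.smul_apply, smul_eq_mul, map_mul, RingHom.id_apply, Algebra.smul_def]
    rw [Finset.mul_sum]
    exact Finset.sum_congr rfl fun I _ => by ring

theorem spectral (hA : ∀ j, h j ∈ An K v) (D : ι → Derivation K M M)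
    (hD : ∀ i (f : Lau K ι), D i (algebraMap (Lau K ι) M f) = algebraMap (Lau K ι) M (dLau v i f))
    (hB : BigInt v M h hA)
    (hs : ∀ (n : ℕ) (f : Fin n → L), AlgebraicIndependent K f →
      LinearIndependent M fun (k : Fin n) (i : ι) => D i (algebraMap L M (f k))) (m : ℕ) :
    ∃ N : IntermediateField L E, FiniteDimensional L N ∧ Normal L N ∧
      (∀ z ∈ N, ∃ a : M, algebraMap M E a = z) ∧
      (∀ (L' : Type u) [Field L'] [Algebra K L'] [Algebra L L'] [IsScalarTower K L L']
        [FiniteDimensional L L'] (s : L' →ₐ[L] E) (x : L' ⊗[L] (⨂[L] _ : Fin m, Ω[L⁄K])),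
        (∀ i, h i ≠ 0 → Rep (chart M L h i) x) →
        ∃ (n : ℕ) (b : Fin n → L') (f : Fin n → Fin m → L), (∀ t, s (b t) ∈ N) ∧
          x = ∑ t, pureT K (b t) (f t)) ∧
      ∃ (d : ℕ) (ρ : (N ≃ₐ[L] N) →* GL (Fin d) K), Function.Injective ρ ∧
        d ≤ Nat.card ↥vᶜ ^ m ∧ d ≤ Cardinal.toNat (Algebra.trdeg K L) ^ m := by
  classical
  obtain ⟨n, B, f0, hBf, htr, hBi⟩ := exists_basis' (K := K) (M := M) (L := L) D hs
  obtain ⟨c, hc⟩ := exists_dual _ hBi
  let Y := ValSet h D L E m
  -- the coordinates
  have hcoord : ∀ (L' : Type u) [Field L'] [Algebra K L'] [Algebra L L'] [IsScalarTower K L L']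
      [FiniteDimensional L L'] (s : L' →ₐ[L] E) (x : L' ⊗[L] (⨂[L] _ : Fin m, Ω[L⁄K])),
      (∀ i, h i ≠ 0 → Rep (chart M L h i) x) → ∃ y ∈ Y, (∀ I, phi D m s x I = algebraMap K E (y I)) ∧
        ∀ q : Fin m → Fin n,
        s (((Basis.piTensorProduct fun _ : Fin m => B).baseChange L').repr x q) =
          algebraMap M E (recov c q y) := by
    intro L' _ _ _ _ _ s x hx
    choose y hy _ using fun I => value_gen (E := E) D hA hD hB x hx s I
    refine ⟨y, ⟨L', _, _, _, inferInstance, inferInstance, s, x, hx, hy⟩, hy, fun q => ?_⟩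
    rw [repr_eq D B c hc s x q]
    change _ = algebraMap M E (∑ I : Fin m → ι, (∏ j, c (q j) (I j)) * algebraMap K M (y I))
    rw [map_sum]
    refine Finset.sum_congr rfl fun I _ => ?_
    rw [map_mul, ← IsScalarTower.algebraMap_apply K M E, ← hy I, phi_apply]
  have hrec : ∀ (L' : Type u) [Field L'] [Algebra K L'] [Algebra L L'] [IsScalarTower K L L']
      [FiniteDimensional L L'] (s : L' →ₐ[L] E) (x : L' ⊗[L] (⨂[L] _ : Fin m, Ω[L⁄K]))
      (y : (Fin m → ι) → K), (∀ I, phi D m s x I = algebraMap K E (y I)) →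
      ∀ q : Fin m → Fin n, algebraMap M E (recov c q y) =
        s (((Basis.piTensorProduct fun _ : Fin m => B).baseChange L').repr x q) := by
    intro L' _ _ _ _ _ s x y hy q
    rw [repr_eq D B c hc s x q]
    change algebraMap M E (∑ I : Fin m → ι, (∏ j, c (q j) (I j)) * algebraMap K M (y I)) = _
    rw [map_sum]
    refine Finset.sum_congr rfl fun I _ => ?_
    rw [map_mul, ← IsScalarTower.algebraMap_apply K M E, ← hy I, phi_apply]
  let Z : Set E := {z | ∃ y ∈ Y, ∃ q : Fin m → Fin n, z = algebraMap M E (recov c q y)}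
  have hint : ∀ z ∈ Z, IsIntegral L z := by
    rintro _ ⟨y, ⟨L', _, _, _, _, _, s, x, hx, hy⟩, q, rfl⟩
    rw [hrec L' s x y hy q]
    exact (Algebra.IsIntegral.isIntegral (R := L) _).map s
  have hsplit : ∀ z ∈ Z, ∀ z' : E, Polynomial.aeval z' (minpoly L z) = 0 → z' ∈ Z := by
    rintro _ ⟨y, ⟨L', _, _, _, _, _, s, x, hx, hy⟩, q, rfl⟩ z' hz'
    rw [hrec L' s x y hy q, minpoly.algHom_eq s s.injective] at hz'
    obtain ⟨s', hs'⟩ := IntermediateField.exists_algHom_of_splits_of_aeval (F := L) (E := L')
      (K := E) (fun a => ⟨Algebra.IsIntegral.isIntegral a, IsAlgClosed.splits _⟩) hz'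
    obtain ⟨y', hy', -, hyq⟩ := hcoord L' s' x hx
    exact ⟨y', hy', q, by rw [← hs', hyq]⟩
  let N : IntermediateField L E := IntermediateField.adjoin L Z
  refine ⟨N, ?_, ?_, ?_, ?_, ?_⟩
  · -- finite
    obtain ⟨b, hbY, hbspan, hbind⟩ := exists_linearIndependent K Y
    have hbfin : b.Finite := hbind.setFinite
    let Z0 : Set E := {z | ∃ y ∈ b, ∃ q : Fin m → Fin n, z = algebraMap M E (recov c q y)}
    have hZ0 : Z0.Finite := by
      have : Z0 = ⋃ y ∈ b, Set.range fun q : Fin m → Fin n =>
          algebraMap M E (recov (K := K) c q y) := by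
        ext z
        simp only [Z0, Set.mem_ofPred_eq, Set.mem_iUnion, Set.mem_range, exists_prop]
        constructor
        · rintro ⟨y, hy, q, rfl⟩
          exact ⟨y, hy, q, rfl⟩
        · rintro ⟨y, hy, q, rfl⟩
          exact ⟨y, hy, q, rfl⟩
      rw [this]
      exact hbfin.biUnion fun y _ => Set.finite_range _
    have : Finite Z0 := hZ0
    have hfd : FiniteDimensional L (IntermediateField.adjoin L Z0) :=
      IntermediateField.finiteDimensional_adjoin fun z hz => hint z (by
        obtain ⟨y, hy, q, rfl⟩ := hz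
        exact ⟨y, hbY hy, q, rfl⟩)
    have hNle : N ≤ IntermediateField.adjoin L Z0 := by
      refine IntermediateField.adjoin_le_iff.mpr ?_
      rintro _ ⟨y, hy, q, rfl⟩
      have hyb : y ∈ Submodule.span K b := by
        rw [hbspan]
        exact Submodule.subset_span hy
      refine Submodule.span_induction (p := fun y _ => algebraMap M E (recov c q y) ∈
        IntermediateField.adjoin L Z0) ?_ ?_ ?_ ?_ hyb
      · intro y hy
        exact IntermediateField.subset_adjoin L Z0 ⟨y, hy, q, rfl⟩
      · rw [map_zero, map_zero]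
        exact zero_mem _
      · intro y y' _ _ h1 h2
        rw [map_add, map_add]
        exact add_mem h1 h2
      · intro a y _ h1
        rw [map_smul, Algebra.smul_def, map_mul, ← IsScalarTower.algebraMap_apply K M E,
          IsScalarTower.algebraMap_apply K L E]
        exact mul_mem (IntermediateField.algebraMap_mem _ _) h1
    have heq : N = IntermediateField.adjoin L Z0 := by
      refine le_antisymm hNle (IntermediateField.adjoin.mono L _ _ ?_)
      rintro _ ⟨y, hy, q, rfl⟩
      exact ⟨y, hbY hy, q, rfl⟩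
    rw [heq]
    exact hfd
  · -- normal
    have hsplN : ∀ z ∈ Z, ((minpoly L z).map (algebraMap L N)).Splits := fun z hz =>
      IntermediateField.splits_of_splits (IsAlgClosed.splits _) fun z' hz' =>
        IntermediateField.subset_adjoin L Z (hsplit z hz z' (by
          rw [Polynomial.mem_rootSet'] at hz'
          exact hz'.2))
    rw [normal_iff]
    intro a
    have ha : (a : E) ∈ IntermediateField.adjoin L Z := a.2
    have h1 : ((minpoly L (a : E)).map (algebraMap L N)).Splits :=
      IntermediateField.splits_of_mem_adjoin L E (fun z hz => ⟨hint z hz, hsplN z hz⟩) ha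
    have h2 : minpoly L (a : E) = minpoly L a := minpoly.algHom_eq N.val N.val.injective a
    have halg : Algebra.IsAlgebraic L N := IntermediateField.isAlgebraic_adjoin hint
    exact ⟨halg.isIntegral.isIntegral a, by rw [← h2]; exact h1⟩
  · -- contained in `M`
    have hle : N ≤ (IsScalarTower.toAlgHom L M E).fieldRange := by
      refine IntermediateField.adjoin_le_iff.mpr ?_
      rintro _ ⟨y, hy, q, rfl⟩
      exact ⟨recov c q y, rfl⟩
    intro z hz
    obtain ⟨a, ha⟩ := hle hz
    exact ⟨a, ha⟩
  · intro L' _ _ _ _ _ s x hx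
    obtain ⟨y, hy, -, hyq⟩ := hcoord L' s x hx
    let Bt : Module.Basis (Fin m → Fin n) L (⨂[L] _ : Fin m, Ω[L⁄K]) :=
      Basis.piTensorProduct fun _ => B
    let BB := Bt.baseChange L'
    let e : Fin (Fintype.card (Fin m → Fin n)) ≃ (Fin m → Fin n) := (Fintype.equivFin _).symm
    refine ⟨Fintype.card (Fin m → Fin n), fun t => BB.repr x (e t), fun t j => f0 (e t j),
      fun t => ?_, ?_⟩
    · have h3 : s (BB.repr x (e t)) = algebraMap M E (recov c (e t) y) := hyq (e t)
      rw [h3]
      exact IntermediateField.subset_adjoin L Z ⟨y, hy, e t, rfl⟩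
    · have hxe : x = ∑ p, BB.repr x p ⊗ₜ[L] Bt p := by
        conv_lhs => rw [← BB.sum_repr x]
        refine Finset.sum_congr rfl fun p _ => ?_
        rw [Module.Basis.baseChange_apply, TensorProduct.smul_tmul', smul_eq_mul, mul_one]
      conv_lhs => rw [hxe, ← e.sum_comp]
      refine Finset.sum_congr rfl fun t _ => ?_
      unfold pureT
      rw [Basis.piTensorProduct_apply]
      simp only [hBf]
  · -- the representation of the Galois group
    let A : Set ((Fin m → Fin n) → N) :=
      {a | ∃ y ∈ Y, ∀ q, (a q : E) = algebraMap M E (recov c q y)}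
    let bb : (Fin m → Fin n) → (Fin m → ι) → E := fun q I =>
      algebraMap M E (∏ j, evOne L (D (I j)) (B (q j)))
    let J' : Set (Fin m → ι) := {I | ∃ j, I j ∈ v}
    have hinjK : Function.Injective (algebraMap K E) := FaithfulSMul.algebraMap_injective K E
    have htow : IsScalarTower K N E := by
      refine IsScalarTower.of_algebraMap_eq fun e => ?_
      rw [IsScalarTower.algebraMap_apply K L N, ← IsScalarTower.algebraMap_apply L N E]
      exact IsScalarTower.algebraMap_apply K L E e
    have hWA : ∀ a ∈ Submodule.span K A, ∃ y : (Fin m → ι) → K, (∀ I ∈ J', y I = 0) ∧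
        (∀ I, ∑ q, algebraMap N E (a q) * bb q I = algebraMap K E (y I)) ∧
        ∀ q, (a q : E) = algebraMap M E (recov c q y) := by
      intro a ha
      refine Submodule.span_induction (p := fun a _ => ∃ y : (Fin m → ι) → K,
        (∀ I ∈ J', y I = 0) ∧
        (∀ I, ∑ q, algebraMap N E (a q) * bb q I = algebraMap K E (y I)) ∧
        ∀ q, (a q : E) = algebraMap M E (recov c q y)) ?_ ?_ ?_ ?_ ha
      · rintro a ⟨y, ⟨L', _, _, _, _, _, s, x, hx, hy⟩, hay⟩
        refine ⟨y, fun I hI => ?_, fun I => ?_, hay⟩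
        · obtain ⟨y', hy', hy0⟩ := value_gen (E := E) D hA hD hB x hx s I
          rw [hy I] at hy'
          rw [hinjK hy']
          exact hy0 hI
        · rw [← hy I, phi_apply, ev_eq D B s x I]
          refine Finset.sum_congr rfl fun q _ => ?_
          rw [← hrec L' s x y hy q, ← hay q]
          rfl
      · refine ⟨0, fun I _ => rfl, fun I => ?_, fun q => ?_⟩
        · rw [Pi.zero_apply, map_zero]
          exact Finset.sum_eq_zero fun q _ => by rw [Pi.zero_apply, map_zero, zero_mul]
        · rw [map_zero, map_zero]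
          rfl
      · rintro a a' _ _ ⟨y, h1, h2, h3⟩ ⟨y', h1', h2', h3'⟩
        refine ⟨y + y', fun I hI => ?_, fun I => ?_, fun q => ?_⟩
        · rw [Pi.add_apply, h1 I hI, h1' I hI, add_zero]
        · rw [Pi.add_apply, map_add, ← h2 I, ← h2' I, ← Finset.sum_add_distrib]
          refine Finset.sum_congr rfl fun q _ => ?_
          rw [Pi.add_apply, map_add, add_mul]
        · rw [map_add, map_add, ← h3 q, ← h3' q]
          rfl
      · rintro e a _ ⟨y, h1, h2, h3⟩
        refine ⟨e • y, fun I hI => ?_, fun I => ?_, fun q => ?_⟩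
        · rw [Pi.smul_apply, h1 I hI, smul_zero]
        · rw [Pi.smul_apply, smul_eq_mul, map_mul, ← h2 I, Finset.mul_sum]
          refine Finset.sum_congr rfl fun q _ => ?_
          rw [Pi.smul_apply, Algebra.smul_def, map_mul, ← IsScalarTower.algebraMap_apply,
            mul_assoc]
        · have h4 : recov c q (e • y) = algebraMap K M e * recov c q y := by
            rw [map_smul, Algebra.smul_def]
          have h5 : ((e • a) q : E) = algebraMap K E e * (a q : E) := by
            change algebraMap N E ((e • a) q) = _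
            rw [Pi.smul_apply, Algebra.smul_def, map_mul, ← IsScalarTower.algebraMap_apply]
            rfl
          rw [h4, h5, map_mul, h3 q, ← IsScalarTower.algebraMap_apply K M E]
    obtain ⟨hfin, hd1, hd2⟩ := dim_bound (E := E) (Submodule.span K A) bb J' (fun a ha => by
      obtain ⟨y, h1, h2, h3⟩ := hWA a ha
      refine ⟨y, h1, h2, fun hy0 => ?_⟩
      funext q
      apply Subtype.ext
      rw [h3 q, hy0, map_zero, map_zero]
      rfl)
    obtain ⟨ρ, hρ⟩ := exists_rep (K := K) (L := L) A (by
      rintro τ a ⟨y, ⟨L', _, _, _, _, _, s, x, hx, hy⟩, hay⟩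
      let F0 : IntermediateField L L' := N.comap s
      let g : F0 →ₐ[L] N := (s.comp F0.val).codRestrict N.toSubalgebra fun z => z.2
      let f : F0 →ₐ[L] E := N.val.comp ((τ : N →ₐ[L] N).comp g)
      obtain ⟨s', hs'⟩ := IntermediateField.exists_algHom_of_splits (K := E)
        (fun a => ⟨Algebra.IsIntegral.isIntegral (R := L) a, IsAlgClosed.splits _⟩) f
      obtain ⟨y', hy', -, hyq⟩ := hcoord L' s' x hx
      refine ⟨y', hy', fun q => ?_⟩
      rw [← hyq q]
      have h4 : s (((Basis.piTensorProduct fun _ : Fin m => B).baseChange L').repr x q) =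
          (a q : E) := by rw [← hrec L' s x y hy q, hay q]
      have h5 : ((Basis.piTensorProduct fun _ : Fin m => B).baseChange L').repr x q ∈ F0 := by
        change s _ ∈ N
        rw [h4]
        exact (a q).2
      have h6 := congrArg (fun ψ : F0 →ₐ[L] E => ψ ⟨_, h5⟩) hs'
      have h7 : g ⟨_, h5⟩ = a q := Subtype.ext h4
      have h8 : f ⟨_, h5⟩ = ((τ (a q) : N) : E) := by
        change ((τ (g ⟨_, h5⟩) : N) : E) = _
        rw [h7]
      rw [← h8]
      exact h6.symm) (by
      intro τ hτ
      have h9 : (τ : N →ₐ[L] N) = AlgHom.id L N := by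
        refine IntermediateField.adjoin_algHom_ext L ?_
        rintro _ ⟨y, hy, q, rfl⟩
        have hmem : ∀ q : Fin m → Fin n, algebraMap M E (recov c q y) ∈ N := fun q =>
          IntermediateField.subset_adjoin L Z ⟨y, hy, q, rfl⟩
        exact hτ (fun q => ⟨algebraMap M E (recov c q y), hmem q⟩) ⟨y, hy, fun q => rfl⟩ q
      exact AlgEquiv.ext fun z => congrArg (fun ψ : N →ₐ[L] N => ψ z) h9)
    refine ⟨_, ρ, hρ, ?_, ?_⟩
    · rw [← card_bound]
      exact hd1
    · rw [htr, Cardinal.toNat_natCast]
      simpa using hd2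

end main

end Pool.Agent.KS6_77
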