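import Pool.Agent.KS6_77.AnRing

/-!
# The objects of the statement
-/

open scoped TensorProduct

namespace Pool.Agent.KS6_77

universe u

/-- The Laurent series `f`, convergent on the torus, has only terms with nonnegative exponents
at the indices in `v`: it is an analytic function on the analytification of the product of
additive groups (for `i ∈ v`) and multiplicative groups (for `i ∉ v`). -/
def IsAn {K : Type u} [NontriviallyNormedField K] {ι : Type} [Fintype ι] (v : Set ι)
    (f : Lau K ι) : Prop :=
  ∀ ν, (∃ i ∈ v, ν i < 0) → f.coeff ν = 0

/-- The analytic function `g` is the derivative of `f` along the invariant vector field with index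
`i`: `∂ / ∂ z i` for `i ∈ v` and `z i ∂ / ∂ z i` for `i ∉ v`. -/
def IsDer {K : Type u} [NontriviallyNormedField K] {ι : Type} [Fintype ι] (v : Set ι) (i : ι)
    (f g : Lau K ι) : Prop :=
  (i ∈ v → ∀ ν μ : ι → ℤ, μ i = ν i + 1 → (∀ j, j ≠ i → μ j = ν j) →
    g.coeff ν = μ i * f.coeff μ) ∧
  (i ∉ v → ∀ ν : ι → ℤ, g.coeff ν = ν i * f.coeff ν)

/-- An analytic map to a projective space, with homogeneous coordinates `h j` in the ring of
analytic functions on the analytification of the product over `i : ι` of an additive group (if
`i ∈ v`) or a multiplicative group (if `i ∉ v`) over `K`. The field `M` is the field of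
fractions of the ring of analytic functions on the torus, and `L` is the function field of the
Zariski closure of the image, generated over `K` by the ratios of the `h j`. -/
structure AnMap where
  /-- the ground field -/
  K : Type u
  [nf : NontriviallyNormedField K]
  [um : IsUltrametricDist K]
  [cs : CompleteSpace K]
  [cz : CharZero K]
  [ac : IsAlgClosed K]
  /-- the indices of the factors of the group -/
  ι : Type
  [fi : Fintype ι]
  /-- the indices of the additive groups -/
  v : Set ι
  /-- the indices of the homogeneous coordinates -/
  J : Type
  [fj : Fintype J]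
  /-- the homogeneous coordinates -/
  h : J → Lau K ι
  isAn : ∀ j, IsAn v (h j)
  /-- the field of meromorphic functions -/
  M : Type u
  [fm : Field M]
  [am : Algebra K M]
  /-- the inclusion of the analytic functions -/
  inc : Lau K ι → M
  hom : ∃ φ : Lau K ι →ₐ[K] M, ∀ f, φ f = inc f
  inj : Function.Injective inc
  frac : ∀ x : M, ∃ a b : Lau K ι, b ≠ 0 ∧ x = inc a / inc b
  /-- the function field of the Zariski closure of the image -/
  L : Type u
  [fl : Field L]
  [al : Algebra K L]
  /-- the inclusion of the function field -/
  emb : L → M
  range : ∃ φ : L →ₐ[K] M, (∀ x, φ x = emb x) ∧ ∀ y : M,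
    y ∈ IntermediateField.adjoin K {z | ∃ i j, z = inc (h j) / inc (h i)} ↔ ∃ x, emb x = y

attribute [instance] AnMap.nf AnMap.um AnMap.cs AnMap.cz AnMap.ac AnMap.fi AnMap.fj AnMap.fm
  AnMap.am AnMap.fl AnMap.al

namespace AnMap

variable (S : AnMap.{u})

/-- The coordinate ring of the affine chart `x i ≠ 0` of the Zariski closure of the image. -/
noncomputable def chart (i : S.J) : Subalgebra S.K S.L :=
  Algebra.adjoin S.K {x | ∃ j, S.emb x = S.inc (S.h j) / S.inc (S.h i)}

/-- The map is defined outside of a set of codimension two: a meromorphic function `f / g` which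
becomes analytic after multiplication with a power of each `h i` is analytic. -/
def Big : Prop :=
  ∀ f g : Lau S.K S.ι, IsAn S.v f → IsAn S.v g →
    (∀ i, ∃ (e : ℕ) (q : Lau S.K S.ι), IsAn S.v q ∧ f * S.h i ^ e = g * q) →
    ∃ q : Lau S.K S.ι, IsAn S.v q ∧ f = g * q

/-- The Zariski closure of the image is normal: its charts are integrally closed. -/
def Normal : Prop := ∀ i, S.h i ≠ 0 → ∀ x : S.L, IsIntegral (S.chart i) x → x ∈ S.chart i

/-- The map is generically submersive onto the Zariski closure of the image: functions on the
closure that are algebraically independent over `K` have independent gradients, that is, vectors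
of values of the invariant derivations. -/
def Submersive : Prop :=
  ∀ D : S.ι → Derivation S.K S.M S.M,
    (∀ i f g, IsDer S.v i f g → D i (S.inc f) = S.inc g) →
    ∀ (n : ℕ) (f : Fin n → S.L), AlgebraicIndependent S.K f →
      LinearIndependent S.M fun k i => D i (S.emb (f k))

/-- A finite extension of the function field, that is, a finite cover of the closure of the
image. -/
structure Cover where
  /-- the function field of the cover -/
  F : Type u
  [ff : Field F]
  [ak : Algebra S.K F]
  [al : Algebra S.L F]
  [tw : IsScalarTower S.K S.L F]
  [fd : FiniteDimensional S.L F]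

attribute [instance] Cover.ff Cover.ak Cover.al Cover.tw Cover.fd

namespace Cover

variable {S} (C : S.Cover) (m : ℕ)

/-- Rational tensor differentials of degree `m` on the cover. -/
def Tens : Type u := C.F ⊗[S.L] (⨂[S.L] _ : Fin m, Ω[S.L⁄S.K])

noncomputable instance instAdd : AddCommGroup (C.Tens m) := TensorProduct.addCommGroup

noncomputable instance instMod : Module C.F (C.Tens m) := TensorProduct.leftModule

noncomputable instance instModK : Module S.K (C.Tens m) := TensorProduct.leftModule

variable {m}

/-- The rational tensor differential `b ⊗ df 1 ⊗ ... ⊗ df m`. -/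
noncomputable def pure (b : C.F) (f : Fin m → S.L) : C.Tens m :=
  b ⊗ₜ[S.L] PiTensorProduct.tprod S.L fun j => KaehlerDifferential.D S.K S.L (f j)

/-- Regular tensor differentials: those which on each chart are sums of products
`b ⊗ df 1 ⊗ ... ⊗ df m`, for functions `f j` on the chart and `b` integral over the ring of
functions on the chart. -/
def IsReg (x : C.Tens m) : Prop :=
  ∀ i, S.h i ≠ 0 → ∃ (n : ℕ) (b : Fin n → C.F) (f : Fin n → Fin m → S.L),
    (∀ t, IsIntegral (S.chart i) (b t)) ∧ (∀ t j, f t j ∈ S.chart i) ∧
      x = ∑ t, C.pure (b t) (f t)

end Cover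

end AnMap

end Pool.Agent.KS6_77
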