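import Pool.Agent.KS6_77.Stmt2

/-!
# The objects of the statement on tensor differentials along maps
-/

namespace Pool.Agent.KS6_77

universe u w

namespace AnMap

variable (S : AnMap.{u})

/-- The rank of the map: the dimension over the field of meromorphic functions of the space
spanned by the gradients of the rational functions on the Zariski closure of the image. -/
noncomputable def rank (D : S.ι → S.M → S.M) : ℕ :=
  Module.finrank S.M (Submodule.span S.M {g : S.ι → S.M | ∃ x : S.L, g = fun k => D k (S.emb x)})

/-- The tensor differential `x` on the cover vanishes along the map, for the embeddings `i` and `j`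
of the meromorphic functions on the group and the rational functions on the cover in a field: all
its values on sequences of invariant vector fields are zero. -/
def Cover.Null {S : AnMap.{u}} (C : S.Cover) {m : ℕ} {E : Type w} [Field E]
    (D : S.ι → S.M → S.M) (i : S.M →+* E) (j : C.F →+* E) (x : C.Tens m) : Prop :=
  ∃ (n : ℕ) (b : Fin n → C.F) (f : Fin n → Fin m → S.L), x = ∑ t, C.pure (b t) (f t) ∧
    ∀ I : Fin m → S.ι, ∑ t, j (b t) * ∏ k, i (D (I k) (S.emb (f t k))) = 0

end AnMap

end Pool.Agent.KS6_77
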