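import Pool.Agent.KS6_77.JetT
import Pool.Agent.KS6_77.Spectral

/-!
# The theorem on spectral covers for the objects of the statement
-/

open scoped TensorProduct

namespace Pool.Agent.KS6_77

universe u w

attribute [local instance] AnMap.algLau AnMap.algFun

theorem transfer_spectral (S : AnMap.{u}) (hB : S.Wide) (hs : S.Submersive) (m : ℕ) :
    ∃ N : S.Cover, IsGalois S.L N.F ∧
      (∃ ρ : N.F →+* S.M, ∀ x, ρ (algebraMap S.L N.F x) = S.emb x) ∧
      (∃ (d : ℕ) (γ : (N.F ≃ₐ[S.L] N.F) →* GL (Fin d) S.K), Function.Injective γ ∧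
        d ≤ min (Nat.card ↥(S.vᶜ)) (Cardinal.toNat (Algebra.trdeg S.K S.L)) ^ m) ∧
      ∀ (C : S.Cover) (x : C.Tens m), C.IsReg x →
        ∃ F' : IntermediateField S.L C.F, Nonempty (F' →ₐ[S.L] N.F) ∧
          ∃ (n : ℕ) (b : Fin n → C.F) (f : Fin n → Fin m → S.L),
            (∀ t, b t ∈ F') ∧ x = ∑ t, C.pure (b t) (f t) := by
  have := S.towLau
  have := S.towFun
  have := S.fracLau
  have := S.essFun
  choose D hD using fun i => exists_dMer S.K S.v S.M i
  have hs' : ∀ (n : ℕ) (f : Fin n → S.L), AlgebraicIndependent S.K f →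
      LinearIndependent S.M fun (k : Fin n) (i : S.ι) => D i (algebraMap S.L S.M (f k)) := by
    intro n f hf
    have := hs D (fun i f g hfg => by
      rw [hfg.eq, ← S.algLau_apply, ← S.algLau_apply, hD]) n f hf
    simpa only [S.algFun_apply] using this
  let E := AlgebraicClosure S.M
  have : IsScalarTower S.K S.L E := IsScalarTower.of_algebraMap_eq fun c => by
    rw [IsScalarTower.algebraMap_apply S.K S.M E, IsScalarTower.algebraMap_apply S.K S.L S.M,
      ← IsScalarTower.algebraMap_apply S.L S.M E]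
  obtain ⟨N, hN1, hN2, hN3, hN4, d, γ, hγ, hd1, hd2⟩ :=
    spectral (E := E) S.isAn D hD (S.bigInt_of hB) hs' m
  have htowN : IsScalarTower S.K S.L N := inferInstance
  refine ⟨{ F := N }, ?_, ?_, ⟨d, γ, hγ, ?_⟩, ?_⟩
  · have : CharZero S.L := charZero_of_injective_algebraMap
      (FaithfulSMul.algebraMap_injective S.K S.L)
    exact { }
  · -- the embedding in `M`
    choose a ha using fun z : N => hN3 z.1 z.2
    have hinj : Function.Injective (algebraMap S.M E) := (algebraMap S.M E).injective
    refine ⟨{ toFun := a, map_one' := ?_, map_mul' := ?_, map_zero' := ?_, map_add' := ?_ }, ?_⟩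
    · apply hinj
      rw [ha, map_one]
      rfl
    · intro x y
      apply hinj
      rw [ha, map_mul, ha, ha]
      rfl
    · apply hinj
      rw [ha, map_zero]
      rfl
    · intro x y
      apply hinj
      rw [ha, map_add, ha, ha]
      rfl
    · intro x
      apply hinj
      change algebraMap S.M E (a (algebraMap S.L N x)) = _
      rw [ha, ← S.algFun_apply]
      rfl
  · rcases min_choice (Nat.card ↥(S.vᶜ)) (Cardinal.toNat (Algebra.trdeg S.K S.L)) with h1 | h1
    · rw [h1]
      exact hd1
    · rw [h1]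
      exact hd2
  · intro C x hx
    have s : C.F →ₐ[S.L] E := IsAlgClosed.lift
    obtain ⟨n, b, f, hb, hxe⟩ := hN4 C.F s x (fun i hi => by
      obtain ⟨k, b, f, hb, hf, hx⟩ := hx i hi
      rw [← S.chart_eq i] at hb hf
      exact ⟨k, b, f, hb, hf, hx⟩)
    let F' : IntermediateField S.L C.F := N.comap s
    let g : F' →ₐ[S.L] N := (s.comp F'.val).codRestrict N.toSubalgebra fun z => z.2
    exact ⟨F', ⟨g⟩, n, b, f, hb, hxe⟩

end Pool.Agent.KS6_77
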