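import Pool.Agent.KS6_77.JetT
import Pool.Agent.KS6_77.Stmt3
import Pool.Agent.KS6_77.Along

/-!
# The theorem on tensor differentials along maps for the objects of the statement
-/

open scoped TensorProduct

namespace Pool.Agent.KS6_77

universe u w

attribute [local instance] AnMap.algLau AnMap.algFun

theorem transfer_along (S : AnMap.{u}) (hB : S.Wide) (D : S.ι → S.M → S.M) (hD : S.IsInv D)
    (C : S.Cover) (E : Type w) [Field E] (i : S.M →+* E) (j : C.F →+* E)
    (hij : ∀ x, j (algebraMap S.L C.F x) = i (S.emb x)) (m n : ℕ) (w : Fin n → C.Tens m)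
    (hw : ∀ t, C.IsReg (w t))
    (hK : ∀ a : Fin n → S.K, C.Null D i j (∑ t, a t • w t) → a = 0) :
    (∀ a : Fin n → C.F, C.Null D i j (∑ t, a t • w t) → a = 0) ∧
      n ≤ min (Nat.card ↥(S.vᶜ)) (S.rank D) ^ m ∧
      (S.Submersive → ∀ x : C.Tens m, C.Null D i j x → x = 0) := by
  classical
  have := S.towLau
  have := S.towFun
  have := S.fracLau
  have := S.essFun
  have hB' := S.bigInt_of hB
  choose D' hD' hD'' using fun k => S.exists_der D hD k
  let _ : Algebra S.M E := i.toAlgebra
  let _ : Algebra S.K E := (i.comp (algebraMap S.K S.M)).toAlgebra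
  let _ : Algebra S.L E := (i.comp (algebraMap S.L S.M)).toAlgebra
  have htow : IsScalarTower S.K S.M E := IsScalarTower.of_algebraMap_eq fun _ => rfl
  have htow2 : IsScalarTower S.L S.M E := IsScalarTower.of_algebraMap_eq fun _ => rfl
  let s : C.F →ₐ[S.L] E :=
    { j with
      commutes' := fun x => by
        change j (algebraMap S.L C.F x) = i (algebraMap S.L S.M x)
        rw [hij, ← S.algFun_apply] }
  -- the values
  have hval : ∀ (b : C.F) (f : Fin m → S.L) (I : Fin m → S.ι),
      phi D' m s (pureT S.K b f) I = j b * ∏ k, i (D (I k) (S.emb (f k))) := by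
    intro b f I
    rw [phi_apply]
    unfold pureT
    rw [evCover_tmul, evForm_tprod]
    simp only [evOne_D, hD', S.algFun_apply]
    rw [map_prod]
    rfl
  have hnull : ∀ x : C.Tens m, C.Null D i j x ↔ phi D' m s x = 0 := by
    intro x
    constructor
    · rintro ⟨k, b, f, hx, hI⟩
      funext I
      have hx' : x = ∑ t, pureT S.K (b t) (f t) := hx
      rw [hx', map_sum, Finset.sum_apply]
      simp only [hval]
      exact hI I
    · intro hx
      obtain ⟨k, b, f, hxe⟩ := exists_pure_sum (K := S.K) (L := S.L) (L' := C.F) x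
      refine ⟨k, b, f, hxe, fun I => ?_⟩
      have h1 := congrFun hx I
      rw [hxe, map_sum, Finset.sum_apply] at h1
      simpa only [hval, Pi.zero_apply] using h1
  have hchart : ∀ t, ∀ i, S.h i ≠ 0 → Rep (chart S.M S.L S.h i) (w t) := by
    intro t i hi
    obtain ⟨k, b, f, hb, hf, hx⟩ := hw t i hi
    rw [← S.chart_eq i] at hb hf
    exact ⟨k, b, f, hb, hf, hx⟩
  obtain ⟨h1, h2, h3⟩ := along S.isAn D' hD'' hB' s w hchart
    (fun a ha => hK a ((hnull _).mpr ha))
  refine ⟨fun a ha => h1 a ((hnull _).mp ha), ?_, ?_⟩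
  · have h4 : Module.finrank S.M (Submodule.span S.M {g : S.ι → S.M | ∃ x : S.L, g = fun k =>
        D' k (algebraMap S.L S.M x)}) = S.rank D := by
      have h5 : {g : S.ι → S.M | ∃ x : S.L, g = fun k => D' k (algebraMap S.L S.M x)} =
          {g : S.ι → S.M | ∃ x : S.L, g = fun k => D k (S.emb x)} := by
        ext g
        constructor
        · rintro ⟨x, rfl⟩
          exact ⟨x, funext fun k => by rw [hD', S.algFun_apply]⟩
        · rintro ⟨x, rfl⟩
          exact ⟨x, funext fun k => by rw [hD', S.algFun_apply]⟩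
      rw [h5]
      rfl
    rw [h4] at h3
    rcases min_choice (Nat.card ↥(S.vᶜ)) (S.rank D) with h5 | h5
    · rw [h5]
      exact h2
    · rw [h5]
      exact h3
  · intro hs x hx
    have hs' : ∀ (n : ℕ) (f : Fin n → S.L), AlgebraicIndependent S.K f →
        LinearIndependent S.M fun (k : Fin n) (i : S.ι) => D' i (algebraMap S.L S.M (f k)) := by
      intro n f hf
      have := hs D' (fun i f g hfg => by
        rw [hfg.eq, ← S.algLau_apply, ← S.algLau_apply, hD'']) n f hf
      simpa only [S.algFun_apply] using this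
    obtain ⟨n', B, hn', hB'⟩ := exists_basis (K := S.K) (M := S.M) (L := S.L) D' hs'
    exact evCover_injective D' B hB' s x fun I => congrFun ((hnull x).mp hx) I

end Pool.Agent.KS6_77
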